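import Pool.Agent.AAL.Defs
import Pool.Agent.RefW.Fibre
import Pool.Agent.RefW.Mahler

/-!
# The Mahler measure and the coefficients
-/

set_option autoImplicit false

open Polynomial NumberField IntermediateField Module Pool.Agent.AA

namespace Pool.Agent.AAL

private theorem Arch_sum {A : Type} [Semiring A] {n : ℕ} (F : A[X]) (hF : F.natDegree = n) :
    ∑ i : Fin (n + 1), C (F.coeff i) * X ^ (i : ℕ) = F := by
  rw [Fin.sum_univ_eq_sum_range (fun i => C (F.coeff i) * X ^ i) (n + 1)]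
  conv_rhs => rw [F.as_sum_range_C_mul_X_pow, hF]

private theorem Arch_key {k : Type} [Field k] [NumberField k] (n : ℕ) (F : (𝓞 k)[X])
    (x : AlgebraicClosure k) (hx : finrank k (IntermediateField.adjoin k {x}) = n)
    (hF : F.natDegree = n) (hF0 : F ≠ 0) (hFx : aeval x (F.map (algebraMap (𝓞 k) k)) = 0) :
    ∃ e : (ρ : k →+* ℂ) →
      (Fin n ≃ {σ : IntermediateField.adjoin k {x} →+* ℂ // σ.comp (algebraMap k _) = ρ}),
      lgM ℂ F x = ∑ ρ : k →+* ℂ, Real.log (‖ρ (F.leadingCoeff : k)‖ *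
        ∏ l, max 1 ‖(e ρ l).1 (AdjoinSimple.gen k x)‖) ∧
      ∀ ρ : k →+* ℂ, ∑ i : Fin (n + 1), C (ρ (F.coeff i : k)) * X ^ (i : ℕ) =
        C (ρ (F.leadingCoeff : k)) * ∏ l, (X - C ((e ρ l).1 (AdjoinSimple.gen k x))) := by
  have hFn : (fun i : Fin (n + 1) => F.coeff i) ≠ 0 := by
    intro h
    have h1 := congrFun h (Fin.last n)
    simp only [Fin.val_last, Pi.zero_apply] at h1
    rw [← hF, coeff_natDegree, leadingCoeff_eq_zero] at h1
    exact hF0 h1
  have hroot : RefW.RootOf (fun i : Fin (n + 1) => F.coeff i) (IntermediateField.adjoin k {x})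
      (AdjoinSimple.gen k x) := by
    refine ⟨?_, hx, ?_⟩
    · apply IntermediateField.lift_injective
      rw [IntermediateField.lift_adjoin_simple, IntermediateField.lift_top,
        AdjoinSimple.coe_gen]
    · apply (algebraMap (IntermediateField.adjoin k {x}) (AlgebraicClosure k)).injective
      rw [map_zero, map_sum]
      have h1 := hFx
      rw [← Arch_sum (F.map (algebraMap (𝓞 k) k)) (n := n)
        ((natDegree_map_eq_of_injective (FaithfulSMul.algebraMap_injective (𝓞 k) k) F).trans hF),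
        map_sum] at h1
      rw [← h1]
      refine Finset.sum_congr rfl fun i _ => ?_
      rw [map_mul, map_pow, map_mul, map_pow, aeval_C, aeval_X, coeff_map]
      rfl
  choose e he using fun ρ : k →+* ℂ => RefW.exists_fibre_equiv hFn hroot ρ
  have hlast : F.coeff ((Fin.last n : Fin (n + 1)) : ℕ) = F.leadingCoeff := by
    rw [Fin.val_last, ← hF, coeff_natDegree]
  refine ⟨e, ?_, ?_⟩
  · unfold lgM
    have h1 : ∑ σ : IntermediateField.adjoin k {x} →+* ℂ,
        Real.log (max 1 ‖σ (AdjoinSimple.gen k x)‖) =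
        ∑ ρ : k →+* ℂ, ∑ l : Fin n, Real.log (max 1 ‖(e ρ l).1 (AdjoinSimple.gen k x)‖) := by
      classical
      rw [← Finset.sum_fiberwise Finset.univ
        (fun σ : IntermediateField.adjoin k {x} →+* ℂ => σ.comp (algebraMap k _))]
      refine Finset.sum_congr rfl fun ρ _ => ?_
      rw [(e ρ).sum_comp (fun s => Real.log (max 1 ‖s.1 (AdjoinSimple.gen k x)‖))]
      refine Finset.sum_subtype _ (fun σ => ?_) _
      rw [Finset.mem_filter]
      exact ⟨fun h => h.2, fun h => ⟨Finset.mem_univ _, h⟩⟩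
    rw [h1, ← Finset.sum_add_distrib]
    refine Finset.sum_congr rfl fun ρ _ => ?_
    have h2 : ρ (F.leadingCoeff : k) ≠ 0 := by
      rw [Ne, map_eq_zero]
      intro h3
      exact hF0 (leadingCoeff_eq_zero.1 (RingOfIntegers.coe_injective (by simpa using h3)))
    rw [Real.log_mul (norm_ne_zero_iff.2 h2)
      (Finset.prod_ne_zero_iff.2 fun l _ => (lt_of_lt_of_le one_pos (le_max_left _ _)).ne'),
      Real.log_prod (fun l _ => (lt_of_lt_of_le one_pos (le_max_left _ _)).ne')]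
  · intro ρ
    have h1 := he ρ
    simp only [hlast] at h1
    exact h1

private theorem Arch_pos {k : Type} [Field k] [NumberField k] (n : ℕ) (F : (𝓞 k)[X])
    (hF0 : F ≠ 0) (ρ : k →+* ℂ) (y : Fin n → ℂ) :
    0 < ‖ρ (F.leadingCoeff : k)‖ * ∏ l, max 1 ‖y l‖ := by
  have h2 : ρ (F.leadingCoeff : k) ≠ 0 := by
    rw [Ne, map_eq_zero]
    intro h3
    exact hF0 (leadingCoeff_eq_zero.1 (RingOfIntegers.coe_injective (by simpa using h3)))
  exact mul_pos (norm_pos_iff.2 h2)
    (Finset.prod_pos fun l _ => lt_of_lt_of_le one_pos (le_max_left _ _))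

theorem lgM_le {k : Type} [Field k] [NumberField k] (n : ℕ) (F : (𝓞 k)[X])
    (x : AlgebraicClosure k) (hx : finrank k (IntermediateField.adjoin k {x}) = n)
    (hF : F.natDegree = n) (hF0 : F ≠ 0) (hFx : aeval x (F.map (algebraMap (𝓞 k) k)) = 0)
    (R : ℝ) (hR : 0 < R) (h : ∀ (i : ℕ) (ρ : k →+* ℂ), ‖ρ (F.coeff i : k)‖ ≤ R) :
    lgM ℂ F x ≤ finrank ℚ k * Real.log ((n + 1) * R) := by
  obtain ⟨e, he, hp⟩ := Arch_key n F x hx hF hF0 hFx
  rw [he, ← NumberField.Embeddings.card k ℂ, ← nsmul_eq_mul, ← Finset.card_univ]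
  refine Finset.sum_le_card_nsmul _ _ _ fun ρ _ => ?_
  refine Real.log_le_log (Arch_pos n F hF0 ρ _) ?_
  refine (RefW.mahler_le _ _ _ (hp ρ)).1.trans ?_
  refine mul_le_mul_of_nonneg_left ?_ (by positivity)
  rw [pi_norm_le_iff_of_nonneg hR.le]
  intro i
  exact h i ρ

theorem le_lgM {k : Type} [Field k] [NumberField k] (n : ℕ) (F : (𝓞 k)[X])
    (x : AlgebraicClosure k) (hx : finrank k (IntermediateField.adjoin k {x}) = n)
    (hF : F.natDegree = n) (hF0 : F ≠ 0) (hFx : aeval x (F.map (algebraMap (𝓞 k) k)) = 0)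
    (R : ℝ) (hR : 0 < R) (i : ℕ) (h : ∀ ρ : k →+* ℂ, R ≤ ‖ρ (F.coeff i : k)‖) :
    finrank ℚ k * Real.log (R / 2 ^ n) ≤ lgM ℂ F x := by
  obtain ⟨e, he, hp⟩ := Arch_key n F x hx hF hF0 hFx
  rw [he, ← NumberField.Embeddings.card k ℂ, ← nsmul_eq_mul, ← Finset.card_univ]
  refine Finset.card_nsmul_le_sum _ _ _ fun ρ _ => ?_
  refine Real.log_le_log (by positivity) ?_
  rw [div_le_iff₀' (by positivity)]
  refine le_trans ?_ (RefW.mahler_le _ _ _ (hp ρ)).2
  have hi : i < n + 1 := by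
    by_contra hcon
    have h1 := h ρ
    rw [coeff_eq_zero_of_natDegree_lt (by omega)] at h1
    simp only [map_zero, norm_zero] at h1
    linarith
  refine (h ρ).trans ?_
  exact norm_le_pi_norm (fun j : Fin (n + 1) => ρ (F.coeff j : k)) ⟨i, hi⟩

end Pool.Agent.AAL
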