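import Pool.Agent.AAL.Defs
import Pool.Agent.SST.KAux

/-!
# Upper bounds for the resultants
-/

set_option autoImplicit false

open Polynomial NumberField IntermediateField Module Pool.Agent.AA

namespace Pool.Agent.AAL

section

variable {k : Type} [Field k] [NumberField k]

private theorem eval_form' (g : (𝓞 k)[X]) {n : ℕ}
    (y : Fin (n + 1) → 𝓞 k) {A : Type} [Field A] (ρ : k →+* A) (α : A)
    (hα : (g.map (ρ.comp (algebraMap (𝓞 k) k))).eval α = 0) :
    ((form g y).map (ρ.comp (algebraMap (𝓞 k) k))).eval α =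
      ∑ i : Fin (n + 1), if (i : ℕ) < g.natDegree then ρ (y i : k) * α ^ (i : ℕ) else 0 := by
  unfold form
  rw [Polynomial.map_sum, Polynomial.eval_finsetSum]
  refine Finset.sum_congr rfl fun i _ => ?_
  rw [Polynomial.map_mul, Polynomial.map_C, Polynomial.eval_mul, Polynomial.eval_C]
  split_ifs with hi
  · rw [Polynomial.map_pow, Polynomial.map_X, Polynomial.eval_pow, Polynomial.eval_X]
    rfl
  · rw [Polynomial.map_mul, Polynomial.eval_mul, hα, zero_mul, mul_zero]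

omit [NumberField k] in
private theorem natDegree_term {g : (𝓞 k)[X]} (hg : g ≠ 0) (i : ℕ) :
    (if i < g.natDegree then (X : (𝓞 k)[X]) ^ i else g * X ^ (i - g.natDegree)).natDegree = i := by
  split_ifs with hi
  · exact natDegree_X_pow i
  · rw [natDegree_mul hg (pow_ne_zero _ X_ne_zero), natDegree_X_pow]
    omega

private theorem lc_form {g : (𝓞 k)[X]} (hg : g ≠ 0) {n : ℕ} (hn : g.natDegree ≤ n)
    (y : Fin (n + 1) → 𝓞 k) (hy : y (Fin.last n) ≠ 0) :
    (form g y).leadingCoeff = g.leadingCoeff * y (Fin.last n) := by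
  have h1 : (form g y).natDegree ≤ n := by
    refine natDegree_sum_le_of_forall_le _ _ fun i _ => ?_
    refine (natDegree_C_mul_le _ _).trans ?_
    rw [natDegree_term hg]
    exact Nat.lt_succ_iff.1 i.2
  have h2 : (form g y).coeff n = g.leadingCoeff * y (Fin.last n) := by
    unfold form
    rw [finsetSum_coeff, Finset.sum_eq_single (Fin.last n)]
    · rw [coeff_C_mul, Fin.val_last, if_neg (not_lt.2 hn), mul_comm]
      congr 1
      have h3 := natDegree_term hg n
      rw [if_neg (not_lt.2 hn)] at h3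
      have h4 : (g * X ^ (n - g.natDegree)).leadingCoeff = g.leadingCoeff := by
        rw [leadingCoeff_mul, leadingCoeff_X_pow, mul_one]
      rw [← h4, leadingCoeff, h3]
    · intro i _ hi
      rw [coeff_C_mul, coeff_eq_zero_of_natDegree_lt, mul_zero]
      rw [natDegree_term hg]
      exact lt_of_le_of_ne (Nat.lt_succ_iff.1 i.2) fun h => hi (Fin.ext h)
    · intro h
      exact absurd (Finset.mem_univ _) h
  have h3 : g.leadingCoeff * y (Fin.last n) ≠ 0 := mul_ne_zero (leadingCoeff_ne_zero.2 hg) hy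
  have h4 : (form g y).natDegree = n :=
    le_antisymm h1 (le_natDegree_of_ne_zero (by rw [h2]; exact h3))
  rw [leadingCoeff, h4, h2]

/-- the constant -/
private noncomputable def cst (A : Type) [NormedField A] (g : k[X]) (g₁ : (𝓞 k)[X]) (q n : ℕ)
    (ρ : k →+* A) : ℝ :=
  (max 1 ‖ρ (g₁.leadingCoeff : k)‖) ^ (q - g.natDegree) *
    ((g.map ρ).roots.map fun α => 1 + ∑ i ∈ Finset.range (n + 1), ‖α‖ ^ i).prod

omit [NumberField k] in
private theorem one_le_cst (A : Type) [NormedField A] (g : k[X]) (g₁ : (𝓞 k)[X]) (q n : ℕ)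
    (ρ : k →+* A) : 1 ≤ cst A g g₁ q n ρ := by
  have h1 : ∀ s : Multiset A,
      1 ≤ (s.map fun α => 1 + ∑ i ∈ Finset.range (n + 1), ‖α‖ ^ i).prod := by
    intro s
    induction s using Multiset.induction_on with
    | empty => rw [Multiset.map_zero, Multiset.prod_zero]
    | cons a s ih =>
      rw [Multiset.map_cons, Multiset.prod_cons]
      refine one_le_mul_of_one_le_of_one_le ?_ ih
      have : 0 ≤ ∑ i ∈ Finset.range (n + 1), ‖a‖ ^ i :=
        Finset.sum_nonneg fun i _ => pow_nonneg (norm_nonneg _) _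
      linarith
  exact one_le_mul_of_one_le_of_one_le (one_le_pow₀ (le_max_left _ _)) (h1 _)

private theorem prod_le {A : Type} [NormedField A] (f : A → A) (B : A → ℝ) (T : ℝ) (hT : 1 ≤ T)
    (s : Multiset A) (e : ℕ) (hs : s.card ≤ e) (h : ∀ a ∈ s, ‖f a‖ ≤ T * B a)
    (hB : ∀ a, 1 ≤ B a) : ‖(s.map f).prod‖ ≤ T ^ e * (s.map B).prod := by
  have h1 : ∀ s : Multiset A, (∀ a ∈ s, ‖f a‖ ≤ T * B a) →
      ‖(s.map f).prod‖ ≤ T ^ s.card * (s.map B).prod ∧ 0 ≤ (s.map B).prod := by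
    intro s
    induction s using Multiset.induction_on with
    | empty =>
      intro _
      simp
    | cons a s ih =>
      intro h
      obtain ⟨h2, h3⟩ := ih fun b hb => h b (Multiset.mem_cons_of_mem hb)
      have h4 := h a (Multiset.mem_cons_self a s)
      rw [Multiset.map_cons, Multiset.prod_cons, Multiset.map_cons, Multiset.prod_cons,
        Multiset.card_cons, norm_mul, pow_succ]
      refine ⟨?_, mul_nonneg (zero_le_one.trans (hB a)) h3⟩
      calc ‖f a‖ * ‖(s.map f).prod‖ ≤ (T * B a) * (T ^ s.card * (s.map B).prod) :=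
            mul_le_mul h4 h2 (norm_nonneg _)
              (mul_nonneg (zero_le_one.trans hT) (zero_le_one.trans (hB a)))
        _ = T ^ s.card * T * (B a * (s.map B).prod) := by ring
  obtain ⟨h2, h3⟩ := h1 s h
  exact h2.trans (mul_le_mul_of_nonneg_right (pow_le_pow_right₀ hT hs) h3)

private theorem core {A : Type} [NormedField A] [CharZero A] {g : k[X]} {m : 𝓞 k} (hm : m ≠ 0)
    {g₁ : (𝓞 k)[X]} (hg0 : g ≠ 0) (hg₁ : g₁.map (algebraMap (𝓞 k) k) = C (m : k) * g) {q : ℕ}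
    (hq : q = g.natDegree ∨ q = g.natDegree + 1) {n : ℕ} (hn : q ≤ n)
    (y : Fin (n + 1) → 𝓞 k) (hy : y (Fin.last n) ≠ 0) (ρ : k →+* A) (T : ℝ) (hT : 1 ≤ T)
    (h : ∀ i ∈ sm g₁.natDegree q n, ‖ρ (y i : k)‖ ≤ T) :
    ‖ρ ((form g₁ y).leadingCoeff : k)‖ ^ (q - g.natDegree) *
    ‖((g.map ρ).roots.map fun α =>
      ((form g₁ y).map (ρ.comp (algebraMap (𝓞 k) k))).eval α).prod‖ ≤
      T ^ q * cst A g g₁ q n ρ := by
  have hm' : (m : k) ≠ 0 := fun h => hm (RingOfIntegers.coe_eq_zero_iff.1 h)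
  have hdeg : g₁.natDegree = g.natDegree := by
    have h1 := congrArg natDegree hg₁
    rw [natDegree_C_mul hm',
      natDegree_map_eq_of_injective (RingOfIntegers.coe_injective (K := k))] at h1
    exact h1
  have hg₁0 : g₁ ≠ 0 := by
    rintro rfl
    rw [Polynomial.map_zero] at hg₁
    exact (mul_ne_zero (C_ne_zero.2 hm') hg0) hg₁.symm
  have hqe : g.natDegree ≤ q := by omega
  have T0 : (0 : ℝ) ≤ T := zero_le_one.trans hT
  have h1 : ‖ρ ((form g₁ y).leadingCoeff : k)‖ ^ (q - g.natDegree) ≤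
      T ^ (q - g.natDegree) * (max 1 ‖ρ (g₁.leadingCoeff : k)‖) ^ (q - g.natDegree) := by
    rcases hq with h2 | h2
    · rw [h2, Nat.sub_self, pow_zero, pow_zero, pow_zero, mul_one]
    · have h3 : q - g.natDegree = 1 := by omega
      have h6 : ((g₁.leadingCoeff * y (Fin.last n) : 𝓞 k) : k) =
          (g₁.leadingCoeff : k) * (y (Fin.last n) : k) := rfl
      rw [h3, pow_one, pow_one, pow_one, lc_form hg₁0 (by omega) y hy, h6,
        map_mul, norm_mul, mul_comm]
      refine mul_le_mul (h _ ?_) (le_max_right _ _) (norm_nonneg _) T0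
      unfold sm
      rw [Finset.mem_filter]
      exact ⟨Finset.mem_univ _, Or.inr ⟨Fin.val_last n, by omega⟩⟩
  have h2 : ‖((g.map ρ).roots.map fun α =>
      ((form g₁ y).map (ρ.comp (algebraMap (𝓞 k) k))).eval α).prod‖ ≤
      T ^ g.natDegree * ((g.map ρ).roots.map fun α =>
        1 + ∑ i ∈ Finset.range (n + 1), ‖α‖ ^ i).prod := by
    apply prod_le _ _ T hT
    · refine (card_roots' _).trans ?_
      rw [natDegree_map]
    · intro α hα
      have h3 : (g₁.map (ρ.comp (algebraMap (𝓞 k) k))).eval α = 0 := by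
        rw [← Polynomial.map_map, hg₁, Polynomial.map_mul, Polynomial.eval_mul]
        have h4 := isRoot_of_mem_roots hα
        rw [IsRoot.def] at h4
        rw [h4, mul_zero]
      rw [eval_form' g₁ y ρ α h3]
      have h5 : ∀ i : Fin (n + 1),
          ‖(if (i : ℕ) < g₁.natDegree then ρ (y i : k) * α ^ (i : ℕ) else 0)‖ ≤
            T * ‖α‖ ^ (i : ℕ) := by
        intro i
        split_ifs with hi
        · rw [norm_mul, norm_pow]
          refine mul_le_mul_of_nonneg_right (h i ?_) (pow_nonneg (norm_nonneg _) _)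
          unfold sm
          rw [Finset.mem_filter]
          exact ⟨Finset.mem_univ _, Or.inl hi⟩
        · rw [norm_zero]
          exact mul_nonneg T0 (pow_nonneg (norm_nonneg _) _)
      calc ‖∑ i : Fin (n + 1), (if (i : ℕ) < g₁.natDegree then ρ (y i : k) * α ^ (i : ℕ) else 0)‖
          ≤ ∑ i : Fin (n + 1),
            ‖(if (i : ℕ) < g₁.natDegree then ρ (y i : k) * α ^ (i : ℕ) else 0)‖ :=
            norm_sum_le _ _
        _ ≤ ∑ i : Fin (n + 1), T * ‖α‖ ^ (i : ℕ) := Finset.sum_le_sum fun i _ => h5 i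
        _ = T * ∑ i ∈ Finset.range (n + 1), ‖α‖ ^ i := by
            rw [← Finset.mul_sum, Finset.sum_range]
        _ ≤ T * (1 + ∑ i ∈ Finset.range (n + 1), ‖α‖ ^ i) :=
            mul_le_mul_of_nonneg_left (by linarith) T0
    · intro α
      have : 0 ≤ ∑ i ∈ Finset.range (n + 1), ‖α‖ ^ i :=
        Finset.sum_nonneg fun i _ => pow_nonneg (norm_nonneg _) _
      linarith
  have h3 : T ^ q = T ^ (q - g.natDegree) * T ^ g.natDegree := by
    rw [← pow_add, Nat.sub_add_cancel hqe]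
  rw [h3]
  unfold cst
  calc _ ≤ (T ^ (q - g.natDegree) * (max 1 ‖ρ (g₁.leadingCoeff : k)‖) ^ (q - g.natDegree)) *
        (T ^ g.natDegree * ((g.map ρ).roots.map fun α =>
          1 + ∑ i ∈ Finset.range (n + 1), ‖α‖ ^ i).prod) :=
        mul_le_mul h1 h2 (norm_nonneg _) (mul_nonneg (pow_nonneg T0 _)
          (pow_nonneg (zero_le_one.trans (le_max_left _ _)) _))
    _ = _ := by ring

private theorem log_le {x T c : ℝ} {q : ℕ} (hx : 0 ≤ x) (hT : 1 ≤ T) (hc : 1 ≤ c)
    (h : x ≤ T ^ q * c) : Real.log x ≤ q * Real.log T + Real.log c := by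
  have hT0 : 0 < T := zero_lt_one.trans_le hT
  have hc0 : 0 < c := zero_lt_one.trans_le hc
  rcases hx.eq_or_lt with h1 | h1
  · rw [← h1, Real.log_zero]
    exact add_nonneg (mul_nonneg (Nat.cast_nonneg _) (Real.log_nonneg hT)) (Real.log_nonneg hc)
  · refine (Real.log_le_log h1 h).trans ?_
    rw [Real.log_mul (pow_ne_zero _ hT0.ne') hc0.ne', Real.log_pow]

end

/-- the resultants with the forms of the box are small -/
theorem lgR_le (k : Type) [Field k] [NumberField k] {r : ℕ} (p : Fin r → ℕ)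
    [∀ t, Fact (p t).Prime] (g : k[X]) (hg : Squarefree g) (m : 𝓞 k) (hm : m ≠ 0)
    (g₁ : (𝓞 k)[X]) (hg₁ : g₁.map (algebraMap (𝓞 k) k) = C (m : k) * g) (q : ℕ)
    (hq : q = g.natDegree ∨ q = g.natDegree + 1) (n : ℕ) (hn : q ≤ n) (l : ℕ)
    (y₀ : Fin (n + 1) → 𝓞 k) (a : ℝ) (ha0 : 0 < a) (ha1 : a < 1) :
    ∃ C : ℝ, ∀ R : ℝ, 1 ≤ R →
      ∀ y ∈ box (sm g₁.natDegree q n) (top g₁.natDegree q n) l y₀ a R,
      Irreducible ((form g₁ y).map (algebraMap (𝓞 k) k)) → y 0 ≠ 0 → y (Fin.last n) ≠ 0 →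
      lgR ℂ g q (form g₁ y) + ∑ t, lgR ℂ_[p t] g q (form g₁ y) ≤
        finrank ℚ k * (q * a) * Real.log R + C := by
  have hg0 : g ≠ 0 := hg.ne_zero
  refine ⟨∑ ρ : k →+* ℂ, Real.log (cst ℂ g g₁ q n ρ) +
    ∑ t, ∑ ρ : k →+* ℂ_[p t], Real.log (cst ℂ_[p t] g g₁ q n ρ), fun R hR y hy _ _ hyn => ?_⟩
  obtain ⟨-, hy2, -⟩ := hy
  have hR0 : 0 < R := zero_lt_one.trans_le hR
  have hT : 1 ≤ R ^ a := Real.one_le_rpow hR ha0.le
  have h1 : lgR ℂ g q (form g₁ y) ≤ finrank ℚ k * (q * a) * Real.log R +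
      ∑ ρ : k →+* ℂ, Real.log (cst ℂ g g₁ q n ρ) := by
    have h2 : ∀ ρ : k →+* ℂ, Real.log (‖ρ ((form g₁ y).leadingCoeff : k)‖ ^ (q - g.natDegree) *
        ‖((g.map ρ).roots.map fun α =>
          ((form g₁ y).map (ρ.comp (algebraMap (𝓞 k) k))).eval α).prod‖) ≤
        q * a * Real.log R + Real.log (cst ℂ g g₁ q n ρ) := by
      intro ρ
      have h3 := core hm hg0 hg₁ hq hn y hyn ρ (R ^ a) hT (fun i hi => by
        have h4 := hy2 i (InfinitePlace.mk ρ)
        rw [if_pos hi, InfinitePlace.apply] at h4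
        exact h4)
      have h5 := log_le (mul_nonneg (pow_nonneg (norm_nonneg _) _) (norm_nonneg _)) hT
        (one_le_cst ℂ g g₁ q n ρ) h3
      rw [Real.log_rpow hR0] at h5
      linarith
    have h6 := Finset.sum_le_sum fun ρ (_ : ρ ∈ (Finset.univ : Finset (k →+* ℂ))) => h2 ρ
    rw [Finset.sum_add_distrib, Finset.sum_const, nsmul_eq_mul, Finset.card_univ,
      NumberField.Embeddings.card] at h6
    unfold lgR
    linarith
  have h2 : ∑ t, lgR ℂ_[p t] g q (form g₁ y) ≤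
      ∑ t, ∑ ρ : k →+* ℂ_[p t], Real.log (cst ℂ_[p t] g g₁ q n ρ) := by
    refine Finset.sum_le_sum fun t _ => ?_
    unfold lgR
    refine Finset.sum_le_sum fun ρ _ => ?_
    have h3 := core hm hg0 hg₁ hq hn y hyn ρ 1 le_rfl
      (fun i _ => Pool.Agent.SST.kaux_integer_le_one (p t) ρ (y i))
    have h5 := log_le (mul_nonneg (pow_nonneg (norm_nonneg _) _) (norm_nonneg _)) le_rfl
      (one_le_cst ℂ_[p t] g g₁ q n ρ) h3
    rw [Real.log_one, mul_zero, zero_add] at h5
    exact h5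
  linarith

/-- the resultants with the forms which are small at the divisor -/
theorem lgR_le_gen (k : Type) [Field k] [NumberField k] {r : ℕ} (p : Fin r → ℕ)
    [∀ t, Fact (p t).Prime] (g : k[X]) (hg : Squarefree g) (m : 𝓞 k) (hm : m ≠ 0)
    (g₁ : (𝓞 k)[X]) (hg₁ : g₁.map (algebraMap (𝓞 k) k) = C (m : k) * g) (q : ℕ)
    (hq : q = g.natDegree ∨ q = g.natDegree + 1) (n : ℕ) (hn : q ≤ n) :
    ∃ C : ℝ, ∀ T : ℝ, 1 ≤ T → ∀ y : Fin (n + 1) → 𝓞 k,
      (∀ i ∈ sm g₁.natDegree q n, ∀ w : InfinitePlace k, w (y i : k) ≤ T) →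
      y (Fin.last n) ≠ 0 →
      lgR ℂ g q (form g₁ y) + ∑ t, lgR ℂ_[p t] g q (form g₁ y) ≤
        finrank ℚ k * q * Real.log T + C := by
  have hg0 : g ≠ 0 := hg.ne_zero
  refine ⟨∑ ρ : k →+* ℂ, Real.log (cst ℂ g g₁ q n ρ) +
    ∑ t, ∑ ρ : k →+* ℂ_[p t], Real.log (cst ℂ_[p t] g g₁ q n ρ), fun T hT y hy2 hyn => ?_⟩
  have h1 : lgR ℂ g q (form g₁ y) ≤ finrank ℚ k * q * Real.log T +
      ∑ ρ : k →+* ℂ, Real.log (cst ℂ g g₁ q n ρ) := by
    have h2 : ∀ ρ : k →+* ℂ, Real.log (‖ρ ((form g₁ y).leadingCoeff : k)‖ ^ (q - g.natDegree) *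
        ‖((g.map ρ).roots.map fun α =>
          ((form g₁ y).map (ρ.comp (algebraMap (𝓞 k) k))).eval α).prod‖) ≤
        q * Real.log T + Real.log (cst ℂ g g₁ q n ρ) := by
      intro ρ
      have h3 := core hm hg0 hg₁ hq hn y hyn ρ T hT (fun i hi => by
        have h4 := hy2 i hi (InfinitePlace.mk ρ)
        rw [InfinitePlace.apply] at h4
        exact h4)
      exact log_le (mul_nonneg (pow_nonneg (norm_nonneg _) _) (norm_nonneg _)) hT
        (one_le_cst ℂ g g₁ q n ρ) h3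
    have h6 := Finset.sum_le_sum fun ρ (_ : ρ ∈ (Finset.univ : Finset (k →+* ℂ))) => h2 ρ
    rw [Finset.sum_add_distrib, Finset.sum_const, nsmul_eq_mul, Finset.card_univ,
      NumberField.Embeddings.card] at h6
    unfold lgR
    linarith
  have h2 : ∑ t, lgR ℂ_[p t] g q (form g₁ y) ≤
      ∑ t, ∑ ρ : k →+* ℂ_[p t], Real.log (cst ℂ_[p t] g g₁ q n ρ) := by
    refine Finset.sum_le_sum fun t _ => ?_
    unfold lgR
    refine Finset.sum_le_sum fun ρ _ => ?_
    have h3 := core hm hg0 hg₁ hq hn y hyn ρ 1 le_rfl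
      (fun i _ => Pool.Agent.SST.kaux_integer_le_one (p t) ρ (y i))
    have h5 := log_le (mul_nonneg (pow_nonneg (norm_nonneg _) _) (norm_nonneg _)) le_rfl
      (one_le_cst ℂ_[p t] g g₁ q n ρ) h3
    rw [Real.log_one, mul_zero, zero_add] at h5
    exact h5
  linarith

end Pool.Agent.AAL
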