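import Pool.Agent.AAL.Defs
import Pool.Agent.AA.Blich
import Pool.Agent.AA.Cell

/-!
# The number of lattice points of a box
-/

set_option autoImplicit false

open Polynomial NumberField IntermediateField Module Pool.Agent.AA

namespace Pool.Agent.AAL

theorem box_finite (k : Type) [Field k] [NumberField k] {n : ℕ} (T : Finset (Fin (n + 1)))
    (i₀ : Fin (n + 1)) (l : ℕ) (y₀ : Fin (n + 1) → 𝓞 k) (a R : ℝ) :
    (box T i₀ l y₀ a R).Finite := by
  refine Set.Finite.subset (Set.Finite.pi' fun _ : Fin (n + 1) =>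
    small_finite k (max (R ^ a) R + 1)) ?_
  intro y hy i w
  have h1 := hy.2.1 i w
  have h2 : (if i ∈ T then R ^ a else R) ≤ max (R ^ a) R := by
    split_ifs
    · exact le_max_left _ _
    · exact le_max_right _ _
  linarith

private lemma BoxLow_place_nat {k : Type} [Field k] [NumberField k] (w : InfinitePlace k) (m : ℕ) :
    w (m : k) = m := by
  rw [← InfinitePlace.norm_embedding_eq, map_natCast, Complex.norm_natCast]

private lemma BoxLow_sub {k : Type} [Field k] [NumberField k] (w : InfinitePlace k) (x y : k) :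
    w x - w y ≤ w (x + y) := by
  rw [← InfinitePlace.norm_embedding_eq, ← InfinitePlace.norm_embedding_eq w y,
    ← InfinitePlace.norm_embedding_eq w (x + y), map_add]
  exact norm_sub_le_norm_add _ _

private lemma BoxLow_add {k : Type} [Field k] [NumberField k] (w : InfinitePlace k) (x y : k) :
    w (x + y) ≤ w x + w y := by
  rw [← InfinitePlace.norm_embedding_eq, ← InfinitePlace.norm_embedding_eq w y,
    ← InfinitePlace.norm_embedding_eq w x, map_add]
  exact norm_add_le _ _

theorem le_card_box (k : Type) [Field k] [NumberField k] {n : ℕ} (T : Finset (Fin (n + 1)))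
    (i₀ : Fin (n + 1)) (hi₀ : i₀ ∉ T) (l : ℕ) (hl : 0 < l) (y₀ : Fin (n + 1) → 𝓞 k) (a : ℝ)
    (ha0 : 0 < a) (ha1 : a ≤ 1) : ∃ c R₀ : ℝ, 0 < c ∧ 1 ≤ R₀ ∧ ∀ R : ℝ, R₀ ≤ R →
      c * R ^ ((finrank ℚ k : ℝ) * (n + 1 - T.card + a * T.card)) ≤
        ((box T i₀ l y₀ a R).ncard : ℝ) := by
  classical
  have hl' : (0 : ℝ) < l := by exact_mod_cast hl
  have hl1 : (1 : ℝ) ≤ l := by exact_mod_cast hl
  have hlk : (l : k) ≠ 0 := by exact_mod_cast hl.ne'
  -- a bound for the base point
  obtain ⟨Y, hY0, hY⟩ : ∃ Y : ℝ, 0 ≤ Y ∧ ∀ i (w : InfinitePlace k), w (y₀ i : k) ≤ Y := by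
    refine ⟨∑ i, ∑ w : InfinitePlace k, w (y₀ i : k), ?_, fun i w => ?_⟩
    · exact Finset.sum_nonneg fun i _ => Finset.sum_nonneg fun w _ => apply_nonneg w _
    · calc w (y₀ i : k) ≤ ∑ w : InfinitePlace k, w (y₀ i : k) :=
            Finset.single_le_sum (f := fun w : InfinitePlace k => w (y₀ i : k))
              (fun w _ => apply_nonneg w _) (Finset.mem_univ w)
        _ ≤ _ := Finset.single_le_sum (f := fun i => ∑ w : InfinitePlace k, w (y₀ i : k))
              (fun i _ => Finset.sum_nonneg fun w _ => apply_nonneg w _) (Finset.mem_univ i)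
  set D : ℝ := Real.sqrt |(discr k : ℝ)| with hD
  have hDpos : 0 < D := by
    refine Real.sqrt_pos.mpr (abs_pos.mpr ?_)
    exact_mod_cast NumberField.discr_ne_zero k
  set c₁ : ℝ := (1 / (16 * l)) ^ finrank ℚ k / D with hc₁
  have hc₁pos : 0 < c₁ := by positivity
  set B : ℝ := 8 * (l + Y) with hB
  have hB1 : 1 ≤ B := by rw [hB]; linarith
  refine ⟨c₁ ^ (n + 1), B ^ (1 / a), by positivity, Real.one_le_rpow hB1 (by positivity), ?_⟩
  intro R hR
  have hBR : B ≤ R ^ a := by
    have h1 : (B ^ (1 / a)) ^ a ≤ R ^ a :=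
      Real.rpow_le_rpow (by positivity) hR ha0.le
    rwa [← Real.rpow_mul (by positivity), one_div, inv_mul_cancel₀ ha0.ne', Real.rpow_one] at h1
  have hR1 : 1 ≤ R := (Real.one_le_rpow hB1 (by positivity)).trans hR
  have hRa : R ^ a ≤ R := by
    conv_rhs => rw [← Real.rpow_one R]
    exact Real.rpow_le_rpow_of_exponent_le hR1 ha1
  have hRpos : 0 < R := by linarith
  set e : Fin (n + 1) → ℝ := fun i => if i ∈ T then a else 1 with he
  have hRe : ∀ i, R ^ e i = if i ∈ T then R ^ a else R := by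
    intro i
    by_cases h : i ∈ T
    · simp only [he, if_pos h]
    · simp only [he, if_neg h, Real.rpow_one]
  have hBe : ∀ i, B ≤ R ^ e i := by
    intro i
    rw [hRe]
    split_ifs
    · exact hBR
    · exact hBR.trans hRa
  -- the shift
  set m : ℕ := ⌊3 * R / (4 * l)⌋₊ with hm
  have hm1 : (l : ℝ) * m ≤ 3 * R / 4 := by
    have h1 : (m : ℝ) ≤ 3 * R / (4 * l) := Nat.floor_le (by positivity)
    calc (l : ℝ) * m ≤ l * (3 * R / (4 * l)) := mul_le_mul_of_nonneg_left h1 hl'.le
      _ = 3 * R / 4 := by field_simp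
  have hm2 : 3 * R / 4 - l ≤ (l : ℝ) * m := by
    have h1 : 3 * R / (4 * l) < m + 1 := Nat.lt_floor_add_one _
    have h2 : (l : ℝ) * (3 * R / (4 * l)) ≤ l * (m + 1) := mul_le_mul_of_nonneg_left h1.le hl'.le
    have h3 : (l : ℝ) * (3 * R / (4 * l)) = 3 * R / 4 := by field_simp
    linarith
  set s : Fin (n + 1) → ℕ := fun i => if i = i₀ then m else 0 with hs
  set φ : Fin (n + 1) → 𝓞 k → 𝓞 k := fun i z => y₀ i + (l : 𝓞 k) * ((s i : 𝓞 k) + z) with hφ
  have hφinj : ∀ i, Function.Injective (φ i) := by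
    intro i z z' hz
    have h1 : (l : 𝓞 k) * ((s i : 𝓞 k) + z) = (l : 𝓞 k) * ((s i : 𝓞 k) + z') :=
      add_left_cancel hz
    have h2 : (l : 𝓞 k) ≠ 0 := by exact_mod_cast hl.ne'
    exact add_left_cancel (mul_left_cancel₀ h2 h1)
  have hfin : ∀ i, (small k (R ^ e i / (8 * l))).Finite := fun i => small_finite k _
  set P : Fin (n + 1) → Finset (𝓞 k) := fun i => ((hfin i).toFinset).image (φ i) with hP
  have hcardP : ∀ i, c₁ * R ^ (e i * finrank ℚ k) ≤ ((P i).card : ℝ) := by
    intro i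
    have h1 : (P i).card = (small k (R ^ e i / (8 * l))).ncard := by
      rw [hP]
      simp only
      rw [Finset.card_image_of_injective _ (hφinj i), Set.ncard_eq_toFinset_card _ (hfin i)]
    rw [h1]
    have h2 := le_card_small k (R ^ e i / (8 * l)) (by positivity)
    refine le_trans (le_of_eq ?_) h2
    rw [hc₁, Real.rpow_mul hRpos.le, Real.rpow_natCast]
    have h3 : R ^ e i / (8 * l) / 2 = 1 / (16 * l) * R ^ e i := by
      field_simp
      norm_num
    rw [h3, mul_pow]
    ring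
  have hval : ∀ i (z : 𝓞 k) (w : InfinitePlace k),
      w (φ i z : k) ≤ w (y₀ i : k) + (l * s i + l * w (z : k)) := by
    intro i z w
    have h1 : ((φ i z : 𝓞 k) : k) = (y₀ i : k) + ((l : k) * (s i : k) + (l : k) * (z : k)) := by
      rw [hφ]
      push_cast
      ring
    rw [h1]
    refine (BoxLow_add w _ _).trans (add_le_add le_rfl ((BoxLow_add w _ _).trans ?_))
    rw [map_mul, map_mul, BoxLow_place_nat, BoxLow_place_nat]
  have hval2 : ∀ i (z : 𝓞 k) (w : InfinitePlace k),
      (l * s i : ℝ) - l * w (z : k) - w (y₀ i : k) ≤ w (φ i z : k) := by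
    intro i z w
    have h1 : ((φ i z : 𝓞 k) : k) = ((l : k) * (s i : k) + (l : k) * (z : k)) + (y₀ i : k) := by
      rw [hφ]
      push_cast
      ring
    rw [h1]
    have h2 := BoxLow_sub w ((l : k) * (s i : k) + (l : k) * (z : k)) (y₀ i : k)
    have h3 := BoxLow_sub w ((l : k) * (s i : k)) ((l : k) * (z : k))
    rw [map_mul, map_mul, BoxLow_place_nat, BoxLow_place_nat] at h3
    linarith
  have hsub : (↑(Fintype.piFinset P) : Set (Fin (n + 1) → 𝓞 k)) ⊆ box T i₀ l y₀ a R := by
    intro y hy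
    have hy1 : ∀ i, ∃ z : 𝓞 k, (∀ w : InfinitePlace k, w (z : k) < R ^ e i / (8 * l)) ∧
        φ i z = y i := by
      intro i
      have h1 := Fintype.mem_piFinset.mp (Finset.mem_coe.mp hy) i
      rw [hP] at h1
      obtain ⟨z, hz, hz2⟩ := Finset.mem_image.mp h1
      exact ⟨z, (Set.Finite.mem_toFinset _).mp hz, hz2⟩
    have hlz : ∀ i (z : 𝓞 k) (w : InfinitePlace k), w (z : k) < R ^ e i / (8 * l) →
        l * w (z : k) ≤ R ^ e i / 8 := by
      intro i z w hz
      calc l * w (z : k) ≤ l * (R ^ e i / (8 * l)) := mul_le_mul_of_nonneg_left hz.le hl'.le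
        _ = R ^ e i / 8 := by field_simp
    refine ⟨fun i => ?_, fun i w => ?_, fun w => ?_⟩
    · obtain ⟨z, -, hz⟩ := hy1 i
      exact ⟨(s i : 𝓞 k) + z, hz.symm⟩
    · obtain ⟨z, hz1, hz⟩ := hy1 i
      rw [← hz, ← hRe]
      have h1 := hval i z w
      have h2 := hlz i z w (hz1 w)
      have h3 := hY i w
      have h4 := hBe i
      by_cases hi : i = i₀
      · have h5 : s i = m := by rw [hs]; simp [hi]
        have h6 : R ^ e i = R := by rw [hRe, hi, if_neg hi₀]
        rw [h5] at h1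
        rw [h6] at h2 h4 ⊢
        linarith
      · have h5 : s i = 0 := by rw [hs]; simp [hi]
        rw [h5, Nat.cast_zero, mul_zero] at h1
        linarith
    · obtain ⟨z, hz1, hz⟩ := hy1 i₀
      rw [← hz]
      have h1 := hval2 i₀ z w
      have h2 := hlz i₀ z w (hz1 w)
      have h3 := hY i₀ w
      have h4 := hBe i₀
      have h5 : s i₀ = m := by rw [hs]; simp
      have h6 : R ^ e i₀ = R := by rw [hRe, if_neg hi₀]
      rw [h5] at h1
      rw [h6] at h2 h4
      linarith
  have hcard : (((Fintype.piFinset P).card : ℕ) : ℝ) ≤ ((box T i₀ l y₀ a R).ncard : ℝ) := by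
    have h1 := Set.ncard_le_ncard hsub (box_finite k T i₀ l y₀ a R)
    rw [Set.ncard_coe_finset] at h1
    exact_mod_cast h1
  refine le_trans ?_ hcard
  rw [Fintype.card_piFinset]
  push_cast
  have hsum : ∑ i : Fin (n + 1), e i = n + 1 - T.card + a * T.card := by
    have h1 : ∀ i : Fin (n + 1), e i = 1 + if i ∈ T then a - 1 else 0 := by
      intro i
      by_cases h : i ∈ T
      · simp only [he, if_pos h]
        ring
      · simp only [he, if_neg h]
        ring
    rw [Finset.sum_congr rfl fun i _ => h1 i, Finset.sum_add_distrib, Finset.sum_ite_mem,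
      Finset.univ_inter]
    simp
    ring
  calc c₁ ^ (n + 1) * R ^ ((finrank ℚ k : ℝ) * (n + 1 - T.card + a * T.card))
      = ∏ i : Fin (n + 1), (c₁ * R ^ (e i * finrank ℚ k)) := by
        rw [Finset.prod_mul_distrib, Finset.prod_const, Finset.card_univ, Fintype.card_fin,
          ← Real.rpow_sum_of_pos hRpos, ← Finset.sum_mul, hsum, mul_comm (finrank ℚ k : ℝ)]
    _ ≤ ∏ i : Fin (n + 1), ((P i).card : ℝ) :=
        Finset.prod_le_prod (fun i _ => by positivity) fun i _ => hcardP i

end Pool.Agent.AAL
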