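import Pool.Agent.AA.Defs2

/-!
# The lower bound: definitions
-/

set_option autoImplicit false

open Polynomial NumberField IntermediateField Module

namespace Pool.Agent.AAL

/-- the logarithm of the product over the embeddings `ρ` of `k` in `A` of the Mahler measures of the
conjugates of `F`, for a zero `x` of `F` of degree `deg F` over `k` -/
noncomputable def lgM {k : Type} [Field k] [NumberField k] (A : Type) [NormedField A] [CharZero A]
    (F : (𝓞 k)[X]) (x : AlgebraicClosure k) : ℝ :=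
  (∑ ρ : k →+* A, Real.log ‖ρ (F.leadingCoeff : k)‖) +
    ∑ σ : IntermediateField.adjoin k {x} →+* A, Real.log (max 1 ‖σ (AdjoinSimple.gen k x)‖)

/-- the logarithm of the product over the embeddings `ρ` of `k` in `A` of the values of the form `F`
at the zeros of the form of degree `q` given by `g` -/
noncomputable def lgR {k : Type} [Field k] [NumberField k] (A : Type) [NormedField A] [CharZero A]
    (g : k[X]) (q : ℕ) (F : (𝓞 k)[X]) : ℝ :=
  ∑ ρ : k →+* A, Real.log (‖ρ (F.leadingCoeff : k)‖ ^ (q - g.natDegree) *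
    ‖((g.map ρ).roots.map fun α => (F.map (ρ.comp (algebraMap (𝓞 k) k))).eval α).prod‖)

/-- the polynomial `γ + g Q`, where `γ` has the coefficients `y i` for `i < deg g` and `Q` the
coefficients `y i` for `i ≥ deg g` -/
noncomputable def form {k : Type} [Field k] [NumberField k] (g : (𝓞 k)[X]) {n : ℕ}
    (y : Fin (n + 1) → 𝓞 k) : (𝓞 k)[X] :=
  ∑ i : Fin (n + 1), C (y i) *
    (if (i : ℕ) < g.natDegree then X ^ (i : ℕ) else g * X ^ ((i : ℕ) - g.natDegree))

/-- the indices of the small coordinates -/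
def sm (e q n : ℕ) : Finset (Fin (n + 1)) :=
  Finset.univ.filter fun i => (i : ℕ) < e ∨ ((i : ℕ) = n ∧ q = e + 1)

/-- the index of the coordinate which is large at all places -/
def top (e q n : ℕ) : Fin (n + 1) := ⟨n - (q - e), by omega⟩

/-- a box in `(𝓞 k) ^ (n + 1)` -/
def box {k : Type} [Field k] [NumberField k] {n : ℕ} (T : Finset (Fin (n + 1)))
    (i₀ : Fin (n + 1)) (l : ℕ) (y₀ : Fin (n + 1) → 𝓞 k) (a R : ℝ) :
    Set (Fin (n + 1) → 𝓞 k) :=
  {y | (∀ i, ∃ z : 𝓞 k, y i = y₀ i + (l : 𝓞 k) * z) ∧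
    (∀ i, ∀ w : InfinitePlace k, w (y i : k) ≤ if i ∈ T then R ^ a else R) ∧
    ∀ w : InfinitePlace k, R / 2 ≤ w (y i₀ : k)}

end Pool.Agent.AAL
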