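import Pool.Agent.AAL.Defs
import Mathlib.RingTheory.Polynomial.ContentIdeal

/-!
# Algebra of the polynomials `form g y`
-/

set_option autoImplicit false

open Polynomial NumberField IntermediateField Module

namespace Pool.Agent.AAL

/-- the `i`-th basis polynomial -/
private noncomputable def bs {R : Type*} [CommRing R] (g : R[X]) (i : ℕ) : R[X] :=
  if i < g.natDegree then X ^ i else g * X ^ (i - g.natDegree)

/-- the form over a general ring -/
private noncomputable def fm {R : Type*} [CommRing R] (g : R[X]) {n : ℕ} (y : Fin (n + 1) → R) :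
    R[X] := ∑ i : Fin (n + 1), C (y i) * bs g i

private lemma natDegree_bs_le {R : Type*} [CommRing R] (g : R[X]) (i : ℕ) :
    (bs g i).natDegree ≤ i := by
  unfold bs
  split_ifs with h
  · exact natDegree_X_pow_le i
  · refine natDegree_mul_le.trans ?_
    have := natDegree_X_pow_le (R := R) (i - g.natDegree)
    omega

private lemma coeff_bs_self {R : Type*} [CommRing R] (g : R[X]) (i : ℕ) :
    (bs g i).coeff i = if i < g.natDegree then 1 else g.leadingCoeff := by
  unfold bs
  split_ifs with h
  · exact coeff_X_pow_self i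
  · rw [coeff_mul_X_pow', if_pos (Nat.sub_le _ _),
      show i - (i - g.natDegree) = g.natDegree by omega]
    rfl

private lemma coeff_bs_of_lt {R : Type*} [CommRing R] (g : R[X]) {i j : ℕ} (h : i < j) :
    (bs g i).coeff j = 0 :=
  coeff_eq_zero_of_natDegree_lt ((natDegree_bs_le g i).trans_lt h)

private lemma coeff_fm {R : Type*} [CommRing R] (g : R[X]) {n : ℕ} (y : Fin (n + 1) → R) (j : ℕ) :
    (fm g y).coeff j = ∑ i : Fin (n + 1), y i * (bs g i).coeff j := by
  unfold fm
  rw [finsetSum_coeff]
  exact Finset.sum_congr rfl fun i _ => coeff_C_mul _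

private lemma fm_mem_aux {R : Type*} [CommRing R] (g : R[X]) {n : ℕ} (y : Fin (n + 1) → R)
    (I : Ideal R) (h : ∀ j, (fm g y).coeff j ∈ I) (j : ℕ) :
    ∀ i : Fin (n + 1), n - (i : ℕ) = j → g.leadingCoeff ^ (j + 1) * y i ∈ I := by
  induction j using Nat.strong_induction_on with
  | _ j ih =>
    intro i hi
    have h1 : g.leadingCoeff ^ j * (fm g y).coeff i ∈ I := I.mul_mem_left _ (h i)
    rw [coeff_fm, Finset.mul_sum, ← Finset.add_sum_erase _ _ (Finset.mem_univ i)] at h1
    have h2 : ∑ x ∈ Finset.univ.erase i, g.leadingCoeff ^ j * (y x * (bs g x).coeff i) ∈ I := by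
      refine I.sum_mem fun x hx => ?_
      have hx1 : (x : ℕ) ≠ i := fun hh => (Finset.ne_of_mem_erase hx) (Fin.ext hh)
      rcases lt_or_gt_of_ne hx1 with h3 | h3
      · rw [coeff_bs_of_lt g h3, mul_zero, mul_zero]
        exact I.zero_mem
      · have h4 : (x : ℕ) ≤ n := Nat.lt_succ_iff.mp x.2
        have h5 := ih (n - x) (by omega) x rfl
        have h6 : g.leadingCoeff ^ j * (y x * (bs g x).coeff i) =
            (g.leadingCoeff ^ (j - (n - (x : ℕ) + 1)) * (bs g x).coeff i) *
              (g.leadingCoeff ^ (n - (x : ℕ) + 1) * y x) := by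
          have h7 : g.leadingCoeff ^ j = g.leadingCoeff ^ (j - (n - (x : ℕ) + 1)) *
              g.leadingCoeff ^ (n - (x : ℕ) + 1) := by
            rw [← pow_add]
            congr 1
            omega
          rw [h7]
          ring
        rw [h6]
        exact I.mul_mem_left _ h5
    have h3 := (I.add_mem_iff_left h2).mp h1
    rw [coeff_bs_self] at h3
    split_ifs at h3 with h4
    · rw [mul_one] at h3
      have h5 := I.mul_mem_left g.leadingCoeff h3
      rwa [← mul_assoc, ← pow_succ'] at h5
    · have h5 : g.leadingCoeff ^ (j + 1) * y i = g.leadingCoeff ^ j * (y i * g.leadingCoeff) := by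
        ring
      rwa [h5]

private lemma fm_mem {R : Type*} [CommRing R] (g : R[X]) {n : ℕ} (y : Fin (n + 1) → R)
    (I : Ideal R) (h : ∀ j, (fm g y).coeff j ∈ I) (i : Fin (n + 1)) :
    g.leadingCoeff ^ (n + 1) * y i ∈ I := by
  have h1 := fm_mem_aux g y I h _ i rfl
  have h2 : g.leadingCoeff ^ (n + 1) * y i =
      g.leadingCoeff ^ (i : ℕ) * (g.leadingCoeff ^ (n - (i : ℕ) + 1) * y i) := by
    have h3 : (i : ℕ) ≤ n := Nat.lt_succ_iff.mp i.2
    rw [← mul_assoc, ← pow_add]
    congr 2
    omega
  rw [h2]
  exact I.mul_mem_left _ h1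

private lemma form_eq {k : Type} [Field k] [NumberField k] (g : (𝓞 k)[X]) {n : ℕ}
    (y : Fin (n + 1) → 𝓞 k) : form g y = fm g y := rfl

theorem natDegree_form {k : Type} [Field k] [NumberField k] (g : (𝓞 k)[X]) (hg : g ≠ 0) {n : ℕ}
    (hn : g.natDegree ≤ n) (y : Fin (n + 1) → 𝓞 k) (hy : y (Fin.last n) ≠ 0) :
    (form g y).natDegree = n ∧
      (form g y).leadingCoeff = g.leadingCoeff * y (Fin.last n) := by
  have h1 : (form g y).natDegree ≤ n := by
    rw [form_eq]
    unfold fm
    refine natDegree_sum_le_of_forall_le _ _ fun i _ => ?_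
    exact (natDegree_C_mul_le _ _).trans ((natDegree_bs_le g i).trans (Nat.lt_succ_iff.mp i.2))
  have h2 : (form g y).coeff n = g.leadingCoeff * y (Fin.last n) := by
    rw [form_eq, coeff_fm, Finset.sum_eq_single (Fin.last n)]
    · rw [Fin.val_last, coeff_bs_self, if_neg (by omega), mul_comm]
    · intro i _ hi
      have h3 : (i : ℕ) < n := Fin.val_lt_last hi
      rw [coeff_bs_of_lt g h3, mul_zero]
    · intro h3
      exact absurd (Finset.mem_univ _) h3
  have h3 : (form g y).coeff n ≠ 0 := by
    rw [h2]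
    exact mul_ne_zero (leadingCoeff_ne_zero.mpr hg) hy
  have h4 : (form g y).natDegree = n := le_antisymm h1 (le_natDegree_of_ne_zero h3)
  refine ⟨h4, ?_⟩
  rw [leadingCoeff, h4, h2]

theorem mem_content {k : Type} [Field k] [NumberField k] (g : (𝓞 k)[X]) (hg : g ≠ 0) {n : ℕ}
    (hn : g.natDegree ≤ n) (y : Fin (n + 1) → 𝓞 k) (i : Fin (n + 1)) :
    g.leadingCoeff ^ (n + 1) * y i ∈ (form g y).contentIdeal := by
  refine fm_mem g y _ (fun j => ?_) i
  rw [← form_eq]
  exact coeff_mem_contentIdeal _ _

theorem form_smul {k : Type} [Field k] [NumberField k] (g : (𝓞 k)[X]) (hg : g ≠ 0) {n : ℕ}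
    (hn : g.natDegree ≤ n) (y y' : Fin (n + 1) → 𝓞 k) (c : k)
    (h : (form g y').map (algebraMap (𝓞 k) k) = C c * (form g y).map (algebraMap (𝓞 k) k)) :
    ∀ i, (y' i : k) = c * y i := by
  have hinj : Function.Injective (algebraMap (𝓞 k) k) := RingOfIntegers.coe_injective
  set G : k[X] := g.map (algebraMap (𝓞 k) k) with hG
  have hGd : G.natDegree = g.natDegree := natDegree_map_eq_of_injective hinj g
  have hbs : ∀ i, (bs g i).map (algebraMap (𝓞 k) k) = bs G i := by
    intro i
    unfold bs
    rw [hGd]
    split_ifs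
    · simp
    · simp [hG]
  have hfm : ∀ z : Fin (n + 1) → 𝓞 k, (form g z).map (algebraMap (𝓞 k) k) =
      fm G fun i => (z i : k) := by
    intro z
    rw [form_eq]
    unfold fm
    rw [Polynomial.map_sum]
    refine Finset.sum_congr rfl fun i _ => ?_
    rw [Polynomial.map_mul, map_C, hbs]
  rw [hfm, hfm] at h
  have h1 : fm G (fun i => (y' i : k) - c * y i) = 0 := by
    have h2 : fm G (fun i => (y' i : k) - c * y i) = fm G (fun i => (y' i : k)) -
        C c * fm G (fun i => (y i : k)) := by
      unfold fm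
      rw [Finset.mul_sum, ← Finset.sum_sub_distrib]
      refine Finset.sum_congr rfl fun i _ => ?_
      rw [C_sub, C_mul]
      ring
    rw [h2, h, sub_self]
  intro i
  have h2 := fm_mem G (fun i => (y' i : k) - c * y i) ⊥ (fun j => by rw [h1]; simp) i
  rw [Ideal.mem_bot] at h2
  have h3 : G.leadingCoeff ≠ 0 := by
    rw [leadingCoeff_ne_zero, hG]
    exact (Polynomial.map_ne_zero_iff hinj).mpr hg
  rcases mul_eq_zero.mp h2 with h4 | h4
  · exact absurd h4 (pow_ne_zero _ h3)
  · exact sub_eq_zero.mp h4

theorem card_sm (e q n : ℕ) (hq : q = e ∨ q = e + 1) (hn : q ≤ n) :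
    (sm e q n).card = q ∧ top e q n ∉ sm e q n := by
  constructor
  · rw [← Finset.card_map Fin.valEmbedding]
    rcases hq with rfl | rfl
    · have h1 : (sm q q n).map Fin.valEmbedding = Finset.range q := by
        ext j
        simp only [sm, Finset.mem_map, Finset.mem_filter, Finset.mem_univ, true_and,
          Fin.valEmbedding_apply, Finset.mem_range]
        constructor
        · rintro ⟨i, h | h, rfl⟩
          · exact h
          · omega
        · intro h
          exact ⟨⟨j, by omega⟩, Or.inl h, rfl⟩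
      rw [h1, Finset.card_range]
    · have h1 : (sm e (e + 1) n).map Fin.valEmbedding = insert n (Finset.range e) := by
        ext j
        simp only [sm, Finset.mem_map, Finset.mem_filter, Finset.mem_univ, true_and,
          Fin.valEmbedding_apply, Finset.mem_insert, Finset.mem_range]
        constructor
        · rintro ⟨i, h | h, rfl⟩
          · exact Or.inr h
          · exact Or.inl h.1
        · rintro (h | h)
          · exact ⟨⟨n, by omega⟩, Or.inr ⟨rfl, trivial⟩, h.symm⟩
          · exact ⟨⟨j, by omega⟩, Or.inl h, rfl⟩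
      rw [h1, Finset.card_insert_of_notMem, Finset.card_range]
      rw [Finset.mem_range]
      omega
  · intro h
    simp only [sm, top, Finset.mem_filter, Finset.mem_univ, true_and] at h
    omega

end Pool.Agent.AAL
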