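import Mathlib
import Pool.Agent.AAL.Defs
import Pool.Agent.AA.Cell
import Pool.Agent.AAL.FormAlg

/-!
# The fibres of the map from the boxes to the forms up to scalars
-/

set_option autoImplicit false

open Polynomial NumberField IntermediateField Module Pool.Agent.AA

namespace Pool.Agent.AAL

/-- a scalar multiplying all coefficients into the ring of integers multiplies the content ideal
into the ring of integers -/
private theorem int_of_content {k : Type} [Field k] [NumberField k] (f f' : (𝓞 k)[X]) (c : k)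
    (h : f'.map (algebraMap (𝓞 k) k) = C c * f.map (algebraMap (𝓞 k) k)) (b : 𝓞 k)
    (hb : b ∈ f.contentIdeal) :
    ∃ z : 𝓞 k, algebraMap (𝓞 k) k z = algebraMap (𝓞 k) k b * c := by
  unfold Polynomial.contentIdeal at hb
  induction hb using Submodule.span_induction with
  | mem x hx =>
    rw [Finset.mem_coe, Polynomial.mem_coeffs_iff] at hx
    obtain ⟨i, _, rfl⟩ := hx
    refine ⟨f'.coeff i, ?_⟩
    have := congrArg (fun p => p.coeff i) h
    simp only [coeff_map, coeff_C_mul] at this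
    rw [this, mul_comm]
  | zero => exact ⟨0, by simp⟩
  | add x y _ _ hx hy =>
    obtain ⟨z, hz⟩ := hx
    obtain ⟨z', hz'⟩ := hy
    exact ⟨z + z', by rw [map_add, map_add, hz, hz', add_mul]⟩
  | smul a x _ hx =>
    obtain ⟨z, hz⟩ := hx
    exact ⟨a * z, by rw [smul_eq_mul, map_mul, map_mul, hz, mul_assoc]⟩

theorem fibre_le (k : Type) [Field k] [NumberField k] (g : (𝓞 k)[X]) (hg : g ≠ 0) {n : ℕ}
    (hn : g.natDegree ≤ n) (Y : ℕ) : ∃ N : ℕ, ∀ (T : Finset (Fin (n + 1))) (i₀ : Fin (n + 1))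
      (l : ℕ) (y₀ : Fin (n + 1) → 𝓞 k) (a R : ℝ), 0 < R → ∀ y ∈ box T i₀ l y₀ a R, i₀ ∉ T →
      Ideal.absNorm (form g y).contentIdeal ≤ Y →
      {y' ∈ box T i₀ l y₀ a R | ∃ c : k, (form g y').map (algebraMap (𝓞 k) k) =
        C c * (form g y).map (algebraMap (𝓞 k) k)}.ncard ≤ N := by
  refine ⟨(small k (2 * Y + 1)).ncard, fun T i₀ l y₀ a R hR y hy hi₀ hY => ?_⟩
  have hy0 : y i₀ ≠ 0 := by
    intro h
    obtain ⟨w⟩ : Nonempty (InfinitePlace k) := inferInstance
    have h1 := hy.2.2 w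
    rw [h, RingOfIntegers.coe_eq_algebraMap, map_zero, map_zero] at h1
    linarith
  have hcont : (form g y).contentIdeal ≠ ⊥ := by
    intro h
    have h1 := mem_content g hg hn y i₀
    rw [h, Ideal.mem_bot] at h1
    rcases mul_eq_zero.1 h1 with h2 | h2
    · exact hg (leadingCoeff_eq_zero.1 (pow_eq_zero_iff (Nat.succ_ne_zero n) |>.1 h2))
    · exact hy0 h2
  set M : ℕ := Ideal.absNorm (form g y).contentIdeal with hM
  have hM0 : M ≠ 0 := fun h => hcont (Ideal.absNorm_eq_zero_iff.1 h)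
  have key : ∀ y' ∈ {y' ∈ box T i₀ l y₀ a R | ∃ c : k, (form g y').map (algebraMap (𝓞 k) k) =
      C c * (form g y).map (algebraMap (𝓞 k) k)}, ∃ z ∈ small k (2 * Y + 1),
      ∀ i, (M : k) * (y' i : k) = (z : k) * (y i : k) := by
    rintro y' ⟨hy', c, hc⟩
    have h1 := form_smul g hg hn y y' c hc
    obtain ⟨z, hz⟩ := int_of_content _ _ c hc (M : 𝓞 k) (Ideal.absNorm_mem _)
    refine ⟨z, fun w => ?_, fun i => ?_⟩
    · rw [RingOfIntegers.coe_eq_algebraMap]
      have hw0 : 0 < w (y i₀ : k) := lt_of_lt_of_le (by positivity) (hy.2.2 w)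
      have hwc : w c ≤ 2 := by
        have h2 := h1 i₀
        have h3 : w (y' i₀ : k) = w c * w (y i₀ : k) := by rw [h2, map_mul]
        have h4 := hy'.2.1 i₀ w
        rw [if_neg hi₀, h3] at h4
        have h5 := hy.2.2 w
        by_contra h6
        push Not at h6
        nlinarith
      have h7 : w (algebraMap (𝓞 k) k (M : 𝓞 k)) = M := by
        rw [map_natCast]
        exact InfinitePlace.map_natCast w M
      rw [hz, map_mul, h7]
      have h8 : (M : ℝ) ≤ Y := by exact_mod_cast hY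
      have h9 : (0 : ℝ) ≤ M := Nat.cast_nonneg M
      have h10 : 0 ≤ w c := apply_nonneg w c
      nlinarith
    · rw [RingOfIntegers.coe_eq_algebraMap z, hz, h1 i, map_natCast]
      ring
  choose! φ hφ using key
  refine Set.ncard_le_ncard_of_injOn φ (fun y' hy' => (hφ y' hy').1) ?_ (small_finite k _)
  intro u hu v hv huv
  funext i
  apply RingOfIntegers.ext
  have h1 := (hφ u hu).2 i
  have h2 := (hφ v hv).2 i
  rw [huv, ← h2] at h1
  exact mul_left_cancel₀ (Nat.cast_ne_zero.2 hM0) h1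

end Pool.Agent.AAL
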