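import Pool.Agent.AAL.Defs

/-!
# Values and coefficients of the forms
-/

set_option autoImplicit false

open Polynomial NumberField IntermediateField Module

namespace Pool.Agent.AAL

theorem eval_form {k : Type} [Field k] [NumberField k] (g : (𝓞 k)[X]) {n : ℕ}
    (y : Fin (n + 1) → 𝓞 k) {A : Type} [Field A] (ρ : k →+* A) (α : A)
    (hα : (g.map (ρ.comp (algebraMap (𝓞 k) k))).eval α = 0) :
    ((form g y).map (ρ.comp (algebraMap (𝓞 k) k))).eval α =
      ∑ i : Fin (n + 1), if (i : ℕ) < g.natDegree then ρ (y i : k) * α ^ (i : ℕ) else 0 := by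
  unfold form
  rw [Polynomial.map_sum, eval_finsetSum]
  refine Finset.sum_congr rfl fun i _ => ?_
  split_ifs with h
  · simp
  · simp [hα]

private theorem coeff_form {k : Type} [Field k] [NumberField k] (g : (𝓞 k)[X]) {n : ℕ}
    (y : Fin (n + 1) → 𝓞 k) (j : ℕ) :
    (form g y).coeff j = ∑ i : Fin (n + 1), y i *
      ((if (i : ℕ) < g.natDegree then X ^ (i : ℕ) else g * X ^ ((i : ℕ) - g.natDegree) :
        (𝓞 k)[X]).coeff j) := by
  unfold form
  rw [finsetSum_coeff]
  exact Finset.sum_congr rfl fun i _ => coeff_C_mul _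

private theorem c_mul {k : Type} [Field k] [NumberField k] (a b : 𝓞 k) :
    ((a * b : 𝓞 k) : k) = a * b := map_mul (algebraMap (𝓞 k) k) a b

private theorem c_add {k : Type} [Field k] [NumberField k] (a b : 𝓞 k) :
    ((a + b : 𝓞 k) : k) = a + b := map_add (algebraMap (𝓞 k) k) a b

private theorem c_sum {k : Type} [Field k] [NumberField k] {J : Type*} (S : Finset J)
    (f : J → 𝓞 k) : ((∑ j ∈ S, f j : 𝓞 k) : k) = ∑ j ∈ S, (f j : k) :=
  map_sum (algebraMap (𝓞 k) k) f S

/-- bounds for the coefficients of `g` -/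
private theorem exists_bd {k : Type} [Field k] [NumberField k] (g : (𝓞 k)[X]) :
    ∃ B : ℝ, 1 ≤ B ∧ ∀ (j : ℕ) (ρ : k →+* ℂ), ‖ρ (g.coeff j : k)‖ ≤ B := by
  refine ⟨1 + ∑ ρ : k →+* ℂ, ∑ j ∈ Finset.range (g.natDegree + 1), ‖ρ (g.coeff j : k)‖, ?_, ?_⟩
  · have : 0 ≤ ∑ ρ : k →+* ℂ, ∑ j ∈ Finset.range (g.natDegree + 1), ‖ρ (g.coeff j : k)‖ :=
      Finset.sum_nonneg fun _ _ => Finset.sum_nonneg fun _ _ => norm_nonneg _
    linarith
  · intro j ρ
    have h0 : 0 ≤ ∑ ρ : k →+* ℂ, ∑ j ∈ Finset.range (g.natDegree + 1), ‖ρ (g.coeff j : k)‖ :=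
      Finset.sum_nonneg fun _ _ => Finset.sum_nonneg fun _ _ => norm_nonneg _
    by_cases hj : j ≤ g.natDegree
    · have h1 : ‖ρ (g.coeff j : k)‖ ≤
          ∑ j ∈ Finset.range (g.natDegree + 1), ‖ρ (g.coeff j : k)‖ :=
        Finset.single_le_sum (f := fun j => ‖ρ (g.coeff j : k)‖) (fun _ _ => norm_nonneg _)
          (Finset.mem_range.2 (by omega))
      have h2 : ∑ j ∈ Finset.range (g.natDegree + 1), ‖ρ (g.coeff j : k)‖ ≤
          ∑ ρ : k →+* ℂ, ∑ j ∈ Finset.range (g.natDegree + 1), ‖ρ (g.coeff j : k)‖ :=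
        Finset.single_le_sum
          (f := fun ρ : k →+* ℂ => ∑ j ∈ Finset.range (g.natDegree + 1), ‖ρ (g.coeff j : k)‖)
          (fun _ _ => Finset.sum_nonneg fun _ _ => norm_nonneg _) (Finset.mem_univ ρ)
      linarith
    · rw [coeff_eq_zero_of_natDegree_lt (not_le.1 hj)]
      simp only [map_zero, norm_zero]
      linarith

/-- bounds for the coefficients -/
theorem coeff_form_le {k : Type} [Field k] [NumberField k] (g : (𝓞 k)[X]) (n : ℕ) :
    ∃ C : ℝ, 1 ≤ C ∧ ∀ (y : Fin (n + 1) → 𝓞 k) (R : ℝ), 0 ≤ R →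
      (∀ i, ∀ w : InfinitePlace k, w (y i : k) ≤ R) →
      ∀ (i : ℕ) (ρ : k →+* ℂ), ‖ρ ((form g y).coeff i : k)‖ ≤ C * R := by
  obtain ⟨B, hB, hgB⟩ := exists_bd g
  refine ⟨(n + 1) * B, ?_, ?_⟩
  · have : (0 : ℝ) ≤ n := Nat.cast_nonneg n
    nlinarith
  intro y R hR hy j ρ
  rw [coeff_form]
  have h1 : ∀ i : Fin (n + 1), ‖ρ ((((y i *
      ((if (i : ℕ) < g.natDegree then X ^ (i : ℕ) else g * X ^ ((i : ℕ) - g.natDegree) :
        (𝓞 k)[X]).coeff j)) : 𝓞 k) : k))‖ ≤ B * R := by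
    intro i
    have h2 : ‖ρ (y i : k)‖ ≤ R := hy i (InfinitePlace.mk ρ)
    have h3 : ‖ρ ((((if (i : ℕ) < g.natDegree then X ^ (i : ℕ) else
        g * X ^ ((i : ℕ) - g.natDegree) : (𝓞 k)[X]).coeff j : 𝓞 k) : k))‖ ≤ B := by
      split_ifs with h
      · rw [coeff_X_pow]
        split_ifs with h4
        · simpa using hB
        · simp only [map_zero, norm_zero]
          linarith
      · rw [coeff_mul_X_pow']
        split_ifs with h4
        · exact hgB _ ρ
        · simp only [map_zero, norm_zero]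
          linarith
    rw [c_mul, map_mul, norm_mul, mul_comm B R]
    exact mul_le_mul h2 h3 (norm_nonneg _) hR
  rw [c_sum, map_sum]
  refine (norm_sum_le _ _).trans ((Finset.sum_le_sum fun i _ => h1 i).trans ?_)
  rw [Finset.sum_const, Finset.card_univ, Fintype.card_fin, nsmul_eq_mul]
  push_cast
  rw [mul_assoc]

/-- the coefficient which is large at all places -/
theorem le_coeff_form {k : Type} [Field k] [NumberField k] (g : (𝓞 k)[X]) (hg : g ≠ 0) (n q : ℕ)
    (hq : q = g.natDegree ∨ q = g.natDegree + 1) (hn : q ≤ n) (l : ℕ)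
    (y₀ : Fin (n + 1) → 𝓞 k) (a : ℝ) (ha0 : 0 < a) (ha1 : a < 1) :
    ∃ c R₀ : ℝ, 0 < c ∧ 1 ≤ R₀ ∧ ∀ R : ℝ, R₀ ≤ R →
      ∀ y ∈ box (sm g.natDegree q n) (top g.natDegree q n) l y₀ a R, ∀ ρ : k →+* ℂ,
        c * R ≤ ‖ρ ((form g y).coeff (n - (q - g.natDegree)) : k)‖ := by
  classical
  obtain ⟨B, hB, hgB⟩ := exists_bd g
  have hlc : ∀ ρ : k →+* ℂ, 0 < ‖ρ (g.leadingCoeff : k)‖ := by
    intro ρ
    rw [norm_pos_iff, _root_.map_ne_zero]
    exact RingOfIntegers.coe_ne_zero_iff.2 (leadingCoeff_ne_zero.2 hg)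
  -- the minimum of the absolute values of the leading coefficient
  obtain ⟨b, hb0, hb⟩ : ∃ b : ℝ, 0 < b ∧ ∀ ρ : k →+* ℂ, b ≤ ‖ρ (g.leadingCoeff : k)‖ := by
    have hne : (Finset.univ : Finset (k →+* ℂ)).Nonempty :=
      Finset.univ_nonempty
    obtain ⟨ρ₀, -, hρ₀⟩ := Finset.exists_min_image Finset.univ
      (fun ρ : k →+* ℂ => ‖ρ (g.leadingCoeff : k)‖) hne
    exact ⟨_, hlc ρ₀, fun ρ => hρ₀ ρ (Finset.mem_univ ρ)⟩
  -- the growth of `R ^ (1 - a)`
  obtain ⟨R₀, hR₀1, hR₀⟩ : ∃ R₀ : ℝ, 1 ≤ R₀ ∧ ∀ R : ℝ, R₀ ≤ R → B * R ^ a ≤ b / 4 * R := by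
    have h1 := (tendsto_rpow_atTop (show 0 < 1 - a by linarith)).eventually_ge_atTop (4 * B / b)
    obtain ⟨R₁, hR₁⟩ := Filter.eventually_atTop.1 h1
    refine ⟨max 1 R₁, le_max_left _ _, fun R hR => ?_⟩
    have hR1 : 1 ≤ R := (le_max_left _ _).trans hR
    have hR0 : 0 < R := by linarith
    have h2 := hR₁ R ((le_max_right _ _).trans hR)
    rw [div_le_iff₀ hb0] at h2
    have h3 : R ^ (1 - a) * R ^ a = R := by
      rw [← Real.rpow_add hR0]
      simp
    have h4 : 0 < R ^ a := Real.rpow_pos_of_pos hR0 a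
    calc B * R ^ a = (4 * B) * R ^ a / 4 := by ring
      _ ≤ (R ^ (1 - a) * b) * R ^ a / 4 := by gcongr
      _ = b / 4 * (R ^ (1 - a) * R ^ a) := by ring
      _ = b / 4 * R := by rw [h3]
  refine ⟨b / 4, R₀, by positivity, hR₀1, fun R hR y hy ρ => ?_⟩
  have hR1 : 1 ≤ R := hR₀1.trans hR
  obtain ⟨-, hy1, hy2⟩ := hy
  have htop : R / 2 ≤ ‖ρ (y (top g.natDegree q n) : k)‖ := hy2 (InfinitePlace.mk ρ)
  rw [coeff_form]
  set e := g.natDegree with he
  have hlcg : g.coeff e = g.leadingCoeff := rfl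
  rcases hq with rfl | rfl
  · -- `q = e`
    have h1 : ∑ i : Fin (n + 1), y i * ((if (i : ℕ) < e then X ^ (i : ℕ) else
        g * X ^ ((i : ℕ) - e) : (𝓞 k)[X]).coeff (n - (e - e))) =
        y (top e e n) * g.leadingCoeff := by
      rw [Finset.sum_eq_single (top e e n)]
      · have h2 : ((top e e n : Fin (n + 1)) : ℕ) = n := by simp [top]
        rw [h2, if_neg (by omega), coeff_mul_X_pow', if_pos (by omega)]
        congr 1
        rw [← hlcg]
        congr 1
        omega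
      · intro i _ hi
        have h2 : (i : ℕ) ≠ n := by
          intro h
          apply hi
          apply Fin.ext
          simp [top, h]
        have h3 : (i : ℕ) < n := by have := i.2; omega
        have h4 : ((if (i : ℕ) < e then X ^ (i : ℕ) else
            g * X ^ ((i : ℕ) - e) : (𝓞 k)[X]).coeff (n - (e - e))) = 0 := by
          split_ifs with h
          · rw [coeff_X_pow, if_neg (by omega)]
          · rw [coeff_mul_X_pow', if_pos (by omega)]
            exact coeff_eq_zero_of_natDegree_lt (by omega)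
        rw [h4, mul_zero]
      · intro h
        exact absurd (Finset.mem_univ _) h
    rw [h1, c_mul, map_mul, norm_mul]
    have h2 := hb ρ
    have h3 : R / 2 * b ≤ ‖ρ (y (top e e n) : k)‖ * ‖ρ (g.leadingCoeff : k)‖ :=
      mul_le_mul htop h2 hb0.le (norm_nonneg _)
    nlinarith
  · -- `q = e + 1`
    have hj : n - (e + 1 - e) = n - 1 := by omega
    have ht : ((top e (e + 1) n : Fin (n + 1)) : ℕ) = n - 1 := by simp [top]
    rw [hj]
    have h1 : ∑ i : Fin (n + 1), y i * ((if (i : ℕ) < e then X ^ (i : ℕ) else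
        g * X ^ ((i : ℕ) - e) : (𝓞 k)[X]).coeff (n - 1)) =
        y (top e (e + 1) n) * g.leadingCoeff +
          y (Fin.last n) * (if 1 ≤ e then g.coeff (e - 1) else 0) := by
      have hne : top e (e + 1) n ≠ Fin.last n := by
        intro h
        have := congrArg Fin.val h
        rw [ht, Fin.val_last] at this
        omega
      rw [← Finset.sum_subset (Finset.subset_univ {top e (e + 1) n, Fin.last n}),
        Finset.sum_pair hne]
      · congr 1
        · rw [ht, if_neg (by omega), coeff_mul_X_pow', if_pos (by omega)]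
          congr 1
          rw [← hlcg]
          congr 1
          omega
        · rw [Fin.val_last, if_neg (by omega), coeff_mul_X_pow']
          congr 1
          split_ifs with h2 h3 h3
          · congr 1
            omega
          · omega
          · omega
          · rfl
      · intro i _ hi
        rw [Finset.mem_insert, Finset.mem_singleton, not_or] at hi
        have h2 : (i : ℕ) ≠ n := fun h => hi.2 (Fin.ext (by rw [h, Fin.val_last]))
        have h3 : (i : ℕ) ≠ n - 1 := fun h => hi.1 (Fin.ext (by rw [h, ht]))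
        have h4 : (i : ℕ) < n - 1 := by have := i.2; omega
        have h5 : ((if (i : ℕ) < e then X ^ (i : ℕ) else
            g * X ^ ((i : ℕ) - e) : (𝓞 k)[X]).coeff (n - 1)) = 0 := by
          split_ifs with h
          · rw [coeff_X_pow, if_neg (by omega)]
          · rw [coeff_mul_X_pow', if_pos (by omega)]
            exact coeff_eq_zero_of_natDegree_lt (by omega)
        rw [h5, mul_zero]
    rw [h1, c_add, map_add, c_mul, map_mul, c_mul, map_mul]
    have hlast : ‖ρ (y (Fin.last n) : k)‖ ≤ R ^ a := by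
      have h2 := hy1 (Fin.last n) (InfinitePlace.mk ρ)
      rw [if_pos] at h2
      · exact h2
      · unfold sm
        rw [Finset.mem_filter]
        exact ⟨Finset.mem_univ _, Or.inr ⟨Fin.val_last n, rfl⟩⟩
    have h2 : ‖ρ (((if 1 ≤ e then g.coeff (e - 1) else 0 : 𝓞 k)) : k)‖ ≤ B := by
      split_ifs with h
      · exact hgB _ ρ
      · simp only [map_zero, norm_zero]
        linarith
    have h3 : R / 2 * b ≤ ‖ρ (y (top e (e + 1) n) : k) * ρ (g.leadingCoeff : k)‖ := by
      rw [norm_mul]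
      exact mul_le_mul htop (hb ρ) hb0.le (norm_nonneg _)
    have hRa : 0 ≤ R ^ a := Real.rpow_nonneg (by linarith) a
    have h4 : ‖ρ (y (Fin.last n) : k) *
        ρ (((if 1 ≤ e then g.coeff (e - 1) else 0 : 𝓞 k)) : k)‖ ≤ R ^ a * B := by
      rw [norm_mul]
      exact mul_le_mul hlast h2 (norm_nonneg _) hRa
    have h5 := hR₀ R hR
    have h6 := norm_sub_le_norm_add (ρ (y (top e (e + 1) n) : k) * ρ (g.leadingCoeff : k))
      (ρ (y (Fin.last n) : k) * ρ (((if 1 ≤ e then g.coeff (e - 1) else 0 : 𝓞 k)) : k))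
    refine le_trans ?_ h6
    nlinarith

end Pool.Agent.AAL
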