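import Pool.Agent.AAL.Defs
import Pool.Agent.AA.ProdF
import Pool.Agent.AA.Link

/-!
# The height is at most the Mahler measure
-/

set_option autoImplicit false

open Polynomial NumberField IntermediateField Module Pool.Agent.AA

namespace Pool.Agent.AAL

/-- the height by the denominator -/
private theorem height_eq {K : Type} [Field K] [NumberField K] (x : K) :
    ∃ (c a : 𝓞 K) (J : Ideal (𝓞 K)), a ≠ 0 ∧ (c : K) = (a : K) * x ∧
      Ideal.span {a} = Ideal.span {c, a} * J ∧ J ≠ ⊥ ∧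
      Height.mulHeight₁ x = (Ideal.absNorm J : ℝ) * ∏ σ : K →+* ℂ, max 1 ‖σ x‖ := by
  obtain ⟨c, a, ha, hxca⟩ := IsFractionRing.div_surjective (𝓞 K) x
  have ha0 : a ≠ 0 := nonZeroDivisors.ne_zero ha
  have haK : (a : K) ≠ 0 := by
    intro h
    exact ha0 (by exact_mod_cast h)
  have hcK : (c : K) = (a : K) * x := by
    rw [← hxca]
    exact (mul_div_cancel₀ _ haK).symm
  have hdvd : Ideal.span {c, a} ∣ Ideal.span {a} := by
    rw [Ideal.dvd_iff_le, Ideal.span_singleton_le_iff_mem]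
    exact Ideal.subset_span (by simp)
  obtain ⟨J, hJ⟩ := hdvd
  have hane : Ideal.span {a} ≠ ⊥ := by
    rw [Ne, Ideal.span_singleton_eq_bot]
    exact ha0
  have hJ0 : J ≠ ⊥ := by
    rintro rfl
    apply hane
    rw [hJ, Ideal.mul_bot]
  refine ⟨c, a, J, ha0, hcK, hJ, hJ0, ?_⟩
  have h2 : (Ideal.absNorm (Ideal.span {c, a}) : ℝ) * Ideal.absNorm J =
      ∏ σ : K →+* ℂ, ‖σ (a : K)‖ := by
    rw [← Nat.cast_mul, ← map_mul, ← hJ, Ideal.absNorm_span_singleton]
    have h3 := InfinitePlace.prod_eq_abs_norm (a : K)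
    rw [RefW.denIdeal_prod_infinite K (fun v => v (a : K))] at h3
    simp only [InfinitePlace.apply] at h3
    rw [h3, ← Algebra.coe_norm_int]
    push_cast
    rw [Nat.cast_natAbs, Int.cast_abs]
  have hne : (![c, a] : Fin 2 → 𝓞 K) ≠ 0 := fun h => ha0 (congrFun h 1)
  have hne' : (![(c : K), (a : K)] : Fin 2 → K) ≠ 0 := fun h => haK (congrFun h 1)
  have hfin := absNorm_mul_finprod_finitePlace_eq_one hne
  have hrange : Set.range ![c, a] = {c, a} := by
    simp [Matrix.range_cons, Matrix.range_empty, Set.pair_comm]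
  have hcoe : (fun i => ((![c, a] i : 𝓞 K) : K)) = ![(c : K), (a : K)] := by
    funext i
    fin_cases i <;> rfl
  have hfin' : (Ideal.absNorm (Ideal.span {c, a}) : ℝ) *
      ∏ᶠ v : FinitePlace K, ⨆ i, v (![(c : K), (a : K)] i) = 1 := by
    rw [← hcoe, ← hrange]
    exact hfin
  have hH : Height.mulHeight₁ x = Height.mulHeight ![(c : K), (a : K)] := by
    rw [← Height.mulHeight₁_div_eq_mulHeight, hcK, mul_div_cancel_left₀ _ haK]
  rw [mulHeight_eq hne'] at hH
  have hsup : ∀ v : InfinitePlace K, (⨆ i, v (![(c : K), (a : K)] i)) =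
      v (a : K) * max 1 (v x) := by
    intro v
    have h1 : (⨆ i, v (![(c : K), (a : K)] i)) = max (v (c : K)) (v (a : K)) := by
      refine le_antisymm (ciSup_le fun i => ?_) ?_
      · fin_cases i
        · exact le_max_left _ _
        · exact le_max_right _ _
      · have hbd : BddAbove (Set.range fun i => v (![(c : K), (a : K)] i)) :=
          Set.Finite.bddAbove (Set.finite_range _)
        exact max_le (le_ciSup hbd 0) (le_ciSup hbd 1)
    rw [h1, hcK, map_mul, mul_max_of_nonneg _ _ (apply_nonneg v (a : K)), mul_one, max_comm]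
  have hP : ∏ v : InfinitePlace K, (⨆ i, v (![(c : K), (a : K)] i)) ^ v.mult =
      (∏ σ : K →+* ℂ, ‖σ (a : K)‖) * ∏ σ : K →+* ℂ, max 1 ‖σ x‖ := by
    rw [RefW.denIdeal_prod_infinite K (fun v => ⨆ i, v (![(c : K), (a : K)] i)),
      ← Finset.prod_mul_distrib]
    refine Finset.prod_congr rfl fun σ _ => ?_
    rw [hsup, InfinitePlace.apply, InfinitePlace.apply]
  rw [hH, hP, ← h2]
  set Q : ℝ := ∏ᶠ v : FinitePlace K, ⨆ i, v (![(c : K), (a : K)] i)
  set M : ℝ := ∏ σ : K →+* ℂ, max 1 ‖σ x‖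
  linear_combination (Ideal.absNorm J : ℝ) * M * hfin'

/-- the norm of an ideal with two generators at a prime number -/
private theorem norm_pair_le {K : Type} [Field K] [NumberField K] (p : ℕ) [Fact p.Prime]
    (c a : 𝓞 K) : ‖((Ideal.absNorm (Ideal.span {c, a}) : ℤ) : ℂ_[p])‖ ≤
      ∏ σ : K →+* ℂ_[p], max ‖σ (c : K)‖ ‖σ (a : K)‖ := by
  have hQ : 0 ≤ ∏ σ : K →+* ℂ_[p], max ‖σ (c : K)‖ ‖σ (a : K)‖ :=
    Finset.prod_nonneg fun σ _ => le_trans (norm_nonneg _) (le_max_left _ _)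
  refine norm_induction (Ideal.span {c, a})
    (fun m => ‖(m : ℂ_[p])‖ ≤ ∏ σ : K →+* ℂ_[p], max ‖σ (c : K)‖ ‖σ (a : K)‖) ?_ ?_ ?_ ?_
  · simpa using hQ
  · intro s t hs ht
    push_cast
    exact (IsUltrametricDist.norm_add_le_max _ _).trans (max_le hs ht)
  · intro r s hs
    push_cast
    rw [norm_mul]
    have h1 : ‖(r : ℂ_[p])‖ ≤ 1 := by
      rw [padic_norm_int]
      exact Padic.norm_int_le_one r
    calc ‖(r : ℂ_[p])‖ * ‖(s : ℂ_[p])‖ ≤ 1 * ‖(s : ℂ_[p])‖ :=
          mul_le_mul_of_nonneg_right h1 (norm_nonneg _)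
      _ ≤ _ := by rw [one_mul]; exact hs
  · intro z hz
    obtain ⟨u, v, rfl⟩ := Ideal.mem_span_pair.1 hz
    have h1 : ‖((Algebra.norm ℤ (u * c + v * a) : ℤ) : ℂ_[p])‖ =
        ∏ σ : K →+* ℂ_[p], ‖σ ((u * c + v * a : 𝓞 K) : K)‖ :=
      (SST.prodK_norm_prod ℂ_[p] _).symm
    rw [h1]
    refine Finset.prod_le_prod (fun σ _ => norm_nonneg _) fun σ _ => ?_
    have e1 : ((u * c + v * a : 𝓞 K) : K) = (u : K) * (c : K) + (v : K) * (a : K) := rfl
    rw [e1, map_add, map_mul, map_mul]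
    refine (IsUltrametricDist.norm_add_le_max _ _).trans ?_
    rw [norm_mul, norm_mul]
    refine max_le_max ?_ ?_
    · have := RefW.norm_le_one_of_ringOfIntegers p σ u
      exact mul_le_of_le_one_left (norm_nonneg _) this
    · have := RefW.norm_le_one_of_ringOfIntegers p σ v
      exact mul_le_of_le_one_left (norm_nonneg _) this

/-- the function of the coefficients -/
private theorem rootOf {k : Type} [Field k] [NumberField k] (n : ℕ) (F : (𝓞 k)[X])
    (x : AlgebraicClosure k) (hx : finrank k (IntermediateField.adjoin k {x}) = n)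
    (hF : F.natDegree = n) (hFx : aeval x (F.map (algebraMap (𝓞 k) k)) = 0) :
    RefW.RootOf (fun i : Fin (n + 1) => F.coeff i) (IntermediateField.adjoin k {x})
      (AdjoinSimple.gen k x) where
  gen := by
    apply IntermediateField.lift_injective (IntermediateField.adjoin k {x})
    rw [IntermediateField.lift_adjoin_simple, IntermediateField.lift_top,
      AdjoinSimple.coe_gen]
  deg := hx
  root := by
    have h1 : aeval (AdjoinSimple.gen k x) (F.map (algebraMap (𝓞 k) k)) = 0 := by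
      apply (algebraMap (IntermediateField.adjoin k {x}) (AlgebraicClosure k)).injective
      rw [map_zero, ← aeval_algebraMap_apply, AdjoinSimple.algebraMap_gen]
      exact hFx
    rw [aeval_eq_sum_range' (n := n + 1)
      (Nat.lt_succ_of_le ((natDegree_map_le).trans hF.le))] at h1
    rw [← h1, ← Fin.sum_univ_eq_sum_range (fun i => (F.map (algebraMap (𝓞 k) k)).coeff i •
      AdjoinSimple.gen k x ^ i)]
    refine Finset.sum_congr rfl fun i _ => ?_
    rw [coeff_map, Algebra.smul_def]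

/-- the height is at most the Mahler measure -/
theorem relHeight_le {k : Type} [Field k] [NumberField k] (n : ℕ) (F : (𝓞 k)[X])
    (x : AlgebraicClosure k) (hx : finrank k (IntermediateField.adjoin k {x}) = n)
    (hF : F.natDegree = n) (hF0 : F ≠ 0) (hFx : aeval x (F.map (algebraMap (𝓞 k) k)) = 0) :
    relHeight x ≤ Real.exp (lgM ℂ F x) := by
  set K := IntermediateField.adjoin k {x} with hK
  set y : K := AdjoinSimple.gen k x with hy
  have hroot := rootOf n F x hx hF hFx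
  have hlc : F.coeff n = F.leadingCoeff := by rw [leadingCoeff, hF]
  have hlc0 : F.leadingCoeff ≠ 0 := leadingCoeff_ne_zero.2 hF0
  have hG0 : (fun i : Fin (n + 1) => F.coeff i) ≠ 0 := by
    intro h
    apply hlc0
    rw [← hlc]
    exact congrFun h (Fin.last n)
  obtain ⟨c, a, J, ha0, hca, hJ, hJ0, hH⟩ := height_eq y
  have haK : (a : K) ≠ 0 := by
    intro h
    exact ha0 (by exact_mod_cast h)
  set m : ℕ := Ideal.absNorm J with hm
  set N : ℤ := Algebra.norm ℤ F.leadingCoeff with hN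
  have hN0 : N ≠ 0 := Algebra.norm_ne_zero_iff.2 hlc0
  have key : ∀ (p : ℕ) [Fact p.Prime], ‖(N : ℚ_[p])‖ ≤ ‖((m : ℤ) : ℚ_[p])‖ := by
    intro p _
    have h1 := link_padic hG0 hroot p
    simp only [Fin.val_last, hlc] at h1
    have h2 := norm_pair_le p c a
    have h3 : ∏ σ : K →+* ℂ_[p], max ‖σ (c : K)‖ ‖σ (a : K)‖ =
        (∏ σ : K →+* ℂ_[p], ‖σ (a : K)‖) * ∏ σ : K →+* ℂ_[p], max 1 ‖σ y‖ := by
      rw [← Finset.prod_mul_distrib]
      refine Finset.prod_congr rfl fun σ _ => ?_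
      rw [hca, map_mul, norm_mul, mul_max_of_nonneg _ _ (norm_nonneg _), mul_one, max_comm]
    have h4 : ∏ σ : K →+* ℂ_[p], ‖σ (a : K)‖ =
        ‖((Ideal.absNorm (Ideal.span {c, a}) : ℤ) : ℂ_[p])‖ * ‖((m : ℤ) : ℂ_[p])‖ := by
      rw [SST.prodK_norm_prod ℂ_[p] a, ← norm_mul, ← Int.cast_mul, ← Nat.cast_mul, hm,
        ← map_mul, ← hJ, Ideal.absNorm_span_singleton]
      rw [padic_norm_int, padic_norm_int]
      rcases Int.natAbs_eq (Algebra.norm ℤ a) with h | h
      · rw [← h]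
      · conv_lhs => rw [h]
        rw [Int.cast_neg, norm_neg]
    have h5 : ∏ ρ : k →+* ℂ_[p], ‖ρ (F.leadingCoeff : k)‖ = ‖(N : ℂ_[p])‖ :=
      SST.prodK_norm_prod ℂ_[p] F.leadingCoeff
    rw [h5] at h1
    rw [h3] at h2
    set A := ∏ σ : K →+* ℂ_[p], ‖σ (a : K)‖ with hA
    set M := ∏ σ : K →+* ℂ_[p], max 1 ‖σ y‖ with hM
    have hApos : 0 < A := Finset.prod_pos fun σ _ => by
      rw [norm_pos_iff, Ne, map_eq_zero]
      exact haK
    have hm0 : 0 ≤ ‖((m : ℤ) : ℂ_[p])‖ := norm_nonneg _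
    -- `1 ≤ M ‖m‖`
    have h6 : 1 ≤ M * ‖((m : ℤ) : ℂ_[p])‖ := by
      have h7 : A ≤ A * M * ‖((m : ℤ) : ℂ_[p])‖ := by
        calc A = _ := h4
          _ ≤ A * M * ‖((m : ℤ) : ℂ_[p])‖ := mul_le_mul_of_nonneg_right h2 hm0
      rw [mul_assoc] at h7
      exact (le_mul_iff_one_le_right hApos).1 h7
    rw [← padic_norm_int, ← padic_norm_int]
    calc ‖(N : ℂ_[p])‖ = ‖(N : ℂ_[p])‖ * 1 := (mul_one _).symm
      _ ≤ ‖(N : ℂ_[p])‖ * (M * ‖((m : ℤ) : ℂ_[p])‖) :=
        mul_le_mul_of_nonneg_left h6 (norm_nonneg _)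
      _ = (‖(N : ℂ_[p])‖ * M) * ‖((m : ℤ) : ℂ_[p])‖ := by ring
      _ ≤ 1 * ‖((m : ℤ) : ℂ_[p])‖ := mul_le_mul_of_nonneg_right h1 hm0
      _ = ‖((m : ℤ) : ℂ_[p])‖ := one_mul _
  have hdvd : m ∣ N.natAbs := by
    rw [Nat.dvd_iff_prime_pow_dvd_dvd]
    intro p e hp hpe
    haveI : Fact p.Prime := ⟨hp⟩
    have h1 : ‖((m : ℤ) : ℚ_[p])‖ ≤ (p : ℝ) ^ (-e : ℤ) := by
      rw [Padic.norm_int_le_pow_iff_dvd]
      exact_mod_cast hpe
    have h2 := (key p).trans h1
    rw [Padic.norm_int_le_pow_iff_dvd] at h2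
    exact Int.natCast_dvd.1 (by exact_mod_cast h2)
  have hle : m ≤ N.natAbs := Nat.le_of_dvd (Int.natAbs_pos.2 hN0) hdvd
  have hcomplex : ∏ ρ : k →+* ℂ, ‖ρ (F.leadingCoeff : k)‖ = (N.natAbs : ℝ) := by
    rw [SST.prodK_norm_prod ℂ F.leadingCoeff, Complex.norm_intCast, Nat.cast_natAbs, Int.cast_abs]
  have hexp : Real.exp (lgM ℂ F x) = (∏ ρ : k →+* ℂ, ‖ρ (F.leadingCoeff : k)‖) *
      ∏ σ : K →+* ℂ, max 1 ‖σ y‖ := by
    rw [lgM, Real.exp_add, Real.exp_sum, Real.exp_sum]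
    congr 1
    · refine Finset.prod_congr rfl fun ρ _ => Real.exp_log ?_
      rw [norm_pos_iff, Ne, map_eq_zero]
      intro h
      exact hlc0 (RingOfIntegers.ext h)
    · exact Finset.prod_congr rfl fun σ _ =>
        Real.exp_log (lt_of_lt_of_le one_pos (le_max_left _ _))
  rw [hexp, hcomplex]
  unfold relHeight
  rw [hH]
  refine mul_le_mul_of_nonneg_right (by exact_mod_cast hle) ?_
  exact Finset.prod_nonneg fun σ _ => le_trans zero_le_one (le_max_left _ _)

end Pool.Agent.AAL
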