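import Mathlib
import Pool.Agent.AAL.Defs

/-!
# Irreducible polynomials of the family by a congruence
-/

set_option autoImplicit false

open Polynomial NumberField IntermediateField Module

namespace Pool.Agent.AAL

/-- scaling of the zeros -/
private noncomputable def scaleEquiv {K : Type} [Field K] (a : K) (ha : a ≠ 0) :
    K[X] ≃* K[X] where
  toFun p := p.scaleRoots a
  invFun p := p.scaleRoots a⁻¹
  left_inv p := by
    change (p.scaleRoots a).scaleRoots a⁻¹ = p
    rw [← scaleRoots_mul, mul_inv_cancel₀ ha, scaleRoots_one]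
  right_inv p := by
    change (p.scaleRoots a⁻¹).scaleRoots a = p
    rw [← scaleRoots_mul, inv_mul_cancel₀ ha, scaleRoots_one]
  map_mul' p q := mul_scaleRoots_of_noZeroDivisors p q a

private theorem irreducible_intNorm {K : Type} [Field K] {p : K[X]} (hp : p ≠ 0) :
    Irreducible p.integralNormalization ↔ Irreducible p := by
  have ha : p.leadingCoeff ≠ 0 := leadingCoeff_ne_zero.2 hp
  have h1 : Irreducible (p.scaleRoots p.leadingCoeff) ↔ Irreducible p :=
    MulEquiv.irreducible_iff (scaleEquiv p.leadingCoeff ha)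
  rw [← h1, ← integralNormalization_mul_C_leadingCoeff,
    irreducible_mul_isUnit (isUnit_C.2 (isUnit_iff_ne_zero.2 ha))]

/-- irreducibility by reduction -/
private theorem irr_of_hom {O F k : Type} [CommRing O] [IsDomain O] [IsIntegrallyClosed O]
    [Field F] [Field k] [Algebra O k] [IsFractionRing O k] (φ : O →+* F) (f : O[X])
    (hlc : φ f.leadingCoeff ≠ 0) (h : Irreducible (f.map φ)) :
    Irreducible (f.map (algebraMap O k)) := by
  have hf : f ≠ 0 := by
    rintro rfl
    simp at hlc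
  have h1 : Irreducible (f.integralNormalization.map φ) := by
    rw [← integralNormalization_map φ f hlc, irreducible_intNorm h.ne_zero]
    exact h
  have h2 := Monic.irreducible_of_irreducible_map φ _ (monic_integralNormalization hf) h1
  have hlc' : algebraMap O k f.leadingCoeff ≠ 0 := by
    rw [Ne, IsFractionRing.to_map_eq_zero_iff]
    exact leadingCoeff_ne_zero.2 hf
  rw [(monic_integralNormalization hf).irreducible_iff_irreducible_map_fraction_map (K := k),
    ← integralNormalization_map _ f hlc', irreducible_intNorm] at h2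
  · exact h2
  · rw [Ne, Polynomial.map_eq_zero_iff (IsFractionRing.injective O k)]
    exact hf

private theorem exists_irr_finite (F : Type) [Field F] [Finite F] (n : ℕ) (hn : 0 < n) :
    ∃ f : F[X], Irreducible f ∧ f.natDegree = n := by
  obtain ⟨p, hp⟩ := CharP.exists F
  have hpp : Fact p.Prime := ⟨CharP.char_is_prime F p⟩
  have hn' : NeZero n := ⟨hn.ne'⟩
  obtain ⟨α, hα⟩ := Field.exists_primitive_element F (FiniteField.Extension F p n)
  have hint : IsIntegral F α := Algebra.IsIntegral.isIntegral α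
  refine ⟨minpoly F α, minpoly.irreducible hint, ?_⟩
  rw [← IntermediateField.adjoin.finrank hint, hα, IntermediateField.finrank_top',
    FiniteField.finrank_extension]

private theorem map_form {k F : Type} [Field k] [NumberField k] [Field F] (φ : 𝓞 k →+* F)
    (g : (𝓞 k)[X]) {n : ℕ} (y : Fin (n + 1) → 𝓞 k) (c : ℕ → F) (hc : ∀ i, φ (y i) = c i) :
    (form g y).map φ = ∑ i ∈ Finset.range (n + 1), C (c i) *
      (if i < g.natDegree then X ^ i else g.map φ * X ^ (i - g.natDegree)) := by
  rw [← Fin.sum_univ_eq_sum_range (fun i => C (c i) *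
      (if i < g.natDegree then X ^ i else g.map φ * X ^ (i - g.natDegree))) (n + 1)]
  unfold form
  rw [Polynomial.map_sum]
  refine Finset.sum_congr rfl fun i _ => ?_
  rw [Polynomial.map_mul, map_C, hc]
  split_ifs
  · rw [Polynomial.map_pow, map_X]
  · rw [Polynomial.map_mul, Polynomial.map_pow, map_X]

private theorem natDegree_form_le {k : Type} [Field k] [NumberField k] (g : (𝓞 k)[X]) {n : ℕ}
    (y : Fin (n + 1) → 𝓞 k) : (form g y).natDegree ≤ n := by
  unfold form
  refine natDegree_sum_le_of_forall_le _ _ fun i _ => ?_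
  refine (natDegree_C_mul_le _ _).trans ?_
  have hi : (i : ℕ) ≤ n := by omega
  split_ifs with h
  · exact (natDegree_X_pow_le _).trans hi
  · refine natDegree_mul_le.trans ?_
    have := natDegree_X_pow_le (R := 𝓞 k) ((i : ℕ) - g.natDegree)
    omega

private theorem natDegree_div' {F : Type} [Field F] (f g : F[X]) {n e : ℕ}
    (he : g.natDegree = e) (he1 : 1 ≤ e) (hn : e ≤ n) (hf : f.natDegree = n) :
    f / g ≠ 0 ∧ (f / g).natDegree = n - e := by
  have h1 : (f % g).natDegree < e := by
    rw [← he]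
    exact natDegree_mod_lt f (by omega)
  have h2 : f % g + g * (f / g) = f := EuclideanDomain.mod_add_div f g
  have h3 : (g * (f / g)).natDegree = n := by
    have h4 : g * (f / g) = f - f % g := by linear_combination h2
    rw [h4, natDegree_sub_eq_left_of_natDegree_lt (by omega), hf]
  have h5 : f / g ≠ 0 := by
    intro h
    rw [h, mul_zero, natDegree_zero] at h3
    omega
  refine ⟨h5, ?_⟩
  have hg : g ≠ 0 := by
    rintro rfl
    rw [natDegree_zero] at he
    omega
  rw [natDegree_mul hg h5] at h3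
  omega

private theorem sum_eq {F : Type} [Field F] (f g : F[X]) {n e : ℕ}
    (he : g.natDegree = e) (he1 : 1 ≤ e) (hn : e ≤ n) (hf : f.natDegree = n) :
    ∑ i ∈ Finset.range (n + 1), C (if i < e then (f % g).coeff i else (f / g).coeff (i - e)) *
      (if i < e then X ^ i else g * X ^ (i - e)) = f := by
  have h1 : n + 1 = e + (n - e + 1) := by omega
  rw [h1, Finset.sum_range_add]
  have h2 : ∑ i ∈ Finset.range e, C (if i < e then (f % g).coeff i else (f / g).coeff (i - e)) *
      (if i < e then X ^ i else g * X ^ (i - e)) = f % g := by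
    have h3 : (f % g).natDegree < e := by
      rw [← he]
      exact natDegree_mod_lt f (by omega)
    conv_rhs => rw [as_sum_range' (f % g) e h3]
    refine Finset.sum_congr rfl fun i hi => ?_
    rw [Finset.mem_range] at hi
    rw [if_pos hi, if_pos hi, C_mul_X_pow_eq_monomial]
  have h4 : ∑ i ∈ Finset.range (n - e + 1),
      C (if e + i < e then (f % g).coeff (e + i) else (f / g).coeff (e + i - e)) *
      (if e + i < e then X ^ (e + i) else g * X ^ (e + i - e)) = g * (f / g) := by
    have h5 : (f / g).natDegree < n - e + 1 := by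
      have := (natDegree_div' f g he he1 hn hf).2
      omega
    conv_rhs => rw [as_sum_range' (f / g) _ h5]
    rw [Finset.mul_sum]
    refine Finset.sum_congr rfl fun i _ => ?_
    rw [if_neg (by omega), if_neg (by omega), Nat.add_sub_cancel_left,
      ← C_mul_X_pow_eq_monomial]
    ring
  rw [h2, h4]
  exact EuclideanDomain.mod_add_div f g

/-- a prime number and a reduction -/
private theorem exists_prime {k : Type} [Field k] [NumberField k] (b : 𝓞 k) (hb : b ≠ 0) :
    ∃ (p : ℕ) (P : Ideal (𝓞 k)), P.IsMaximal ∧ 0 < p ∧ (p : 𝓞 k) ∈ P ∧ b ∉ P := by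
  have hN : Ideal.absNorm (Ideal.span {b}) ≠ 0 := by
    rw [Ne, Ideal.absNorm_eq_zero_iff, Ideal.span_singleton_eq_bot]
    exact hb
  obtain ⟨p, hp1, hp2⟩ := Nat.exists_infinite_primes (Ideal.absNorm (Ideal.span {b}) + 1)
  have hpm : (Ideal.span {(p : ℤ)}).IsMaximal := by
    have : Prime (p : ℤ) := Nat.prime_iff_prime_int.1 hp2
    exact PrincipalIdealRing.isMaximal_of_irreducible this.irreducible
  obtain ⟨P, hP1, hP2⟩ := Ideal.exists_maximal_ideal_liesOver_of_isIntegral
    (Ideal.span {(p : ℤ)}) (S := 𝓞 k)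
  have hpP : (p : 𝓞 k) ∈ P := by
    have h1 : (p : ℤ) ∈ P.under ℤ := by
      rw [← hP2.over]
      exact Ideal.mem_span_singleton_self _
    rw [Ideal.under_def, Ideal.mem_comap] at h1
    simpa using h1
  refine ⟨p, P, hP1, hp2.pos, hpP, fun hbP => ?_⟩
  have h1 : ((Ideal.absNorm (Ideal.span {b}) : ℕ) : 𝓞 k) ∈ P :=
    (Ideal.span_singleton_le_iff_mem P).2 hbP (Ideal.absNorm_mem _)
  have h2 : Nat.Coprime p (Ideal.absNorm (Ideal.span {b})) := by
    rw [hp2.coprime_iff_not_dvd]
    intro h
    have := Nat.le_of_dvd (Nat.pos_of_ne_zero hN) h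
    omega
  have h3 := Nat.isCoprime_iff_coprime.2 h2
  obtain ⟨u, v, huv⟩ := h3
  apply hP1.ne_top
  rw [Ideal.eq_top_iff_one]
  have h4 : (u : 𝓞 k) * (p : 𝓞 k) + (v : 𝓞 k) *
      ((Ideal.absNorm (Ideal.span {b}) : ℕ) : 𝓞 k) = 1 := by
    have := congrArg (Int.cast : ℤ → 𝓞 k) huv
    push_cast at this
    exact this
  rw [← h4]
  exact P.add_mem (P.mul_mem_left _ hpP) (P.mul_mem_left _ h1)

/-- irreducibility by a congruence -/
theorem exists_irr (k : Type) [Field k] [NumberField k] (g : (𝓞 k)[X]) (hg : g ≠ 0) (n : ℕ)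
    (he : 1 ≤ g.natDegree) (hn : g.natDegree ≤ n) : ∃ l : ℕ, 0 < l ∧
    ∃ y₀ : Fin (n + 1) → 𝓞 k, ∀ y : Fin (n + 1) → 𝓞 k,
      (∀ i, ∃ z : 𝓞 k, y i = y₀ i + (l : 𝓞 k) * z) →
      Irreducible ((form g y).map (algebraMap (𝓞 k) k)) ∧ y 0 ≠ 0 ∧ y (Fin.last n) ≠ 0 := by
  obtain ⟨p, P, hP, hp0, hpP, hbP⟩ := exists_prime g.leadingCoeff (leadingCoeff_ne_zero.2 hg)
  have hPbot : P ≠ ⊥ := by
    rintro rfl
    rw [Ideal.mem_bot] at hpP
    have : (p : ℕ) = 0 := by exact_mod_cast hpP
    omega
  have hfin : Finite (𝓞 k ⧸ P) := P.finiteQuotientOfFreeOfNeBot hPbot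
  let _ : Field (𝓞 k ⧸ P) := Ideal.Quotient.field P
  set φ : 𝓞 k →+* 𝓞 k ⧸ P := Ideal.Quotient.mk P with hφ
  have hφp : φ (p : 𝓞 k) = 0 := Ideal.Quotient.eq_zero_iff_mem.2 hpP
  have hφb : φ g.leadingCoeff ≠ 0 := fun h => hbP (Ideal.Quotient.eq_zero_iff_mem.1 h)
  obtain ⟨f, hf1, hf2⟩ := exists_irr_finite (𝓞 k ⧸ P) n (by omega)
  have hge : (g.map φ).natDegree = g.natDegree := natDegree_map_of_leadingCoeff_ne_zero φ hφb
  set c : ℕ → 𝓞 k ⧸ P := fun i => if i < g.natDegree then (f % g.map φ).coeff i else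
    (f / g.map φ).coeff (i - g.natDegree) with hc
  have hsurj : Function.Surjective φ := Ideal.Quotient.mk_surjective
  choose y₁ hy₁ using fun i => hsurj (c i)
  have hp2 : (p : 𝓞 k) ∉ Ideal.span {((p ^ 2 : ℕ) : 𝓞 k)} := by
    intro h
    obtain ⟨z, hz⟩ := Ideal.mem_span_singleton.1 h
    apply hP.ne_top
    rw [Ideal.eq_top_iff_one]
    have hp' : (p : 𝓞 k) ≠ 0 := by exact_mod_cast hp0.ne'
    have h1 : (1 : 𝓞 k) = p * z := by
      apply mul_left_cancel₀ hp'
      push_cast at hz
      linear_combination hz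
    rw [h1]
    exact P.mul_mem_right _ hpP
  obtain ⟨a, ha1, ha2⟩ : ∃ a : 𝓞 k, φ a = c 0 ∧ a ∉ Ideal.span {((p ^ 2 : ℕ) : 𝓞 k)} := by
    by_cases h : y₁ 0 ∈ Ideal.span {((p ^ 2 : ℕ) : 𝓞 k)}
    · refine ⟨y₁ 0 + p, by rw [map_add, hφp, add_zero, hy₁], fun h' => hp2 ?_⟩
      have := Ideal.sub_mem _ h' h
      rwa [add_sub_cancel_left] at this
    · exact ⟨y₁ 0, hy₁ 0, h⟩
  refine ⟨p ^ 2, by positivity, fun i => if (i : ℕ) = 0 then a else y₁ i, fun y hy => ?_⟩
  have hφy : ∀ i, φ (y i) = c i := by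
    intro i
    obtain ⟨z, hz⟩ := hy i
    rw [hz, map_add, map_mul]
    have h1 : φ ((p ^ 2 : ℕ) : 𝓞 k) = 0 := by
      push_cast
      rw [map_pow, hφp]
      simp
    rw [h1, zero_mul, add_zero]
    by_cases h : (i : ℕ) = 0
    · simp only [h, if_true]
      exact ha1
    · simp only [h, if_false]
      exact hy₁ i
  have hmap : (form g y).map φ = f := by
    rw [map_form φ g y c hφy]
    exact sum_eq f (g.map φ) hge he hn hf2
  have hlc : φ (form g y).leadingCoeff ≠ 0 := by
    have h1 : (form g y).natDegree = n := by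
      apply le_antisymm (natDegree_form_le g y)
      have := natDegree_map_le (f := φ) (p := form g y)
      rwa [hmap, hf2] at this
    have h2 : φ (form g y).leadingCoeff = f.leadingCoeff := by
      rw [leadingCoeff, leadingCoeff, h1, hf2, ← hmap, coeff_map]
    rw [h2]
    exact leadingCoeff_ne_zero.2 hf1.ne_zero
  refine ⟨irr_of_hom φ _ hlc (by rw [hmap]; exact hf1), ?_, ?_⟩
  · intro h
    obtain ⟨z, hz⟩ := hy 0
    rw [h] at hz
    have h1 : a + ((p ^ 2 : ℕ) : 𝓞 k) * z = 0 := hz.symm
    apply ha2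
    rw [Ideal.mem_span_singleton]
    exact ⟨-z, by linear_combination h1⟩
  · intro h
    have h1 := hφy (Fin.last n)
    rw [h, map_zero] at h1
    obtain ⟨h2, h3⟩ := natDegree_div' f (g.map φ) hge he hn hf2
    have h4 : c (Fin.last n : Fin (n + 1)) = (f / g.map φ).leadingCoeff := by
      rw [leadingCoeff, h3, hc]
      simp only [Fin.val_last]
      rw [if_neg (by omega)]
    rw [h4] at h1
    exact leadingCoeff_ne_zero.2 h2 h1.symm

end Pool.Agent.AAL
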