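import Pool.Agent.AAL.IntProp
import Pool.Agent.AAL.Irr

/-!
# Many integral points
-/

set_option autoImplicit false

open Polynomial NumberField IntermediateField Module Pool.Agent.AA

namespace Pool.Agent.AAL

/-- clearing denominators -/
private theorem exists_int_mul0 (k : Type) [Field k] [NumberField k] (g : k[X]) :
    ∃ (m : 𝓞 k) (g₁ : (𝓞 k)[X]), m ≠ 0 ∧ g₁.map (algebraMap (𝓞 k) k) = C (m : k) * g := by
  obtain ⟨b, hb0, hb⟩ := IsLocalization.integerNormalization_spec (nonZeroDivisors (𝓞 k)) g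
  refine ⟨b, IsLocalization.integerNormalization (nonZeroDivisors (𝓞 k)) g,
    nonZeroDivisors.ne_zero hb0, ?_⟩
  rw [hb]
  ext i
  rw [coeff_smul, coeff_C_mul, Algebra.smul_def]

/-- the number of the points of degree `n` which are integral with respect to the divisor -/
theorem lower_int (k : Type) [Field k] [NumberField k] {r : ℕ} (p : Fin r → ℕ)
    [∀ t, Fact (p t).Prime] (hp : Function.Injective p) (g : k[X]) (hg : Squarefree g) (q : ℕ)
    (hq : q = g.natDegree ∨ q = g.natDegree + 1) (hq2 : 2 ≤ q) (n : ℕ) (hn : q ≤ n) :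
    ∃ c C B₀ : ℝ, 0 < c ∧ ∀ B : ℝ, B₀ ≤ B →
    ∃ S : Finset (AlgebraicClosure k), c * B ^ ((n : ℝ) + 1 - q) ≤ (S.card : ℝ) ∧
      ∀ x ∈ S, finrank k (IntermediateField.adjoin k {x}) = n ∧ relHeight x ≤ B ∧
        aeval x g ≠ 0 ∧ q * height x - C ≤ proximity p g q x := by
  classical
  obtain ⟨m, g₁, hm, hg₁⟩ := exists_int_mul0 k g
  have hm' : (m : k) ≠ 0 := by exact_mod_cast hm
  have hg0 : g ≠ 0 := hg.ne_zero
  have hinj : Function.Injective (algebraMap (𝓞 k) k) := RingOfIntegers.coe_injective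
  have hdeg : g₁.natDegree = g.natDegree := by
    rw [← natDegree_map_eq_of_injective hinj g₁, hg₁, natDegree_C_mul hm']
  have hg₁0 : g₁ ≠ 0 := by
    rintro rfl
    rw [Polynomial.map_zero] at hg₁
    exact mul_ne_zero (C_ne_zero.2 hm') hg0 hg₁.symm
  have he1 : 1 ≤ g₁.natDegree := by omega
  have hen : g₁.natDegree ≤ n := by omega
  have hq1 : q = g₁.natDegree ∨ q = g₁.natDegree + 1 := by rw [hdeg]; exact hq
  have hn0 : (0 : ℝ) < n := Nat.cast_pos.2 (by omega)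
  obtain ⟨hTc, hi₀⟩ := card_sm g₁.natDegree q n hq1 hn
  have h0T : (0 : Fin (n + 1)) ∈ sm g₁.natDegree q n := by
    unfold sm
    rw [Finset.mem_filter]
    refine ⟨Finset.mem_univ _, Or.inl ?_⟩
    simp only [Fin.val_zero]
    omega
  set T := sm g₁.natDegree q n with hT
  set i₀ := top g₁.natDegree q n with hi₀'
  set d : ℝ := (finrank ℚ k : ℝ) with hd
  have hd0 : 0 < d := Nat.cast_pos.2 finrank_pos
  obtain ⟨l, hl, y₀, hirr⟩ := exists_irr k g₁ hg₁0 n he1 hen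
  obtain ⟨c, R₁, hc, hR₁, hbox⟩ := le_card_box0 k T i₀ hi₀ l hl y₀
  set z₀ : 𝓞 k := g₁.leadingCoeff ^ (n + 1) * y₀ 0 with hz₀
  set Y : ℕ := (Algebra.norm ℤ z₀).natAbs with hY
  obtain ⟨C₁, C₂, R₂, hC₁, hR₂, hprop⟩ := prop_int k p hp g hg m hm g₁ hg₁ q hq hq2 n hn l y₀ Y
  have hcont : ∀ R : ℝ, ∀ y ∈ box0 T i₀ l y₀ R,
      Ideal.absNorm (form g₁ y).contentIdeal ≤ Y := by
    intro R y hy
    have h1 := mem_content g₁ hg₁0 hen y 0
    have h2 : y 0 = y₀ 0 := hy.1 0 h0T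
    have h3 : y₀ 0 ≠ 0 := by
      rw [← h2]
      exact (hirr y hy.2.1).2.1
    rw [h2] at h1
    have h4 : z₀ ≠ 0 := mul_ne_zero (pow_ne_zero _ (leadingCoeff_ne_zero.2 hg₁0)) h3
    have h5 : Algebra.norm ℤ z₀ ≠ 0 := Algebra.norm_ne_zero_iff.2 h4
    have h6 := Ideal.absNorm_dvd_norm_of_mem h1
    exact Nat.le_of_dvd (Int.natAbs_pos.2 h5) (Int.natCast_dvd.1 h6)
  refine ⟨c / C₁ ^ ((n : ℝ) + 1 - q), (q * |Real.log C₁| + |C₂|) / (d * n),
    max 1 (C₁ * (max R₁ R₂) ^ d), by positivity, ?_⟩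
  intro B hB
  have hB1 : 1 ≤ B := (le_max_left _ _).trans hB
  have hB0 : 0 < B := by linarith
  have hB2 : C₁ * (max R₁ R₂) ^ d ≤ B := (le_max_right _ _).trans hB
  set R : ℝ := (B / C₁) ^ (1 / d) with hR
  have hBC : 0 < B / C₁ := div_pos hB0 hC₁
  have hRd : R ^ d = B / C₁ := by
    rw [hR, ← Real.rpow_mul hBC.le, one_div_mul_cancel hd0.ne', Real.rpow_one]
  have hRpos : 0 < R := Real.rpow_pos_of_pos hBC _
  have hRmax : max R₁ R₂ ≤ R := by
    have h0 : 0 ≤ max R₁ R₂ := le_trans (by linarith : (0 : ℝ) ≤ R₁) (le_max_left R₁ R₂)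
    rw [← Real.rpow_le_rpow_iff h0 hRpos.le hd0, hRd, le_div_iff₀ hC₁, mul_comm]
    exact hB2
  have hRR1 : R₁ ≤ R := (le_max_left R₁ R₂).trans hRmax
  have hRR2 : R₂ ≤ R := (le_max_right R₁ R₂).trans hRmax
  have hfin := box0_finite k T i₀ l y₀ R
  -- the roots
  have hroot : ∀ y : Fin (n + 1) → 𝓞 k, ∃ x : AlgebraicClosure k, y ∈ box0 T i₀ l y₀ R →
      aeval x ((form g₁ y).map (algebraMap (𝓞 k) k)) = 0 := by
    intro y
    by_cases hy : y ∈ box0 T i₀ l y₀ R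
    · obtain ⟨x, hx⟩ := IsAlgClosed.exists_aeval_eq_zero (AlgebraicClosure k)
        ((form g₁ y).map (algebraMap (𝓞 k) k)) (degree_pos_of_irreducible (hirr y hy.2.1).1).ne'
      exact ⟨x, fun _ => hx⟩
    · exact ⟨0, fun h => absurd h hy⟩
  choose Φ hΦ using hroot
  have hinjΦ : Set.InjOn Φ (hfin.toFinset : Set (Fin (n + 1) → 𝓞 k)) := by
    intro y hy y' hy' h
    rw [Finset.mem_coe, Set.Finite.mem_toFinset] at hy hy'
    obtain ⟨a, ha⟩ := eq_smul_of_root k _ _ (hirr y hy.2.1).1 (hirr y' hy'.2.1).1 (Φ y)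
      (hΦ y hy) (by rw [h]; exact hΦ y' hy')
    have h1 := form_smul g₁ hg₁0 hen y y' a ha
    have h2 := h1 0
    rw [hy.1 0 h0T, hy'.1 0 h0T] at h2
    have h3 : (y₀ 0 : k) ≠ 0 := by
      have h4 := (hirr y hy.2.1).2.1
      rw [hy.1 0 h0T] at h4
      exact_mod_cast h4
    have h5 : a = 1 := by
      have h6 : (a - 1) * (y₀ 0 : k) = 0 := by linear_combination -h2
      rcases mul_eq_zero.1 h6 with h7 | h7
      · linear_combination h7
      · exact absurd h7 h3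
    funext i
    have h8 := h1 i
    rw [h5, one_mul] at h8
    exact (RingOfIntegers.coe_injective h8).symm
  refine ⟨hfin.toFinset.image Φ, ?_, ?_⟩
  · rw [Finset.card_image_of_injOn hinjΦ, ← Set.ncard_eq_toFinset_card _ hfin]
    refine le_trans (le_of_eq ?_) (hbox R hRR1)
    rw [hTc, Real.rpow_mul hRpos.le, hRd, Real.div_rpow hB0.le hC₁.le]
    have := Real.rpow_pos_of_pos hC₁ ((n : ℝ) + 1 - q)
    field_simp
  · intro x hx
    obtain ⟨y, hy, rfl⟩ := Finset.mem_image.1 hx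
    rw [Set.Finite.mem_toFinset] at hy
    obtain ⟨hi1, hi2, hi3⟩ := hirr y hy.2.1
    obtain ⟨h1, h2, h3, h4⟩ := hprop R hRR2 y hy hi1 hi2 hi3 (hcont R y hy) (Φ y) (hΦ y hy)
    have h5 : relHeight (Φ y) ≤ B := by
      rw [hRd, mul_div_cancel₀ _ hC₁.ne'] at h3
      exact h3
    refine ⟨h1, h5, h2, ?_⟩
    have hdn : (0 : ℝ) < d * n := by positivity
    have h6 : d * n * height (Φ y) ≤ Real.log B := by
      rw [UpperAux.relHeight_eq, UpperAux.finrank_eq _ n h1, ← Real.le_log_iff_exp_le hB0] at h5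
      push_cast at h5
      exact h5
    have h7 : Real.log B = d * Real.log R + Real.log C₁ := by
      have : B = R ^ d * C₁ := by rw [hRd, div_mul_cancel₀ _ hC₁.ne']
      rw [this, Real.log_mul (Real.rpow_pos_of_pos hRpos _).ne' hC₁.ne', Real.log_rpow hRpos]
    have h8 : (q : ℝ) * (d * n * height (Φ y)) ≤ q * (d * Real.log R + Real.log C₁) :=
      mul_le_mul_of_nonneg_left (by rw [← h7]; exact h6) (Nat.cast_nonneg q)
    have e1 := le_abs_self C₂
    have e2 := mul_le_mul_of_nonneg_left (le_abs_self (Real.log C₁)) (Nat.cast_nonneg q)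
    have h9 : d * n * (q * height (Φ y) - (q * |Real.log C₁| + |C₂|) / (d * n)) ≤
        d * n * proximity p g q (Φ y) := by
      rw [mul_sub, mul_div_cancel₀ _ hdn.ne']
      nlinarith
    exact le_of_mul_le_mul_left h9 hdn

end Pool.Agent.AAL
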