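import Pool.Agent.AAL.Defs
import Pool.Agent.RefW.Fibre

/-!
# The local formula
-/

set_option autoImplicit false

open Polynomial NumberField IntermediateField Module Pool.Agent.AA

namespace Pool.Agent.AAL

private theorem rootOf {k : Type} [Field k] [NumberField k] {n : ℕ} (F : (𝓞 k)[X])
    (x : AlgebraicClosure k) (hx : finrank k (IntermediateField.adjoin k {x}) = n)
    (hF : F.natDegree = n) (hFx : aeval x (F.map (algebraMap (𝓞 k) k)) = 0) :
    RefW.RootOf (fun i : Fin (n + 1) => F.coeff i) (IntermediateField.adjoin k {x})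
      (AdjoinSimple.gen k x) where
  gen := by
    have hint : IsIntegral k x := Algebra.IsIntegral.isIntegral x
    have : FiniteDimensional k (IntermediateField.adjoin k {x}) :=
      IntermediateField.adjoin.finiteDimensional hint
    rw [Field.primitive_element_iff_minpoly_natDegree_eq, IntermediateField.minpoly_gen,
      IntermediateField.adjoin.finrank hint]
  deg := hx
  root := by
    have h1 : aeval (AdjoinSimple.gen k x) (F.map (algebraMap (𝓞 k) k)) = 0 := by
      apply Subtype.ext
      rw [AdjoinSimple.coe_aeval_gen_apply, hFx]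
      rfl
    have h2 : (F.map (algebraMap (𝓞 k) k)).natDegree = n := by
      rw [natDegree_map_eq_of_injective (RingOfIntegers.coe_injective), hF]
    rw [aeval_eq_sum_range, h2, ← Fin.sum_univ_eq_sum_range
      (fun i => (F.map (algebraMap (𝓞 k) k)).coeff i • AdjoinSimple.gen k x ^ i)] at h1
    rw [← h1]
    refine Finset.sum_congr rfl fun i _ => ?_
    rw [coeff_map, Algebra.smul_def]

private theorem prod_norm {A : Type} [NormedField A] {n : ℕ} (a : A) (y : Fin n → A)
    (s : Multiset A) :
    ‖(s.map fun α => a * ∏ l, (α - y l)).prod‖ =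
      ‖a‖ ^ Multiset.card s * ∏ l, (s.map fun α => ‖y l - α‖).prod := by
  induction s using Multiset.induction_on with
  | empty => simp
  | cons α s ih =>
    rw [Multiset.map_cons, Multiset.prod_cons, norm_mul, ih, Multiset.card_cons, norm_mul,
      norm_prod]
    have h1 : ∀ l, ((α ::ₘ s).map fun α => ‖y l - α‖).prod =
        ‖y l - α‖ * (s.map fun α => ‖y l - α‖).prod := by
      intro l
      rw [Multiset.map_cons, Multiset.prod_cons]
    rw [Finset.prod_congr rfl fun l _ => h1 l, Finset.prod_mul_distrib,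
      Finset.prod_congr rfl fun l _ => norm_sub_rev α (y l), pow_succ]
    ring

private theorem norm_value {k : Type} [Field k] {A : Type} [NormedField A] [IsAlgClosed A]
    (g : k[X]) (ρ : k →+* A) (y : A) :
    ‖(g.map ρ).eval y‖ =
      ‖ρ g.leadingCoeff‖ * ((g.map ρ).roots.map fun α => ‖y - α‖).prod := by
  have h1 := (IsAlgClosed.splits (g.map ρ)).eval_eq_prod_roots y
  rw [h1, norm_mul, leadingCoeff_map]
  congr 1
  induction (g.map ρ).roots using Multiset.induction_on with
  | empty => simp
  | cons α s ih =>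
    rw [Multiset.map_cons, Multiset.prod_cons, norm_mul, ih, Multiset.map_cons,
      Multiset.prod_cons]

/-- the local formula -/
theorem local_formula {k : Type} [Field k] [NumberField k] (A : Type) [NormedField A] [CharZero A]
    [IsAlgClosed A] (g : k[X]) (hg : g ≠ 0) (q : ℕ) (hq : q = g.natDegree ∨ q = g.natDegree + 1)
    (n : ℕ) (F : (𝓞 k)[X]) (x : AlgebraicClosure k)
    (hx : finrank k (IntermediateField.adjoin k {x}) = n) (hF : F.natDegree = n)
    (hF0 : F ≠ 0) (hFx : aeval x (F.map (algebraMap (𝓞 k) k)) = 0) (hgx : aeval x g ≠ 0) :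
    ∑ σ : IntermediateField.adjoin k {x} →+* A,
        -Real.log (‖σ (aeval (AdjoinSimple.gen k x) g)‖ /
          max 1 ‖σ (AdjoinSimple.gen k x)‖ ^ q) =
      q * lgM A F x - lgR A g q F - n * ∑ ρ : k →+* A, Real.log ‖ρ g.leadingCoeff‖ := by
  classical
  have hroot := rootOf F x hx hF hFx
  have hF' : (fun i : Fin (n + 1) => F.coeff i) ≠ 0 := by
    intro h0
    have h1 := congrFun h0 (Fin.last n)
    have h2 : F.coeff n = 0 := h1
    rw [← hF, coeff_natDegree, leadingCoeff_eq_zero] at h2
    exact hF0 h2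
  set z := AdjoinSimple.gen k x with hz
  have hgz : aeval z g ≠ 0 := by
    intro h0
    apply hgx
    have h1 := AdjoinSimple.coe_aeval_gen_apply (F := k) (α := x) g
    rw [← hz, h0] at h1
    exact h1.symm
  have ha0 : ∀ ρ : k →+* A, ρ (F.leadingCoeff : k) ≠ 0 := by
    intro ρ h0
    rw [map_eq_zero] at h0
    have h1 : F.leadingCoeff = 0 := RingOfIntegers.coe_injective (by simpa using h0)
    exact hF0 (leadingCoeff_eq_zero.1 h1)
  have hl0 : ∀ ρ : k →+* A, ρ g.leadingCoeff ≠ 0 := by
    intro ρ h0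
    rw [map_eq_zero, leadingCoeff_eq_zero] at h0
    exact hg h0
  -- the identity over one embedding of `k`
  have key : ∀ ρ : k →+* A,
      ∑ σ : {σ : IntermediateField.adjoin k {x} →+* A //
          σ.comp (algebraMap k (IntermediateField.adjoin k {x})) = ρ},
        -Real.log (‖σ.1 (aeval z g)‖ / max 1 ‖σ.1 z‖ ^ q) =
      q * (Real.log ‖ρ (F.leadingCoeff : k)‖ +
          ∑ σ : {σ : IntermediateField.adjoin k {x} →+* A //
            σ.comp (algebraMap k (IntermediateField.adjoin k {x})) = ρ},
            Real.log (max 1 ‖σ.1 z‖)) -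
        Real.log (‖ρ (F.leadingCoeff : k)‖ ^ (q - g.natDegree) *
          ‖((g.map ρ).roots.map fun α =>
            (F.map (ρ.comp (algebraMap (𝓞 k) k))).eval α).prod‖) -
        n * Real.log ‖ρ g.leadingCoeff‖ := by
    intro ρ
    obtain ⟨e, he⟩ := RefW.exists_fibre_equiv hF' hroot ρ
    have h1 : F.map (ρ.comp (algebraMap (𝓞 k) k)) =
        C (ρ (F.leadingCoeff : k)) * ∏ l, (X - C ((e l).1 z)) := by
      have h2 : ρ (F.leadingCoeff : k) = ρ (F.coeff (Fin.last n) : k) := by
        rw [leadingCoeff, hF, Fin.val_last]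
      rw [h2, ← he]
      ext i
      rw [coeff_map, finsetSum_coeff]
      simp only [coeff_C_mul, coeff_X_pow]
      by_cases hi : i < n + 1
      · rw [Finset.sum_eq_single (⟨i, hi⟩ : Fin (n + 1))]
        · simp
        · intro b _ hb
          have : i ≠ (b : ℕ) := fun h' => hb (Fin.ext h'.symm)
          simp [this]
        · intro h'
          exact absurd (Finset.mem_univ _) h'
      · rw [Finset.sum_eq_zero]
        · rw [coeff_eq_zero_of_natDegree_lt (by omega), map_zero]
        · intro b _
          have : i ≠ (b : ℕ) := fun h' => hi (h' ▸ b.2)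
          simp [this]
    have h3 : ∀ α, (F.map (ρ.comp (algebraMap (𝓞 k) k))).eval α =
        ρ (F.leadingCoeff : k) * ∏ l, (α - (e l).1 z) := by
      intro α
      rw [h1, eval_mul, eval_C, eval_prod]
      simp
    have hcard : Multiset.card (g.map ρ).roots = g.natDegree := by
      rw [← (IsAlgClosed.splits (g.map ρ)).natDegree_eq_card_roots, natDegree_map]
    have h4 : ‖((g.map ρ).roots.map fun α =>
            (F.map (ρ.comp (algebraMap (𝓞 k) k))).eval α).prod‖ =
        ‖ρ (F.leadingCoeff : k)‖ ^ g.natDegree *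
          ∏ l, ((g.map ρ).roots.map fun α => ‖(e l).1 z - α‖).prod := by
      rw [Multiset.map_congr rfl fun α _ => h3 α, prod_norm, hcard]
    have h5 : ∀ l, ‖(e l).1 (aeval z g)‖ = ‖ρ g.leadingCoeff‖ *
        ((g.map ρ).roots.map fun α => ‖(e l).1 z - α‖).prod := by
      intro l
      rw [← norm_value, aeval_def, hom_eval₂, eval_map, (e l).2]
    have h6 : ∀ l, ((g.map ρ).roots.map fun α => ‖(e l).1 z - α‖).prod ≠ 0 := by
      intro l h0
      have h7 := h5 l
      rw [h0, mul_zero, norm_eq_zero, map_eq_zero] at h7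
      exact hgz h7
    have hm : ∀ l, max 1 ‖(e l).1 z‖ ≠ 0 := fun l =>
      (lt_of_lt_of_le one_pos (le_max_left _ _)).ne'
    rw [← e.sum_comp, ← e.sum_comp, h4]
    have h8 : ‖ρ (F.leadingCoeff : k)‖ ^ (q - g.natDegree) *
        (‖ρ (F.leadingCoeff : k)‖ ^ g.natDegree *
          ∏ l, ((g.map ρ).roots.map fun α => ‖(e l).1 z - α‖).prod) =
        ‖ρ (F.leadingCoeff : k)‖ ^ q *
          ∏ l, ((g.map ρ).roots.map fun α => ‖(e l).1 z - α‖).prod := by
      rw [← mul_assoc, ← pow_add]
      congr 2
      omega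
    rw [h8, Real.log_mul (pow_ne_zero _ (norm_ne_zero_iff.2 (ha0 ρ)))
      (Finset.prod_ne_zero_iff.2 fun l _ => h6 l), Real.log_pow,
      Real.log_prod (fun l _ => h6 l)]
    have h9 : ∀ l, -Real.log (‖(e l).1 (aeval z g)‖ / max 1 ‖(e l).1 z‖ ^ q) =
        q * Real.log (max 1 ‖(e l).1 z‖) - Real.log ‖ρ g.leadingCoeff‖ -
          Real.log ((g.map ρ).roots.map fun α => ‖(e l).1 z - α‖).prod := by
      intro l
      rw [h5 l, Real.log_div (mul_ne_zero (norm_ne_zero_iff.2 (hl0 ρ)) (h6 l))
        (pow_ne_zero _ (hm l)), Real.log_mul (norm_ne_zero_iff.2 (hl0 ρ)) (h6 l), Real.log_pow]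
      ring
    rw [Finset.sum_congr rfl fun l _ => h9 l, Finset.sum_sub_distrib, Finset.sum_sub_distrib,
      ← Finset.mul_sum, Finset.sum_const, Finset.card_univ, Fintype.card_fin, nsmul_eq_mul]
    ring
  rw [← Fintype.sum_fiberwise (fun σ : IntermediateField.adjoin k {x} →+* A =>
    σ.comp (algebraMap k (IntermediateField.adjoin k {x}))), Finset.sum_congr rfl fun ρ _ => key ρ,
    Finset.sum_sub_distrib, Finset.sum_sub_distrib, ← Finset.mul_sum, ← Finset.mul_sum,
    Finset.sum_add_distrib]
  unfold lgM lgR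
  rw [← Fintype.sum_fiberwise (fun σ : IntermediateField.adjoin k {x} →+* A =>
    σ.comp (algebraMap k (IntermediateField.adjoin k {x})))
    (fun σ => Real.log (max 1 ‖σ (AdjoinSimple.gen k x)‖))]

end Pool.Agent.AAL
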