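import Pool.Agent.AAL.Defs
import Pool.Agent.RefW.Fibre
import Pool.Agent.RefW.Mahler
import Pool.Agent.AA.ProdF

/-!
# The p-adic Mahler measures and the norm of the content ideal
-/

set_option autoImplicit false

open Polynomial NumberField IntermediateField Module Pool.Agent.AA

namespace Pool.Agent.AAL

private theorem PadicM_sum {A : Type} [Semiring A] {n : ℕ} (F : A[X]) (hF : F.natDegree = n) :
    ∑ i : Fin (n + 1), C (F.coeff i) * X ^ (i : ℕ) = F := by
  rw [Fin.sum_univ_eq_sum_range (fun i => C (F.coeff i) * X ^ i) (n + 1)]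
  conv_rhs => rw [F.as_sum_range_C_mul_X_pow, hF]

private theorem PadicM_key {k : Type} [Field k] [NumberField k] (A : Type) [NormedField A]
    [CharZero A] [IsAlgClosed A] (n : ℕ) (F : (𝓞 k)[X])
    (x : AlgebraicClosure k) (hx : finrank k (IntermediateField.adjoin k {x}) = n)
    (hF : F.natDegree = n) (hF0 : F ≠ 0) (hFx : aeval x (F.map (algebraMap (𝓞 k) k)) = 0) :
    ∃ e : (ρ : k →+* A) →
      (Fin n ≃ {σ : IntermediateField.adjoin k {x} →+* A // σ.comp (algebraMap k _) = ρ}),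
      lgM A F x = ∑ ρ : k →+* A, Real.log (‖ρ (F.leadingCoeff : k)‖ *
        ∏ l, max 1 ‖(e ρ l).1 (AdjoinSimple.gen k x)‖) ∧
      ∀ ρ : k →+* A, ∑ i : Fin (n + 1), C (ρ (F.coeff i : k)) * X ^ (i : ℕ) =
        C (ρ (F.leadingCoeff : k)) * ∏ l, (X - C ((e ρ l).1 (AdjoinSimple.gen k x))) := by
  have hFn : (fun i : Fin (n + 1) => F.coeff i) ≠ 0 := by
    intro h
    have h1 := congrFun h (Fin.last n)
    simp only [Fin.val_last, Pi.zero_apply] at h1
    rw [← hF, coeff_natDegree, leadingCoeff_eq_zero] at h1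
    exact hF0 h1
  have hroot : RefW.RootOf (fun i : Fin (n + 1) => F.coeff i) (IntermediateField.adjoin k {x})
      (AdjoinSimple.gen k x) := by
    refine ⟨?_, hx, ?_⟩
    · apply IntermediateField.lift_injective
      rw [IntermediateField.lift_adjoin_simple, IntermediateField.lift_top,
        AdjoinSimple.coe_gen]
    · apply (algebraMap (IntermediateField.adjoin k {x}) (AlgebraicClosure k)).injective
      rw [map_zero, map_sum]
      have h1 := hFx
      rw [← PadicM_sum (F.map (algebraMap (𝓞 k) k)) (n := n)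
        ((natDegree_map_eq_of_injective (FaithfulSMul.algebraMap_injective (𝓞 k) k) F).trans hF),
        map_sum] at h1
      rw [← h1]
      refine Finset.sum_congr rfl fun i _ => ?_
      rw [map_mul, map_pow, map_mul, map_pow, aeval_C, aeval_X, coeff_map]
      rfl
  choose e he using fun ρ : k →+* A => RefW.exists_fibre_equiv hFn hroot ρ
  have hlast : F.coeff ((Fin.last n : Fin (n + 1)) : ℕ) = F.leadingCoeff := by
    rw [Fin.val_last, ← hF, coeff_natDegree]
  refine ⟨e, ?_, ?_⟩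
  · unfold lgM
    have h1 : ∑ σ : IntermediateField.adjoin k {x} →+* A,
        Real.log (max 1 ‖σ (AdjoinSimple.gen k x)‖) =
        ∑ ρ : k →+* A, ∑ l : Fin n, Real.log (max 1 ‖(e ρ l).1 (AdjoinSimple.gen k x)‖) := by
      classical
      rw [← Finset.sum_fiberwise Finset.univ
        (fun σ : IntermediateField.adjoin k {x} →+* A => σ.comp (algebraMap k _))]
      refine Finset.sum_congr rfl fun ρ _ => ?_
      rw [(e ρ).sum_comp (fun s => Real.log (max 1 ‖s.1 (AdjoinSimple.gen k x)‖))]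
      refine Finset.sum_subtype _ (fun σ => ?_) _
      rw [Finset.mem_filter]
      exact ⟨fun h => h.2, fun h => ⟨Finset.mem_univ _, h⟩⟩
    rw [h1, ← Finset.sum_add_distrib]
    refine Finset.sum_congr rfl fun ρ _ => ?_
    have h2 : ρ (F.leadingCoeff : k) ≠ 0 := by
      rw [Ne, map_eq_zero]
      intro h3
      exact hF0 (leadingCoeff_eq_zero.1 (RingOfIntegers.coe_injective (by simpa using h3)))
    rw [Real.log_mul (norm_ne_zero_iff.2 h2)
      (Finset.prod_ne_zero_iff.2 fun l _ => (lt_of_lt_of_le one_pos (le_max_left _ _)).ne'),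
      Real.log_prod (fun l _ => (lt_of_lt_of_le one_pos (le_max_left _ _)).ne')]
  · intro ρ
    have h1 := he ρ
    simp only [hlast] at h1
    exact h1

/-- the value of an element of the content ideal -/
private theorem PadicM_content {k : Type} [Field k] [NumberField k] (p : ℕ) [Fact p.Prime]
    (n : ℕ) (F : (𝓞 k)[X]) (hF : F.natDegree = n) (ρ : k →+* ℂ_[p]) {c : 𝓞 k}
    (hc : c ∈ F.contentIdeal) :
    ‖ρ (c : k)‖ ≤ ‖fun i : Fin (n + 1) => ρ (F.coeff i : k)‖ := by
  rw [contentIdeal_def] at hc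
  induction hc using Submodule.span_induction with
  | mem y hy =>
    obtain ⟨i, hi, rfl⟩ := mem_coeffs_iff.1 hy
    have hi' : i < n + 1 := by
      have := le_natDegree_of_mem_supp i hi
      omega
    exact norm_le_pi_norm (fun i : Fin (n + 1) => ρ (F.coeff i : k)) ⟨i, hi'⟩
  | zero => simp
  | add y z _ _ hy hz =>
    have h1 : ((y + z : 𝓞 k) : k) = (y : k) + (z : k) := rfl
    rw [h1, map_add]
    exact (IsUltrametricDist.norm_add_le_max _ _).trans (max_le hy hz)
  | smul r y _ hy =>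
    have h1 : ((r • y : 𝓞 k) : k) = (r : k) * (y : k) := rfl
    rw [h1, map_mul, norm_mul]
    have h2 := RefW.norm_le_one_of_ringOfIntegers p ρ r
    exact (mul_le_of_le_one_left (norm_nonneg _) h2).trans hy

private theorem PadicM_norm {k : Type} [Field k] [NumberField k] (p : ℕ) [Fact p.Prime]
    (n : ℕ) (F : (𝓞 k)[X]) (hF : F.natDegree = n) :
    ‖((Ideal.absNorm F.contentIdeal : ℤ) : ℂ_[p])‖ ≤
      ∏ ρ : k →+* ℂ_[p], ‖fun i : Fin (n + 1) => ρ (F.coeff i : k)‖ := by
  have hQ : 0 ≤ ∏ ρ : k →+* ℂ_[p], ‖fun i : Fin (n + 1) => ρ (F.coeff i : k)‖ :=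
    Finset.prod_nonneg fun σ _ => norm_nonneg _
  refine norm_induction F.contentIdeal
    (fun m => ‖(m : ℂ_[p])‖ ≤
      ∏ ρ : k →+* ℂ_[p], ‖fun i : Fin (n + 1) => ρ (F.coeff i : k)‖) ?_ ?_ ?_ ?_
  · simpa using hQ
  · intro a b ha hb
    push_cast
    exact (IsUltrametricDist.norm_add_le_max _ _).trans (max_le ha hb)
  · intro r a ha
    push_cast
    rw [norm_mul]
    have h1 : ‖(r : ℂ_[p])‖ ≤ 1 := by
      rw [padic_norm_int]
      exact Padic.norm_int_le_one r
    exact (mul_le_of_le_one_left (norm_nonneg _) h1).trans ha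
  · intro c hc
    rw [← SST.prodK_norm_prod ℂ_[p] c]
    exact Finset.prod_le_prod (fun ρ _ => norm_nonneg _) fun ρ _ => PadicM_content p n F hF ρ hc

theorem le_lgM_padic {k : Type} [Field k] [NumberField k] {r : ℕ} (p : Fin r → ℕ)
    [∀ t, Fact (p t).Prime] (hp : Function.Injective p) (n : ℕ) (F : (𝓞 k)[X])
    (x : AlgebraicClosure k) (hx : finrank k (IntermediateField.adjoin k {x}) = n)
    (hF : F.natDegree = n) (hF0 : F ≠ 0) (hFx : aeval x (F.map (algebraMap (𝓞 k) k)) = 0) :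
    -Real.log (Ideal.absNorm F.contentIdeal) ≤ ∑ t, lgM ℂ_[p t] F x := by
  classical
  set N : ℕ := Ideal.absNorm F.contentIdeal with hN
  have hN0 : N ≠ 0 := by
    rw [hN, Ne, Ideal.absNorm_eq_zero_iff, contentIdeal_eq_bot_iff]
    exact hF0
  have h1 : ∀ t, Real.log ‖((N : ℤ) : ℚ_[p t])‖ ≤ lgM ℂ_[p t] F x := by
    intro t
    obtain ⟨e, he, hp'⟩ := PadicM_key ℂ_[p t] n F x hx hF hF0 hFx
    have h2 : ∀ ρ : k →+* ℂ_[p t], ‖ρ (F.leadingCoeff : k)‖ *
        ∏ l, max 1 ‖(e ρ l).1 (AdjoinSimple.gen k x)‖ =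
        ‖fun i : Fin (n + 1) => ρ (F.coeff i : k)‖ := fun ρ =>
      RefW.gauss_eq _ _ _ (hp' ρ)
    have h3 : ∀ ρ : k →+* ℂ_[p t], ‖fun i : Fin (n + 1) => ρ (F.coeff i : k)‖ ≠ 0 := by
      intro ρ
      rw [← h2]
      have h4 : ρ (F.leadingCoeff : k) ≠ 0 := by
        rw [Ne, map_eq_zero]
        intro h3
        exact hF0 (leadingCoeff_eq_zero.1 (RingOfIntegers.coe_injective (by simpa using h3)))
      exact mul_ne_zero (norm_ne_zero_iff.2 h4)
        (Finset.prod_ne_zero_iff.2 fun l _ => (lt_of_lt_of_le one_pos (le_max_left _ _)).ne')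
    rw [he, Finset.sum_congr rfl fun ρ _ => congrArg Real.log (h2 ρ),
      ← Real.log_prod (fun ρ _ => h3 ρ), ← padic_norm_int]
    refine Real.log_le_log ?_ (PadicM_norm (p t) n F hF)
    rw [norm_pos_iff]
    exact_mod_cast hN0
  have h2 := SST.sk_prod_ge p hp (N : ℤ) (by exact_mod_cast hN0)
  have hj0 : 0 < |(((N : ℕ) : ℤ) : ℝ)| := by
    rw [abs_pos]
    exact_mod_cast hN0
  have hjt : ∀ t, 0 < ‖(((N : ℕ) : ℤ) : ℚ_[p t])‖ := by
    intro t
    rw [norm_pos_iff]
    exact_mod_cast hN0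
  have hlog : 0 ≤ Real.log |(((N : ℕ) : ℤ) : ℝ)| +
      ∑ t, Real.log ‖(((N : ℕ) : ℤ) : ℚ_[p t])‖ := by
    rw [← Real.log_prod fun t _ => (hjt t).ne',
      ← Real.log_mul hj0.ne' (Finset.prod_pos fun t _ => hjt t).ne']
    exact Real.log_nonneg h2
  have h3 : |(((N : ℕ) : ℤ) : ℝ)| = (N : ℝ) := by
    rw [Int.cast_natCast, Nat.abs_cast]
  rw [h3] at hlog
  have h4 := Finset.sum_le_sum fun t (_ : t ∈ Finset.univ) => h1 t
  linarith

end Pool.Agent.AAL
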