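import Pool.Agent.AAL.Defs

/-!
# Zeros of the forms of the family
-/

set_option autoImplicit false
set_option linter.unusedSectionVars false

open Polynomial NumberField IntermediateField Module

namespace Pool.Agent.AAL

section Aux

variable {k : Type} [Field k] [NumberField k]

/-- the remainder of the form modulo `g` -/
private noncomputable def rl_gam (g : (𝓞 k)[X]) {n : ℕ} (y : Fin (n + 1) → 𝓞 k) : (𝓞 k)[X] :=
  ∑ i : Fin (n + 1), if (i : ℕ) < g.natDegree then C (y i) * X ^ (i : ℕ) else 0

/-- the quotient of the form modulo `g` -/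
private noncomputable def rl_quo (g : (𝓞 k)[X]) {n : ℕ} (y : Fin (n + 1) → 𝓞 k) : (𝓞 k)[X] :=
  ∑ i : Fin (n + 1), if (i : ℕ) < g.natDegree then 0 else C (y i) * X ^ ((i : ℕ) - g.natDegree)

private theorem rl_form_eq (g : (𝓞 k)[X]) {n : ℕ} (y : Fin (n + 1) → 𝓞 k) :
    form g y = rl_gam g y + g * rl_quo g y := by
  rw [form, rl_gam, rl_quo, Finset.mul_sum, ← Finset.sum_add_distrib]
  refine Finset.sum_congr rfl fun i _ => ?_
  split_ifs <;> ring

private theorem rl_degree_gam (g : (𝓞 k)[X]) {n : ℕ} (y : Fin (n + 1) → 𝓞 k) :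
    (rl_gam g y).degree < g.natDegree := by
  rw [← mem_degreeLT, rl_gam]
  refine Submodule.sum_mem _ fun i _ => ?_
  split_ifs with h
  · rw [mem_degreeLT]
    exact (degree_C_mul_X_pow_le _ _).trans_lt (by exact_mod_cast h)
  · exact Submodule.zero_mem _

private theorem rl_natDegree_quo (g : (𝓞 k)[X]) {n : ℕ} (y : Fin (n + 1) → 𝓞 k) :
    (rl_quo g y).natDegree ≤ n - g.natDegree := by
  rw [rl_quo]
  refine natDegree_sum_le_of_forall_le _ _ fun i _ => ?_
  split_ifs with h
  · simp
  · refine (natDegree_C_mul_X_pow_le _ _).trans ?_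
    have := i.2
    omega

private theorem rl_coeff_quo (g : (𝓞 k)[X]) {n : ℕ} (hn : g.natDegree ≤ n)
    (y : Fin (n + 1) → 𝓞 k) : (rl_quo g y).coeff (n - g.natDegree) = y (Fin.last n) := by
  rw [rl_quo, finsetSum_coeff, Finset.sum_eq_single (Fin.last n)]
  · rw [if_neg (by rw [Fin.val_last]; omega), coeff_C_mul, coeff_X_pow, Fin.val_last, if_pos rfl,
      mul_one]
  · intro i _ hi
    split_ifs with h
    · exact coeff_zero _
    · rw [coeff_C_mul, coeff_X_pow, if_neg, mul_zero]
      intro h2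
      apply hi
      apply Fin.ext
      rw [Fin.val_last]
      omega
  · intro h
    exact absurd (Finset.mem_univ _) h

private theorem rl_natDegree {g : (𝓞 k)[X]} (hg : g ≠ 0) {n : ℕ} (hn : g.natDegree ≤ n)
    (y : Fin (n + 1) → 𝓞 k) (hy : y (Fin.last n) ≠ 0) : (form g y).natDegree = n := by
  have hsplit : n = g.natDegree + (n - g.natDegree) := by omega
  apply natDegree_eq_of_le_of_coeff_ne_zero
  · rw [rl_form_eq]
    refine (natDegree_add_le _ _).trans (max_le ?_ ?_)
    · exact (natDegree_le_of_degree_le (rl_degree_gam g y).le).trans hn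
    · refine natDegree_mul_le.trans ?_
      have := rl_natDegree_quo g y
      omega
  · have h1 : (rl_gam g y).coeff n = 0 := by
      apply coeff_eq_zero_of_degree_lt
      exact (rl_degree_gam g y).trans_le (by exact_mod_cast hn)
    have h2 : (g * rl_quo g y).coeff n = g.leadingCoeff * y (Fin.last n) := by
      have h3 := coeff_mul_add_eq_of_natDegree_le (le_refl g.natDegree) (rl_natDegree_quo g y)
      rw [← hsplit, rl_coeff_quo g hn] at h3
      exact h3
    rw [rl_form_eq, coeff_add, h1, zero_add, h2]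
    exact mul_ne_zero (leadingCoeff_ne_zero.2 hg) hy

private theorem rl_coeff_gam {g : (𝓞 k)[X]} (he : 1 ≤ g.natDegree) {n : ℕ}
    (y : Fin (n + 1) → 𝓞 k) : (rl_gam g y).coeff 0 = y 0 := by
  rw [rl_gam, finsetSum_coeff, Finset.sum_eq_single 0]
  · rw [if_pos (by rw [Fin.val_zero]; omega), coeff_C_mul, coeff_X_pow, Fin.val_zero, if_pos rfl,
      mul_one]
  · intro i _ hi
    split_ifs with h
    · rw [coeff_C_mul, coeff_X_pow, if_neg, mul_zero]
      intro h2
      apply hi
      apply Fin.ext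
      rw [Fin.val_zero]
      exact h2.symm
    · exact coeff_zero _
  · intro h
    exact absurd (Finset.mem_univ _) h

end Aux

/-- the zeros of an irreducible form of the family -/
theorem root_form (k : Type) [Field k] [NumberField k] (g : k[X]) (m : 𝓞 k) (hm : m ≠ 0)
    (g₁ : (𝓞 k)[X]) (hg₁ : g₁.map (algebraMap (𝓞 k) k) = C (m : k) * g) {n : ℕ}
    (he : 1 ≤ g.natDegree) (hn : g.natDegree ≤ n) (y : Fin (n + 1) → 𝓞 k)
    (hirr : Irreducible ((form g₁ y).map (algebraMap (𝓞 k) k))) (hy0 : y 0 ≠ 0)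
    (hyn : y (Fin.last n) ≠ 0) (x : AlgebraicClosure k)
    (hx : aeval x ((form g₁ y).map (algebraMap (𝓞 k) k)) = 0) :
    finrank k (IntermediateField.adjoin k {x}) = n ∧ aeval x g ≠ 0 := by
  have hinj : Function.Injective (algebraMap (𝓞 k) k) := FaithfulSMul.algebraMap_injective _ _
  have hm' : (m : k) ≠ 0 := by
    intro h
    exact hm (hinj (by rw [map_zero]; exact h))
  have hdeg : g₁.natDegree = g.natDegree := by
    rw [← natDegree_map_eq_of_injective hinj g₁, hg₁, natDegree_C_mul hm']
  have hg0 : g₁ ≠ 0 := by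
    rintro rfl
    rw [natDegree_zero] at hdeg
    omega
  have hnat : ((form g₁ y).map (algebraMap (𝓞 k) k)).natDegree = n := by
    rw [natDegree_map_eq_of_injective hinj]
    exact rl_natDegree hg0 (by omega) y hyn
  have hmin := minpoly.eq_of_irreducible hirr hx
  have hlc : ((form g₁ y).map (algebraMap (𝓞 k) k)).leadingCoeff⁻¹ ≠ 0 :=
    inv_ne_zero (leadingCoeff_ne_zero.2 hirr.ne_zero)
  have hmn : (minpoly k x).natDegree = n := by
    rw [← hmin, natDegree_mul_C hlc, hnat]
  refine ⟨?_, fun h => ?_⟩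
  · rw [IntermediateField.adjoin.finrank (Algebra.IsIntegral.isIntegral x), hmn]
  · have h1 : minpoly k x ∣ g := minpoly.dvd k x h
    have h2 : minpoly k x ∣ (form g₁ y).map (algebraMap (𝓞 k) k) := minpoly.dvd k x hx
    have h3 : (rl_gam g₁ y).map (algebraMap (𝓞 k) k) =
        (form g₁ y).map (algebraMap (𝓞 k) k) -
          C (m : k) * g * (rl_quo g₁ y).map (algebraMap (𝓞 k) k) := by
      rw [rl_form_eq, Polynomial.map_add, Polynomial.map_mul, hg₁]
      ring
    have h4 : minpoly k x ∣ (rl_gam g₁ y).map (algebraMap (𝓞 k) k) := by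
      rw [h3]
      exact dvd_sub h2 (Dvd.dvd.mul_right (Dvd.dvd.mul_left h1 _) _)
    have h5 : (rl_gam g₁ y).map (algebraMap (𝓞 k) k) = 0 := by
      apply eq_zero_of_dvd_of_degree_lt h4
      rw [degree_eq_natDegree (minpoly.ne_zero (Algebra.IsIntegral.isIntegral x)), hmn,
        degree_map_eq_of_injective hinj]
      refine (rl_degree_gam g₁ y).trans_le ?_
      rw [hdeg]
      exact_mod_cast hn
    have h6 : rl_gam g₁ y = 0 := by
      apply map_injective _ hinj
      rw [h5, Polynomial.map_zero]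
    have h7 := rl_coeff_gam (g := g₁) (by omega) y
    rw [h6, coeff_zero] at h7
    exact hy0 h7.symm

/-- forms with a common zero are proportional -/
theorem eq_smul_of_root (k : Type) [Field k] [NumberField k] (f f' : k[X]) (hf : Irreducible f)
    (hf' : Irreducible f') (x : AlgebraicClosure k) (hx : aeval x f = 0) (hx' : aeval x f' = 0) :
    ∃ c : k, f' = C c * f := by
  have h1 := minpoly.eq_of_irreducible hf hx
  have h2 := minpoly.eq_of_irreducible hf' hx'
  have h3 : f'.leadingCoeff ≠ 0 := leadingCoeff_ne_zero.2 hf'.ne_zero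
  refine ⟨f'.leadingCoeff * f.leadingCoeff⁻¹, ?_⟩
  have h4 : f' * C f'.leadingCoeff⁻¹ = f * C f.leadingCoeff⁻¹ := h2.trans h1.symm
  calc f' = f' * C f'.leadingCoeff⁻¹ * C f'.leadingCoeff := by
        rw [mul_assoc, ← C_mul, inv_mul_cancel₀ h3, C_1, mul_one]
    _ = f * C f.leadingCoeff⁻¹ * C f'.leadingCoeff := by rw [h4]
    _ = C (f'.leadingCoeff * f.leadingCoeff⁻¹) * f := by
        rw [C_mul]
        ring

end Pool.Agent.AAL
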