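import Pool.Agent.AAL.IntBox
import Pool.Agent.AAL.FormEst
import Pool.Agent.AAL.FormAlg
import Pool.Agent.AAL.BoundR
import Pool.Agent.AAL.RootL
import Pool.Agent.AAL.LocalF
import Pool.Agent.AAL.HtUp
import Pool.Agent.AAL.Arch
import Pool.Agent.AAL.PadicM
import Pool.Agent.AA.Upper

/-!
# The points given by the forms which are constant at the divisor
-/

set_option autoImplicit false

open Polynomial NumberField IntermediateField Module Pool.Agent.AA

namespace Pool.Agent.AAL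

/-- the points given by the forms of the box with fixed values at the divisor -/
theorem prop_int (k : Type) [Field k] [NumberField k] {r : ℕ} (p : Fin r → ℕ)
    [∀ t, Fact (p t).Prime] (hp : Function.Injective p) (g : k[X]) (hg : Squarefree g)
    (m : 𝓞 k) (hm : m ≠ 0) (g₁ : (𝓞 k)[X]) (hg₁ : g₁.map (algebraMap (𝓞 k) k) = C (m : k) * g)
    (q : ℕ) (hq : q = g.natDegree ∨ q = g.natDegree + 1) (hq2 : 2 ≤ q) (n : ℕ) (hn : q ≤ n)
    (l : ℕ) (y₀ : Fin (n + 1) → 𝓞 k) (Y : ℕ) :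
    ∃ C₁ C₂ R₀ : ℝ, 0 < C₁ ∧ 1 ≤ R₀ ∧ ∀ R : ℝ, R₀ ≤ R →
      ∀ y ∈ box0 (sm g₁.natDegree q n) (top g₁.natDegree q n) l y₀ R,
      Irreducible ((form g₁ y).map (algebraMap (𝓞 k) k)) → y 0 ≠ 0 → y (Fin.last n) ≠ 0 →
      Ideal.absNorm (form g₁ y).contentIdeal ≤ Y →
      ∀ x : AlgebraicClosure k, aeval x ((form g₁ y).map (algebraMap (𝓞 k) k)) = 0 →
        finrank k (IntermediateField.adjoin k {x}) = n ∧ aeval x g ≠ 0 ∧
          relHeight x ≤ C₁ * R ^ (finrank ℚ k : ℝ) ∧
          finrank ℚ k * q * Real.log R - C₂ ≤ finrank ℚ k * n * proximity p g q x := by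
  classical
  have hm' : (m : k) ≠ 0 := by exact_mod_cast hm
  have hg0 : g ≠ 0 := hg.ne_zero
  have hinj : Function.Injective (algebraMap (𝓞 k) k) := RingOfIntegers.coe_injective
  have hdeg : g₁.natDegree = g.natDegree := by
    rw [← natDegree_map_eq_of_injective hinj g₁, hg₁, natDegree_C_mul hm']
  have hg₁0 : g₁ ≠ 0 := by
    rintro rfl
    rw [Polynomial.map_zero] at hg₁
    exact mul_ne_zero (C_ne_zero.2 hm') hg0 hg₁.symm
  have hq1 : q = g₁.natDegree ∨ q = g₁.natDegree + 1 := by rw [hdeg]; exact hq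
  have hen : g₁.natDegree ≤ n := by omega
  obtain ⟨C, hC1, hC⟩ := coeff_form_le g₁ n
  obtain ⟨c, R₁, hc, hR₁, hcR⟩ := le_coeff_form g₁ hg₁0 n q hq1 hn l y₀ (1 / 2) (by norm_num)
    (by norm_num)
  obtain ⟨CR, hCR⟩ := lgR_le_gen k p g hg m hm g₁ hg₁ q hq n hn
  -- a bound for the base point
  obtain ⟨M, hM1, hM⟩ : ∃ M : ℝ, 1 ≤ M ∧ ∀ i (w : InfinitePlace k), w (y₀ i : k) ≤ M := by
    refine ⟨1 + ∑ i, ∑ w : InfinitePlace k, w (y₀ i : k), ?_, fun i w => ?_⟩
    · have : 0 ≤ ∑ i, ∑ w : InfinitePlace k, w (y₀ i : k) :=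
        Finset.sum_nonneg fun i _ => Finset.sum_nonneg fun w _ => apply_nonneg w _
      linarith
    · have h1 : w (y₀ i : k) ≤ ∑ w : InfinitePlace k, w (y₀ i : k) :=
        Finset.single_le_sum (f := fun w : InfinitePlace k => w (y₀ i : k))
          (fun w _ => apply_nonneg w _) (Finset.mem_univ w)
      have h2 : ∑ w : InfinitePlace k, w (y₀ i : k) ≤ ∑ i, ∑ w : InfinitePlace k, w (y₀ i : k) :=
        Finset.single_le_sum (f := fun i => ∑ w : InfinitePlace k, w (y₀ i : k))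
          (fun i _ => Finset.sum_nonneg fun w _ => apply_nonneg w _) (Finset.mem_univ i)
      linarith
  set d : ℝ := (finrank ℚ k : ℝ) with hd
  have hd0 : 0 < d := Nat.cast_pos.2 finrank_pos
  have hn0 : (0 : ℝ) < n := Nat.cast_pos.2 (by omega)
  set L0 : ℝ := (n : ℝ) * ((∑ ρ : k →+* ℂ, Real.log ‖ρ g.leadingCoeff‖) +
    ∑ t, ∑ ρ : k →+* ℂ_[p t], Real.log ‖ρ g.leadingCoeff‖) with hL0
  refine ⟨((n + 1) * C) ^ d, q * (Real.log (max 1 (Y : ℝ)) - d * Real.log (c / 2 ^ n)) +
    (d * q * Real.log M + CR) + L0, max R₁ (M ^ 2), by positivity,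
    hR₁.trans (le_max_left _ _), ?_⟩
  intro R hR y hy hirr hy0 hyn hcont x hx
  have hRR1 : R₁ ≤ R := (le_max_left _ _).trans hR
  have hRM : M ^ 2 ≤ R := (le_max_right _ _).trans hR
  have hR1 : 1 ≤ R := hR₁.trans hRR1
  have hRpos : 0 < R := by linarith
  obtain ⟨hy1, hy2, hy3, hy4⟩ := hy
  obtain ⟨hfin, hgx⟩ := root_form k g m hm g₁ hg₁ (by omega) (by omega) y hirr hy0 hyn x hx
  obtain ⟨hFdeg, -⟩ := natDegree_form g₁ hg₁0 hen y hyn
  set F := form g₁ y with hF
  have hF0 : F ≠ 0 := by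
    rintro h
    rw [h, natDegree_zero] at hFdeg
    omega
  refine ⟨hfin, hgx, ?_, ?_⟩
  · -- the height
    have h1 := relHeight_le n F x hfin hFdeg hF0 hx
    have h2 := lgM_le n F x hfin hFdeg hF0 hx (C * R) (by positivity) (hC y R hRpos.le hy3)
    refine h1.trans ?_
    have h3 : 0 < (n + 1) * C * R := by positivity
    calc Real.exp (lgM ℂ F x) ≤ Real.exp (d * Real.log ((n + 1) * (C * R))) :=
          Real.exp_le_exp.2 h2
      _ = ((n + 1) * C * R) ^ d := by
          rw [Real.rpow_def_of_pos h3, ← mul_assoc, mul_comm d]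
      _ = ((n + 1) * C) ^ d * R ^ d := Real.mul_rpow (by positivity) hRpos.le
  · -- the proximity
    have hbox : y ∈ box (sm g₁.natDegree q n) (top g₁.natDegree q n) l y₀ (1 / 2) R := by
      refine ⟨hy2, fun i w => ?_, hy4⟩
      split_ifs with hi
      · rw [hy1 i hi]
        refine (hM i w).trans ?_
        rw [← Real.sqrt_eq_rpow]
        exact Real.le_sqrt_of_sq_le hRM
      · exact hy3 i w
    have h1 := le_lgM n F x hfin hFdeg hF0 hx (c * R) (by positivity)
      (n - (q - g₁.natDegree)) (hcR R hRR1 y hbox)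
    have h2 := le_lgM_padic p hp n F x hfin hFdeg hF0 hx
    have h3 := hCR M hM1 y (fun i hi w => by rw [hy1 i hi]; exact hM i w) hyn
    have hcontpos : (0 : ℝ) < Ideal.absNorm F.contentIdeal := by
      refine Nat.cast_pos.2 (Nat.pos_of_ne_zero fun h => ?_)
      rw [Ideal.absNorm_eq_zero_iff] at h
      apply hF0
      ext i
      have h5 : F.coeff i ∈ F.contentIdeal := coeff_mem_contentIdeal F i
      rw [h] at h5
      simpa using h5
    have h4 : Real.log (Ideal.absNorm F.contentIdeal) ≤ Real.log (max 1 (Y : ℝ)) := by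
      refine Real.log_le_log hcontpos (le_trans ?_ (le_max_right _ _))
      exact_mod_cast hcont
    have h5 := local_formula ℂ g hg0 q hq n F x hfin hFdeg hF0 hx hgx
    have h6 := fun t => local_formula ℂ_[p t] g hg0 q hq n F x hfin hFdeg hF0 hx hgx
    have hfinQ : (finrank ℚ (IntermediateField.adjoin k {x}) : ℝ) = d * n := by
      rw [UpperAux.finrank_eq _ n hfin]
      push_cast
      rfl
    have h7 : d * n * proximity p g q x =
        q * (lgM ℂ F x + ∑ t, lgM ℂ_[p t] F x) - (lgR ℂ g q F + ∑ t, lgR ℂ_[p t] g q F) - L0 := by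
      rw [proximity, SST.proxK, hfinQ, mul_div_cancel₀ _ (by positivity), h5,
        Finset.sum_congr rfl fun t _ => h6 t, Finset.sum_sub_distrib, Finset.sum_sub_distrib,
        ← Finset.mul_sum, ← Finset.mul_sum, hL0]
      ring
    have h8 : d * Real.log (c * R / 2 ^ n) = d * Real.log (c / 2 ^ n) + d * Real.log R := by
      rw [mul_div_right_comm, Real.log_mul (by positivity) hRpos.ne']
      ring
    rw [h8] at h1
    have h9 : (q : ℝ) * (d * Real.log (c / 2 ^ n) + d * Real.log R - Real.log (max 1 (Y : ℝ))) ≤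
        q * (lgM ℂ F x + ∑ t, lgM ℂ_[p t] F x) :=
      mul_le_mul_of_nonneg_left (by linarith) (Nat.cast_nonneg q)
    rw [h7]
    nlinarith

end Pool.Agent.AAL
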