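import Pool.Agent.AAL.Arch
import Pool.Agent.AAL.BoundR
import Pool.Agent.AAL.FormAlg
import Pool.Agent.AAL.FormEst
import Pool.Agent.AAL.HtUp
import Pool.Agent.AAL.LocalF
import Pool.Agent.AAL.PadicM
import Pool.Agent.AAL.RootL

/-!
# The points given by the forms in the box
-/

set_option autoImplicit false

open Polynomial NumberField IntermediateField Module Pool.Agent.AA

namespace Pool.Agent.AAL

/-- the degree of `g` and of `g₁` -/
private theorem natDegree_aux {k : Type} [Field k] [NumberField k] (g : k[X]) (m : 𝓞 k)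
    (hm : m ≠ 0) (g₁ : (𝓞 k)[X]) (hg₁ : g₁.map (algebraMap (𝓞 k) k) = C (m : k) * g) :
    g₁.natDegree = g.natDegree := by
  have hinj : Function.Injective (algebraMap (𝓞 k) k) := FaithfulSMul.algebraMap_injective _ _
  have h1 : (g₁.map (algebraMap (𝓞 k) k)).natDegree = g₁.natDegree := natDegree_map_eq_of_injective hinj _
  have hm' : (m : k) ≠ 0 := by
    intro h
    exact hm (hinj (by rw [map_zero]; exact h))
  rw [← h1, hg₁, natDegree_C_mul hm']

/-- the points given by the forms in the box -/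
theorem prop_points (k : Type) [Field k] [NumberField k] {r : ℕ} (p : Fin r → ℕ)
    [∀ t, Fact (p t).Prime] (hp : Function.Injective p) (g : k[X]) (hg : Squarefree g)
    (m : 𝓞 k) (hm : m ≠ 0) (g₁ : (𝓞 k)[X]) (hg₁ : g₁.map (algebraMap (𝓞 k) k) = C (m : k) * g)
    (q : ℕ) (hq : q = g.natDegree ∨ q = g.natDegree + 1) (hq3 : 3 ≤ q) (n : ℕ) (hn : q ≤ n)
    (l : ℕ) (y₀ : Fin (n + 1) → 𝓞 k) (a : ℝ) (ha0 : 0 < a) (ha1 : a < 1) (Y : ℕ) :
    ∃ C₁ C₂ R₀ : ℝ, 0 < C₁ ∧ 1 ≤ R₀ ∧ ∀ R : ℝ, R₀ ≤ R →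
      ∀ y ∈ box (sm g₁.natDegree q n) (top g₁.natDegree q n) l y₀ a R,
      Irreducible ((form g₁ y).map (algebraMap (𝓞 k) k)) → y 0 ≠ 0 → y (Fin.last n) ≠ 0 →
      Ideal.absNorm (form g₁ y).contentIdeal ≤ Y →
      ∀ x : AlgebraicClosure k, aeval x ((form g₁ y).map (algebraMap (𝓞 k) k)) = 0 →
        finrank k (IntermediateField.adjoin k {x}) = n ∧ aeval x g ≠ 0 ∧
          relHeight x ≤ C₁ * R ^ (finrank ℚ k : ℝ) ∧
          finrank ℚ k * (q * (1 - a)) * Real.log R - C₂ ≤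
            finrank ℚ k * n * proximity p g q x := by
  have hinj : Function.Injective (algebraMap (𝓞 k) k) := FaithfulSMul.algebraMap_injective _ _
  have hdeg : g₁.natDegree = g.natDegree := natDegree_aux g m hm g₁ hg₁
  have he : 1 ≤ g.natDegree := by omega
  have hen : g.natDegree ≤ n := by omega
  have hen₁ : g₁.natDegree ≤ n := by omega
  have hg0 : g ≠ 0 := hg.ne_zero
  have hg₁0 : g₁ ≠ 0 := by
    rintro rfl
    simp only [natDegree_zero] at hdeg
    omega
  have hq₁ : q = g₁.natDegree ∨ q = g₁.natDegree + 1 := by rw [hdeg]; exact hq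
  obtain ⟨C, hC1, hC⟩ := coeff_form_le g₁ n
  obtain ⟨c, R₀, hc, hR₀, hcR⟩ := le_coeff_form g₁ hg₁0 n q hq₁ hn l y₀ a ha0 ha1
  obtain ⟨C', hC'⟩ := lgR_le k p g hg m hm g₁ hg₁ q hq n hn l y₀ a ha0 ha1
  set d : ℕ := finrank ℚ k with hd
  have hdpos : 0 < d := finrank_pos
  set K₀ : ℝ := (∑ ρ : k →+* ℂ, Real.log ‖ρ g.leadingCoeff‖) +
    ∑ t, ∑ ρ : k →+* ℂ_[p t], Real.log ‖ρ g.leadingCoeff‖ with hK₀
  refine ⟨((n + 1) * C) ^ d, -(q * (d * Real.log (c / 2 ^ n))) + q * Real.log Y + C' + n * K₀, R₀,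
    by positivity, hR₀, ?_⟩
  intro R hR y hy hirr hy0 hyn hY x hx
  have hR1 : 1 ≤ R := hR₀.trans hR
  have hRpos : 0 < R := one_pos.trans_le hR1
  obtain ⟨hfin, hgx⟩ := root_form k g m hm g₁ hg₁ he hen y hirr hy0 hyn x hx
  obtain ⟨hFn, hFlc⟩ := natDegree_form g₁ hg₁0 hen₁ y hyn
  have hF0 : form g₁ y ≠ 0 := by
    intro h
    rw [h, natDegree_zero] at hFn
    omega
  refine ⟨hfin, hgx, ?_, ?_⟩
  · -- the height
    have hw : ∀ i, ∀ w : InfinitePlace k, w (y i : k) ≤ R := by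
      intro i w
      refine (hy.2.1 i w).trans ?_
      split_ifs with h
      · exact (Real.rpow_le_rpow_of_exponent_le hR1 ha1.le).trans (by rw [Real.rpow_one])
      · exact le_rfl
    have h1 := relHeight_le n (form g₁ y) x hfin hFn hF0 hx
    have h2 := lgM_le n (form g₁ y) x hfin hFn hF0 hx (C * R) (by positivity)
      (fun i ρ => hC y R hRpos.le hw i ρ)
    refine h1.trans ((Real.exp_le_exp.mpr h2).trans (le_of_eq ?_))
    rw [mul_comm, Real.exp_mul, Real.exp_log (by positivity), ← mul_assoc, ← hd,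
      Real.mul_rpow (by positivity) hRpos.le, Real.rpow_natCast, Real.rpow_natCast]
  · -- the proximity
    have hfinK : (finrank ℚ (IntermediateField.adjoin k {x}) : ℝ) = d * n := by
      rw [← Module.finrank_mul_finrank ℚ k (IntermediateField.adjoin k {x}), hfin, ← hd]
      push_cast
      ring
    have hdn : (d : ℝ) * n ≠ 0 := by
      have : 0 < n := by omega
      positivity
    have hprox : (d : ℝ) * n * proximity p g q x =
        (q * lgM ℂ (form g₁ y) x - lgR ℂ g q (form g₁ y) -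
          n * ∑ ρ : k →+* ℂ, Real.log ‖ρ g.leadingCoeff‖) +
        ∑ t, (q * lgM ℂ_[p t] (form g₁ y) x - lgR ℂ_[p t] g q (form g₁ y) -
          n * ∑ ρ : k →+* ℂ_[p t], Real.log ‖ρ g.leadingCoeff‖) := by
      rw [proximity, SST.proxK, hfinK, mul_div_cancel₀ _ hdn,
        local_formula ℂ g hg0 q hq n (form g₁ y) x hfin hFn hF0 hx hgx]
      congr 1
      refine Finset.sum_congr rfl fun t _ => ?_
      rw [local_formula ℂ_[p t] g hg0 q hq n (form g₁ y) x hfin hFn hF0 hx hgx]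
    rw [hprox, Finset.sum_sub_distrib, Finset.sum_sub_distrib, ← Finset.mul_sum, ← Finset.mul_sum]
    have h3 := le_lgM n (form g₁ y) x hfin hFn hF0 hx (c * R) (by positivity)
      (n - (q - g₁.natDegree)) (hcR R hR y hy)
    have h4 := le_lgM_padic p hp n (form g₁ y) x hfin hFn hF0 hx
    have h5 := hC' R hR1 y hy hirr hy0 hyn
    have h6 : Real.log (Ideal.absNorm (form g₁ y).contentIdeal : ℝ) ≤ Real.log (Y : ℝ) := by
      rcases Nat.eq_zero_or_pos (Ideal.absNorm (form g₁ y).contentIdeal) with h | h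
      · rw [h, Nat.cast_zero, Real.log_zero]
        exact Real.log_natCast_nonneg Y
      · exact Real.log_le_log (by exact_mod_cast h) (by exact_mod_cast hY)
    have h7 : Real.log (c * R / 2 ^ n) = Real.log R + Real.log (c / 2 ^ n) := by
      rw [← Real.log_mul (by positivity) (by positivity)]
      congr 1
      ring
    rw [h7, ← hd] at h3
    have h8 : (q : ℝ) * (d * (Real.log R + Real.log (c / 2 ^ n))) ≤ q * lgM ℂ (form g₁ y) x :=
      mul_le_mul_of_nonneg_left h3 (Nat.cast_nonneg q)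
    have h9 : (q : ℝ) * (-Real.log (Y : ℝ)) ≤ q * ∑ t, lgM ℂ_[p t] (form g₁ y) x :=
      mul_le_mul_of_nonneg_left ((neg_le_neg h6).trans h4) (Nat.cast_nonneg q)
    have h10 : (d : ℝ) * (q * (1 - a)) * Real.log R = q * (d * (Real.log R)) -
        d * (q * a) * Real.log R := by ring
    rw [mul_add, mul_add] at h8
    rw [h10, hK₀, mul_add]
    linarith

end Pool.Agent.AAL
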