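import Mathlib
import Pool.Agent.AAL.Defs

/-!
# The tail of the Dedekind zeta series
-/

set_option autoImplicit false

open Polynomial NumberField IntermediateField Module Filter Topology

namespace Pool.Agent.AAL

private theorem tail_summable (F : Type) [Field F] [NumberField F] {s : ℂ} (hs : 1 < s.re) :
    LSeriesSummable (fun n => (Nat.card {I : Ideal (𝓞 F) // Ideal.absNorm I = n} : ℂ)) s := by
  have hT : Tendsto (fun n : ℕ => (∑ k ∈ Finset.Icc 1 n,
      (Nat.card {I : Ideal (𝓞 F) // Ideal.absNorm I = k} : ℝ)) / (n : ℝ)) atTop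
      (𝓝 (dedekindZeta_residue F)) := by
    refine ((Ideal.tendsto_norm_le_div_atTop₀ F).comp tendsto_natCast_atTop_atTop).congr
      fun n ↦ ?_
    simp only [Function.comp_apply, Nat.cast_le, ← Nat.cast_sum]
    congr
    rw [← add_left_inj 1, ← Ideal.card_norm_le_eq_card_norm_le_add_one,
      show Finset.Icc 1 n = Finset.Ioc 0 n from Finset.Icc_succ_left_eq_Ioc _ _,
      show 1 = Nat.card {I : Ideal (𝓞 F) // Ideal.absNorm I = 0} by
        simp [Ideal.absNorm_eq_zero_iff],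
      Finset.sum_Ioc_add_eq_sum_Icc (n.zero_le),
      ← Finset.card_preimage_eq_sum_card_image_eq
        (fun k _ ↦ Ideal.finite_setOfPred_absNorm_eq k)]
    simp [Set.coe_eq_subtype]
  have hO : (fun n : ℕ => ∑ k ∈ Finset.Icc 1 n,
      (Nat.card {I : Ideal (𝓞 F) // Ideal.absNorm I = k} : ℝ)) =O[atTop]
      fun n : ℕ => (n : ℝ) ^ (1 : ℝ) := by
    refine Asymptotics.isBigO_of_div_tendsto_nhds ?_ (dedekindZeta_residue F) ?_
    · filter_upwards [eventually_ne_atTop 0] with n hn h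
      exfalso
      rw [Real.rpow_one] at h
      exact hn (by exact_mod_cast h)
    · refine hT.congr fun n => ?_
      simp
  exact_mod_cast LSeriesSummable_of_sum_norm_bigO_and_nonneg hO (fun _ => Nat.cast_nonneg _)
    zero_le_one hs

theorem ideal_tail (k : Type) [Field k] [NumberField k] (s : ℝ) (hs : 1 < s) (ϑ : ℝ)
    (hϑ : 0 < ϑ) : ∃ Y : ℕ, 1 ≤ Y ∧ ∀ T : Finset (Ideal (𝓞 k)),
      (∀ 𝔠 ∈ T, Y ≤ Ideal.absNorm 𝔠) → ∑ 𝔠 ∈ T, (Ideal.absNorm 𝔠 : ℝ) ^ (-s) ≤ ϑ := by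
  classical
  have h1 := tail_summable k (s := (s : ℂ)) (by rwa [Complex.ofReal_re])
  have h2 := h1.norm
  rw [summable_iff_vanishing_norm] at h2
  obtain ⟨F, hF⟩ := h2 ϑ hϑ
  refine ⟨F.sup id + 1, by omega, fun T hT => ?_⟩
  have hdisj : Disjoint (T.image fun 𝔠 => Ideal.absNorm 𝔠) F := by
    rw [Finset.disjoint_left]
    intro n hn hnF
    obtain ⟨𝔠, h𝔠, rfl⟩ := Finset.mem_image.1 hn
    have h3 : id (Ideal.absNorm 𝔠) ≤ F.sup id := Finset.le_sup hnF
    have h4 := hT 𝔠 h𝔠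
    simp only [id] at h3
    omega
  have h3 := hF _ hdisj
  rw [Real.norm_of_nonneg (Finset.sum_nonneg fun _ _ => norm_nonneg _)] at h3
  refine le_trans ?_ h3.le
  rw [← Finset.sum_fiberwise_of_maps_to (s := T) (t := T.image fun 𝔠 => Ideal.absNorm 𝔠)
    (g := fun 𝔠 => Ideal.absNorm 𝔠) (fun 𝔠 h𝔠 => Finset.mem_image_of_mem _ h𝔠)]
  refine Finset.sum_le_sum fun n hn => ?_
  have hn0 : n ≠ 0 := by
    obtain ⟨𝔠, h𝔠, rfl⟩ := Finset.mem_image.1 hn
    have h4 := hT 𝔠 h𝔠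
    omega
  have h5 : ∑ 𝔠 ∈ T with Ideal.absNorm 𝔠 = n, (Ideal.absNorm 𝔠 : ℝ) ^ (-s) =
      ((T.filter fun 𝔠 => Ideal.absNorm 𝔠 = n).card : ℝ) * (n : ℝ) ^ (-s) := by
    rw [← nsmul_eq_mul, ← Finset.sum_const]
    refine Finset.sum_congr rfl fun 𝔠 h𝔠 => ?_
    rw [(Finset.mem_filter.1 h𝔠).2]
  rw [h5, LSeries.norm_term_eq, if_neg hn0, Complex.ofReal_re, Complex.norm_natCast,
    Real.rpow_neg (Nat.cast_nonneg n), div_eq_mul_inv]
  refine mul_le_mul_of_nonneg_right ?_ (by positivity)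
  have hfin : Finite {I : Ideal (𝓞 k) // Ideal.absNorm I = n} :=
    Ideal.finite_setOfPred_absNorm_eq n
  have h6 := Nat.card_le_card_of_injective
    (fun x : {x // x ∈ T.filter fun 𝔠 => Ideal.absNorm 𝔠 = n} =>
      (⟨x.1, (Finset.mem_filter.1 x.2).2⟩ : {I : Ideal (𝓞 k) // Ideal.absNorm I = n}))
    (fun x y h => Subtype.ext (Subtype.mk.inj h))
  rw [Nat.card_eq_fintype_card, Fintype.card_coe] at h6
  exact_mod_cast h6

end Pool.Agent.AAL
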