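import Pool.Agent.AAL.SmallId
import Pool.Agent.AAL.Tail
import Pool.Agent.AAL.FormAlg
import Mathlib.Data.Set.Card.Arithmetic

/-!
# Few forms have a large content
-/

set_option autoImplicit false

open Polynomial NumberField IntermediateField Module Pool.Agent.AA

namespace Pool.Agent.AAL

/-- the norm of a small element -/
private theorem absNorm_le_of_small {k : Type} [Field k] [NumberField k] (y : 𝓞 k) (R : ℝ)
    (h : ∀ w : InfinitePlace k, w (y : k) ≤ R) :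
    (Ideal.absNorm (Ideal.span {y}) : ℝ) ≤ R ^ finrank ℚ k := by
  have h1 : (Ideal.absNorm (Ideal.span {y}) : ℝ) = ∏ w : InfinitePlace k, w (y : k) ^ w.mult := by
    rw [Ideal.absNorm_span_singleton, InfinitePlace.prod_eq_abs_norm]
    have h2 : Algebra.norm ℚ (y : k) = ((Algebra.norm ℤ y : ℤ) : ℚ) := (Algebra.coe_norm_int y).symm
    rw [h2, Nat.cast_natAbs]
    push_cast
    rfl
  rw [h1, ← InfinitePlace.sum_mult_eq, ← Finset.prod_pow_eq_pow_sum]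
  exact Finset.prod_le_prod (fun w _ => by positivity)
    fun w _ => pow_le_pow_left₀ (apply_nonneg w _) (h w) _

theorem sieve (k : Type) [Field k] [NumberField k] (g : (𝓞 k)[X]) (hg : g ≠ 0) {n : ℕ}
    (hn : g.natDegree ≤ n) (T : Finset (Fin (n + 1))) (i₀ : Fin (n + 1)) (hi₀ : i₀ ∉ T) (l : ℕ)
    (y₀ : Fin (n + 1) → 𝓞 k) (a : ℝ) (ha0 : 0 < a) (ha1 : a ≤ 1)
    (hs : 1 < (n : ℝ) + 1 - T.card + a * T.card) (ϑ : ℝ) (hϑ : 0 < ϑ) :
    ∃ Y : ℕ, 1 ≤ Y ∧ ∀ R : ℝ, 1 ≤ R →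
      ({y ∈ box T i₀ l y₀ a R | Y ≤ Ideal.absNorm (form g y).contentIdeal}.ncard : ℝ) ≤
        ϑ * R ^ ((finrank ℚ k : ℝ) * (n + 1 - T.card + a * T.card)) := by
  classical
  set s : ℝ := (n : ℝ) + 1 - T.card + a * T.card with hsdef
  set d := finrank ℚ k with hd
  set M : 𝓞 k := g.leadingCoeff ^ (n + 1) with hMdef
  have hM : M ≠ 0 := pow_ne_zero _ (leadingCoeff_ne_zero.2 hg)
  obtain ⟨C₀, hC₀, hcard⟩ := card_ideal_le k M hM
  set P : ℝ := (Ideal.absNorm (Ideal.span {M}) : ℝ) with hP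
  have hP1 : 1 ≤ P := by
    have h1 : Ideal.absNorm (Ideal.span {M}) ≠ 0 := by
      rw [Ne, Ideal.absNorm_eq_zero_iff, Ideal.span_singleton_eq_bot]
      exact hM
    rw [hP]
    exact_mod_cast Nat.one_le_iff_ne_zero.2 h1
  have hP0 : 0 < P := by linarith
  have hC0 : 0 < C₀ := by linarith
  obtain ⟨Y, hY1, hY⟩ := ideal_tail k s hs (ϑ / (C₀ ^ (n + 1) * P ^ s)) (by positivity)
  refine ⟨Y, hY1, fun R hR => ?_⟩
  have hR0 : 0 < R := by linarith
  -- the ideals which occur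
  have hfinI : {𝔠 : Ideal (𝓞 k) | Y ≤ Ideal.absNorm 𝔠 ∧ (Ideal.absNorm 𝔠 : ℝ) ≤ P * R ^ d}.Finite := by
    refine (Ideal.finite_setOfPred_absNorm_le (S := 𝓞 k) ⌊P * R ^ d⌋₊).subset fun 𝔠 h𝔠 => ?_
    exact Nat.le_floor h𝔠.2
  set I : Finset (Ideal (𝓞 k)) := hfinI.toFinset with hI
  have hmemI : ∀ 𝔠 ∈ I, Y ≤ Ideal.absNorm 𝔠 ∧ (Ideal.absNorm 𝔠 : ℝ) ≤ P * R ^ d := fun 𝔠 h =>
    hfinI.mem_toFinset.1 h
  have hbot : ∀ 𝔠 ∈ I, 𝔠 ≠ ⊥ := by
    rintro 𝔠 h rfl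
    have h1 := (hmemI _ h).1
    rw [Ideal.absNorm_bot] at h1
    omega
  set ρ : Fin (n + 1) → ℝ := fun i => if i ∈ T then R ^ a else R with hρ
  have hρ0 : ∀ i, 0 ≤ ρ i := by
    intro i
    simp only [hρ]
    split_ifs <;> positivity
  set S : Ideal (𝓞 k) → Fin (n + 1) → Set (𝓞 k) := fun 𝔠 i =>
    {z : 𝓞 k | (∀ w : InfinitePlace k, w (z : k) ≤ ρ i) ∧ M * z ∈ 𝔠} with hS
  have hcover : {y ∈ box T i₀ l y₀ a R | Y ≤ Ideal.absNorm (form g y).contentIdeal} ⊆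
      ⋃ 𝔠 ∈ I, Set.univ.pi (S 𝔠) := by
    intro y hy
    obtain ⟨⟨hy1, hy2, hy3⟩, hy4⟩ := hy
    have hne : y i₀ ≠ 0 := by
      intro h0
      obtain ⟨w⟩ := (inferInstance : Nonempty (InfinitePlace k))
      have h1 := hy3 w
      rw [h0] at h1
      simp at h1
      linarith
    have hmem := fun i => mem_content g hg hn y i
    rw [Set.mem_iUnion₂]
    refine ⟨(form g y).contentIdeal, ?_, fun i _ => ⟨hy2 i, hmem i⟩⟩
    rw [hI, hfinI.mem_toFinset]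
    refine ⟨hy4, ?_⟩
    have h1 : Ideal.absNorm (form g y).contentIdeal ∣ Ideal.absNorm (Ideal.span {M * y i₀}) :=
      Ideal.absNorm_dvd_absNorm_of_le ((Ideal.span_singleton_le_iff_mem _).2 (hmem i₀))
    have h2 : Ideal.absNorm (Ideal.span {M * y i₀}) ≠ 0 := by
      rw [Ne, Ideal.absNorm_eq_zero_iff, Ideal.span_singleton_eq_bot]
      exact mul_ne_zero hM hne
    have h3 : (Ideal.absNorm (form g y).contentIdeal : ℝ) ≤
        (Ideal.absNorm (Ideal.span {M * y i₀}) : ℝ) := by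
      exact_mod_cast Nat.le_of_dvd (Nat.pos_of_ne_zero h2) h1
    have h4 : (Ideal.absNorm (Ideal.span {M * y i₀}) : ℝ) =
        P * (Ideal.absNorm (Ideal.span {y i₀}) : ℝ) := by
      rw [← Ideal.span_singleton_mul_span_singleton, map_mul, Nat.cast_mul]
    rw [h4] at h3
    refine h3.trans (mul_le_mul_of_nonneg_left (absNorm_le_of_small _ _ fun w => ?_) hP0.le)
    have h5 := hy2 i₀ w
    rwa [if_neg hi₀] at h5
  -- the number of the forms with a given content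
  have hone : ∀ 𝔠 ∈ I, (Set.univ.pi (S 𝔠)).Finite ∧ ((Set.univ.pi (S 𝔠)).ncard : ℝ) ≤
      C₀ ^ (n + 1) * P ^ s * R ^ ((d : ℝ) * s) * (Ideal.absNorm 𝔠 : ℝ) ^ (-s) := by
    intro 𝔠 h𝔠
    have hN1 : (1 : ℝ) ≤ Ideal.absNorm 𝔠 := by exact_mod_cast hY1.trans (hmemI 𝔠 h𝔠).1
    have hN2 := (hmemI 𝔠 h𝔠).2
    set N : ℝ := (Ideal.absNorm 𝔠 : ℝ) with hN
    have hN0 : 0 < N := by linarith
    have hfin : ∀ i, (S 𝔠 i).Finite := fun i => (hcard 𝔠 (hbot 𝔠 h𝔠) (ρ i) (hρ0 i)).1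
    refine ⟨Set.Finite.pi' hfin |>.subset fun y hy i => hy i (Set.mem_univ i), ?_⟩
    have hQ1 : 1 ≤ P * R ^ d / N := by rwa [one_le_div hN0]
    set Q : ℝ := P * R ^ d / N with hQ
    have hQ0 : 0 < Q := by linarith
    have hRd : (1 : ℝ) ≤ R ^ d := one_le_pow₀ hR
    have hle : ∀ i, ((S 𝔠 i).ncard : ℝ) ≤ C₀ * Q ^ (if i ∈ T then a else 1) := by
      intro i
      refine (hcard 𝔠 (hbot 𝔠 h𝔠) (ρ i) (hρ0 i)).2.trans
        (mul_le_mul_of_nonneg_left (max_le ?_ ?_) hC0.le)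
      · refine Real.one_le_rpow hQ1 ?_
        split_ifs <;> linarith
      · simp only [hρ]
        split_ifs with hi
        · have h1 : (R ^ a) ^ d = (R ^ d) ^ a := by
            rw [← Real.rpow_natCast (R ^ a) d, ← Real.rpow_natCast R d, ← Real.rpow_mul hR0.le,
              ← Real.rpow_mul hR0.le, mul_comm]
          rw [h1, hQ, Real.div_rpow (by positivity) hN0.le, Real.mul_rpow hP0.le (by positivity)]
          have h2 : N ^ a ≤ N := by
            calc N ^ a ≤ N ^ (1 : ℝ) := Real.rpow_le_rpow_of_exponent_le hN1 ha1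
              _ = N := Real.rpow_one N
          have h3 : 1 ≤ P ^ a := Real.one_le_rpow hP1 ha0.le
          have h4 : 0 < (R ^ d) ^ a := by positivity
          refine div_le_div₀ (by positivity) ?_ (by positivity) h2
          nlinarith
        · rw [Real.rpow_one, hQ]
          refine div_le_div_of_nonneg_right ?_ hN0.le
          nlinarith
    have hprod : ((Set.univ.pi (S 𝔠)).ncard : ℝ) = ∏ i, ((S 𝔠 i).ncard : ℝ) := by
      have h1 : Set.univ.pi (S 𝔠) =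
          ((Fintype.piFinset fun i => (hfin i).toFinset : Finset (Fin (n + 1) → 𝓞 k)) : Set _) := by
        ext y
        simp
      rw [h1, Set.ncard_coe_finset, Fintype.card_piFinset, Nat.cast_prod]
      refine Finset.prod_congr rfl fun i _ => ?_
      rw [Set.ncard_eq_toFinset_card _ (hfin i)]
    rw [hprod]
    have hsum : ∑ i : Fin (n + 1), (if i ∈ T then a else (1 : ℝ)) = s := by
      rw [Finset.sum_ite, Finset.sum_const, Finset.sum_const, nsmul_eq_mul, nsmul_eq_mul]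
      have h1 : (Finset.univ.filter fun i => i ∈ T) = T := by ext i; simp
      have h2 : (Finset.univ.filter fun i => i ∉ T).card + T.card = n + 1 := by
        have h3 := Finset.card_filter_add_card_filter_not (s := (Finset.univ : Finset (Fin (n + 1))))
          (fun i => i ∈ T)
        rw [h1, Finset.card_univ, Fintype.card_fin] at h3
        omega
      have h4 : (((Finset.univ.filter fun i => i ∉ T).card : ℕ) : ℝ) = (n : ℝ) + 1 - T.card := by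
        have : (((Finset.univ.filter fun i => i ∉ T).card : ℕ) : ℝ) + (T.card : ℝ) =
          (n : ℝ) + 1 := by exact_mod_cast h2
        linarith
      rw [h1, h4, hsdef]
      ring
    calc ∏ i, ((S 𝔠 i).ncard : ℝ) ≤ ∏ i : Fin (n + 1), (C₀ * Q ^ (if i ∈ T then a else (1 : ℝ))) :=
          Finset.prod_le_prod (fun i _ => Nat.cast_nonneg _) fun i _ => hle i
      _ = C₀ ^ (n + 1) * Q ^ s := by
          rw [Finset.prod_mul_distrib, Finset.prod_const, Finset.card_univ, Fintype.card_fin,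
            ← Real.rpow_sum_of_pos hQ0, hsum]
      _ = C₀ ^ (n + 1) * P ^ s * R ^ ((d : ℝ) * s) * N ^ (-s) := by
          rw [hQ, Real.div_rpow (by positivity) hN0.le, Real.mul_rpow hP0.le (by positivity),
            ← Real.rpow_natCast R d, ← Real.rpow_mul hR0.le, Real.rpow_neg hN0.le]
          ring
  -- the sum
  have hfinU : (⋃ 𝔠 ∈ I, Set.univ.pi (S 𝔠)).Finite :=
    Set.Finite.biUnion I.finite_toSet fun 𝔠 h𝔠 => (hone 𝔠 h𝔠).1
  have hncU : (⋃ 𝔠 ∈ I, Set.univ.pi (S 𝔠)).ncard ≤ ∑ 𝔠 ∈ I, (Set.univ.pi (S 𝔠)).ncard :=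
    Finset.set_ncard_biUnion_le I fun 𝔠 => Set.univ.pi (S 𝔠)
  calc ({y ∈ box T i₀ l y₀ a R | Y ≤ Ideal.absNorm (form g y).contentIdeal}.ncard : ℝ)
      ≤ ((⋃ 𝔠 ∈ I, Set.univ.pi (S 𝔠)).ncard : ℝ) := by
        exact_mod_cast Set.ncard_le_ncard hcover hfinU
    _ ≤ ((∑ 𝔠 ∈ I, (Set.univ.pi (S 𝔠)).ncard : ℕ) : ℝ) := by exact_mod_cast hncU
    _ = ∑ 𝔠 ∈ I, ((Set.univ.pi (S 𝔠)).ncard : ℝ) := by push_cast; rfl
    _ ≤ ∑ 𝔠 ∈ I, C₀ ^ (n + 1) * P ^ s * R ^ ((d : ℝ) * s) * (Ideal.absNorm 𝔠 : ℝ) ^ (-s) :=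
        Finset.sum_le_sum fun 𝔠 h𝔠 => (hone 𝔠 h𝔠).2
    _ = C₀ ^ (n + 1) * P ^ s * R ^ ((d : ℝ) * s) * ∑ 𝔠 ∈ I, (Ideal.absNorm 𝔠 : ℝ) ^ (-s) := by
        rw [Finset.mul_sum]
    _ ≤ C₀ ^ (n + 1) * P ^ s * R ^ ((d : ℝ) * s) * (ϑ / (C₀ ^ (n + 1) * P ^ s)) :=
        mul_le_mul_of_nonneg_left (hY I fun 𝔠 h𝔠 => (hmemI 𝔠 h𝔠).1) (by positivity)
    _ = ϑ * R ^ ((d : ℝ) * s) := by
        field_simp

end Pool.Agent.AAL
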