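import Pool.Agent.AAL.Irr
import Pool.Agent.AAL.BoxLow
import Pool.Agent.AAL.FormAlg
import Pool.Agent.AAL.Sieve
import Pool.Agent.AAL.FibreL
import Pool.Agent.AAL.RootL
import Pool.Agent.AAL.PropL
import Pool.Agent.AA.Upper

/-!
# The lower bound for all number fields and all divisors
-/

set_option autoImplicit false

open Polynomial NumberField IntermediateField Module Pool.Agent.AA

namespace Pool.Agent.AAL

private theorem exists_integral_form (k : Type) [Field k] [NumberField k] (g : k[X]) :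
    ∃ m : 𝓞 k, m ≠ 0 ∧ ∃ g₁ : (𝓞 k)[X], g₁.map (algebraMap (𝓞 k) k) = C (m : k) * g := by
  obtain ⟨b, hb, h⟩ := IsLocalization.integerNormalization_spec (nonZeroDivisors (𝓞 k)) g
  refine ⟨b, nonZeroDivisors.ne_zero hb,
    IsLocalization.integerNormalization (nonZeroDivisors (𝓞 k)) g, ?_⟩
  rw [h]
  ext i
  rw [coeff_smul, coeff_C_mul, Algebra.smul_def]

theorem lower_gen (k : Type) [Field k] [NumberField k] {r : ℕ} (p : Fin r → ℕ)
    [∀ t, Fact (p t).Prime] (hp : Function.Injective p) (g : k[X]) (hg : Squarefree g) (q : ℕ)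
    (hq : q = g.natDegree ∨ q = g.natDegree + 1) (hq3 : 3 ≤ q) (n : ℕ) (hn : q ≤ n) (δ η : ℝ)
    (hδ : 0 ≤ δ) (hδq : δ < q - 2) (hη : 0 < η) : ∃ c B₀ : ℝ, 0 < c ∧ ∀ B : ℝ, B₀ ≤ B →
    ∃ S : Finset (AlgebraicClosure k), c * B ^ ((n : ℝ) - 1 - δ - η) ≤ (S.card : ℝ) ∧
      ∀ x ∈ S, finrank k (IntermediateField.adjoin k {x}) = n ∧ relHeight x ≤ B ∧
        aeval x g ≠ 0 ∧ (2 + δ) * height x ≤ proximity p g q x := by
  classical
  obtain ⟨m, hm, g₁, hg₁⟩ := exists_integral_form k g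
  have hinj : Function.Injective (algebraMap (𝓞 k) k) := FaithfulSMul.algebraMap_injective _ _
  have hmk : (m : k) ≠ 0 := by
    intro h
    exact hm (by exact_mod_cast h)
  have hdeg : g₁.natDegree = g.natDegree := by
    rw [← natDegree_map_eq_of_injective hinj g₁, hg₁, natDegree_C_mul hmk]
  have hg₁0 : g₁ ≠ 0 := by
    rintro rfl
    rw [natDegree_zero] at hdeg
    omega
  have hq' : q = g₁.natDegree ∨ q = g₁.natDegree + 1 := by rw [hdeg]; exact hq
  -- the parameters
  set d : ℕ := finrank ℚ k with hd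
  have hd0 : (0 : ℝ) < d := Nat.cast_pos.2 finrank_pos
  have hqr : (3 : ℝ) ≤ q := by exact_mod_cast hq3
  have hnq : (q : ℝ) ≤ n := by exact_mod_cast hn
  have hq0 : (0 : ℝ) < q := by linarith
  set δ₁ : ℝ := δ + min η ((q - 2 - δ) / 2) with hδ₁
  have hmin : 0 < min η ((q - 2 - δ) / 2) := lt_min hη (by linarith)
  have h1 : δ < δ₁ := by linarith
  have h2 : δ₁ ≤ δ + η := by
    have := min_le_left η ((q - 2 - δ) / 2)
    linarith
  have h3 : δ₁ < q - 2 := by
    have := min_le_right η ((q - 2 - δ) / 2)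
    linarith
  set a : ℝ := 1 - (2 + δ₁) / q with ha
  have hqa : q * (1 - a) = 2 + δ₁ := by
    rw [ha]
    field_simp
    ring
  have ha1 : a < 1 := by
    have : 0 < (2 + δ₁) / q := by apply div_pos <;> linarith
    linarith
  have ha0 : 0 < a := by
    have : (2 + δ₁) / q < 1 := by rw [div_lt_one hq0]; linarith
    linarith
  obtain ⟨l, hl, y₀, hirr⟩ := exists_irr k g₁ hg₁0 n (by omega) (by omega)
  obtain ⟨hcard, htop⟩ := card_sm g₁.natDegree q n hq' hn
  set T := sm g₁.natDegree q n with hT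
  set i₀ := top g₁.natDegree q n with hi₀
  set s : ℝ := (n : ℝ) + 1 - T.card + a * T.card with hs
  have hs' : s = n - 1 - δ₁ := by
    rw [hs, hcard]
    linarith
  obtain ⟨c, R₁, hc, hR₁, hcount⟩ := le_card_box k T i₀ htop l hl y₀ a ha0 ha1.le
  obtain ⟨Y, hY1, hsieve⟩ := sieve k g₁ hg₁0 (n := n) (by omega) T i₀ htop l y₀ a ha0 ha1.le
    (by rw [← hs, hs']; linarith) (c / 2) (by linarith)
  obtain ⟨N, hN⟩ := fibre_le k g₁ hg₁0 (n := n) (by omega) Y
  obtain ⟨C₁, C₂, R₂, hC₁, hR₂, hprop⟩ := prop_points k p hp g hg m hm g₁ hg₁ q hq hq3 n hn l y₀ a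
    ha0 ha1 Y
  -- the count for a box
  have hbox : ∀ R : ℝ, R₁ ≤ R → R₂ ≤ R → ∃ S : Finset (AlgebraicClosure k),
      c / 2 / (N + 1) * R ^ ((d : ℝ) * s) ≤ (S.card : ℝ) ∧
      ∀ x ∈ S, finrank k (IntermediateField.adjoin k {x}) = n ∧ aeval x g ≠ 0 ∧
          relHeight x ≤ C₁ * R ^ (d : ℝ) ∧
          d * (2 + δ₁) * Real.log R - C₂ ≤ d * n * proximity p g q x := by
    intro R hR1 hR2
    have hR : 1 ≤ R := hR₁.trans hR1
    have hbf : (box T i₀ l y₀ a R).Finite := box_finite k T i₀ l y₀ a R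
    set G : Finset (Fin (n + 1) → 𝓞 k) := hbf.toFinset.filter
      (fun y => Ideal.absNorm (form g₁ y).contentIdeal < Y) with hG
    have hGmem : ∀ y, y ∈ G ↔ y ∈ box T i₀ l y₀ a R ∧
        Ideal.absNorm (form g₁ y).contentIdeal < Y := by
      intro y
      rw [hG, Finset.mem_filter, Set.Finite.mem_toFinset]
    have hGcard : c / 2 * R ^ ((d : ℝ) * s) ≤ (G.card : ℝ) := by
      have e1 := hcount R hR1
      have e2 := hsieve R hR
      rw [← hs, ← hd] at e1 e2
      have e3 : (box T i₀ l y₀ a R).ncard =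
          G.card + {y ∈ box T i₀ l y₀ a R | Y ≤ Ideal.absNorm (form g₁ y).contentIdeal}.ncard := by
        have e4 : {y ∈ box T i₀ l y₀ a R | Y ≤ Ideal.absNorm (form g₁ y).contentIdeal}.ncard =
            (hbf.toFinset.filter
              (fun y => ¬ Ideal.absNorm (form g₁ y).contentIdeal < Y)).card := by
          rw [← Set.ncard_coe_finset]
          congr 1
          ext y
          simp
        rw [e4, hG, Set.ncard_eq_toFinset_card _ hbf, Finset.card_filter_add_card_filter_not]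
      have e5 : ((box T i₀ l y₀ a R).ncard : ℝ) = G.card +
          ({y ∈ box T i₀ l y₀ a R |
            Y ≤ Ideal.absNorm (form g₁ y).contentIdeal}.ncard : ℝ) := by
        exact_mod_cast e3
      linarith
    -- a root of every form
    have hroot : ∀ y : Fin (n + 1) → 𝓞 k, ∃ x : AlgebraicClosure k,
        y ∈ box T i₀ l y₀ a R → aeval x ((form g₁ y).map (algebraMap (𝓞 k) k)) = 0 := by
      intro y
      by_cases hy : y ∈ box T i₀ l y₀ a R
      · obtain ⟨x, hx⟩ := IsAlgClosed.exists_aeval_eq_zero (AlgebraicClosure k)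
          ((form g₁ y).map (algebraMap (𝓞 k) k)) (hirr y hy.1).1.degree_pos.ne'
        exact ⟨x, fun _ => hx⟩
      · exact ⟨0, fun h => absurd h hy⟩
    choose f hf using hroot
    refine ⟨G.image f, ?_, ?_⟩
    · have hfib : ∀ x ∈ G.image f, (G.filter (fun y => f y = x)).card ≤ N + 1 := by
        intro x hx
        obtain ⟨y, hy, rfl⟩ := Finset.mem_image.1 hx
        obtain ⟨hy1, hy2⟩ := (hGmem y).1 hy
        have e1 := hN T i₀ l y₀ a R (by linarith) y hy1 htop hy2.le
        have e2 : (G.filter (fun y' => f y' = f y)).card ≤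
            {y' ∈ box T i₀ l y₀ a R | ∃ c : k, (form g₁ y').map (algebraMap (𝓞 k) k) =
              C c * (form g₁ y).map (algebraMap (𝓞 k) k)}.ncard := by
          rw [← Set.ncard_coe_finset]
          refine Set.ncard_le_ncard ?_ (hbf.subset (fun z hz => hz.1))
          intro y' hy'
          rw [Finset.mem_coe, Finset.mem_filter] at hy'
          obtain ⟨hy'1, hy'2⟩ := hy'
          have hb' := ((hGmem y').1 hy'1).1
          refine ⟨hb', ?_⟩
          have e3 := hf y' hb'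
          rw [hy'2] at e3
          exact eq_smul_of_root k _ _ (hirr y hy1.1).1 (hirr y' hb'.1).1 (f y) (hf y hy1) e3
        omega
      have e3 := Finset.card_le_mul_card_image G (N + 1) hfib
      have e4 : (G.card : ℝ) ≤ ((N : ℝ) + 1) * ((G.image f).card : ℝ) := by exact_mod_cast e3
      have hN0 : (0 : ℝ) < (N : ℝ) + 1 := by positivity
      rw [div_mul_eq_mul_div, div_le_iff₀ hN0]
      linarith
    · intro x hx
      obtain ⟨y, hy, rfl⟩ := Finset.mem_image.1 hx
      obtain ⟨hy1, hy2⟩ := (hGmem y).1 hy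
      obtain ⟨i1, i2, i3⟩ := hirr y hy1.1
      obtain ⟨j1, j2, j3, j4⟩ := hprop R hR2 y hy1 i1 i2 i3 hy2.le (f y) (hf y hy1)
      refine ⟨j1, j2, j3, ?_⟩
      rw [hqa] at j4
      exact j4
  -- the choice of the box
  set L₀ : ℝ := (C₂ + (2 + δ) * Real.log C₁) / (d * (δ₁ - δ)) with hL₀
  set R₃ : ℝ := max (max R₁ R₂) (Real.exp L₀) with hR₃
  have hR₃1 : 1 ≤ R₃ := hR₁.trans ((le_max_left _ _).trans (le_max_left _ _))
  have hN0 : (0 : ℝ) < (N : ℝ) + 1 := by positivity
  refine ⟨c / 2 / (N + 1) * C₁ ^ (-s), max 1 (C₁ * R₃ ^ (d : ℝ)), by positivity, ?_⟩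
  intro B hB
  have hB1 : 1 ≤ B := (le_max_left _ _).trans hB
  have hB2 : C₁ * R₃ ^ (d : ℝ) ≤ B := (le_max_right _ _).trans hB
  have hB0 : 0 < B := by linarith
  set R : ℝ := (B / C₁) ^ (1 / (d : ℝ)) with hR
  have hBC : 0 < B / C₁ := div_pos hB0 hC₁
  have hRd : R ^ (d : ℝ) = B / C₁ := by
    rw [hR, ← Real.rpow_mul hBC.le, one_div, inv_mul_cancel₀ hd0.ne', Real.rpow_one]
  have hRge : R₃ ≤ R := by
    have e1 : R₃ = (R₃ ^ (d : ℝ)) ^ (1 / (d : ℝ)) := by
      rw [← Real.rpow_mul (by linarith), mul_one_div, div_self hd0.ne', Real.rpow_one]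
    rw [e1, hR]
    refine Real.rpow_le_rpow (Real.rpow_nonneg (by linarith) _) ?_ (by positivity)
    rw [le_div_iff₀ hC₁]
    linarith
  have hRpos : 0 < R := by linarith
  obtain ⟨S, hS1, hS2⟩ := hbox R
    (((le_max_left _ _).trans (le_max_left _ _)).trans hRge)
    (((le_max_right _ _).trans (le_max_left _ _)).trans hRge)
  refine ⟨S, ?_, ?_⟩
  · have e1 : R ^ ((d : ℝ) * s) = C₁ ^ (-s) * B ^ s := by
      rw [Real.rpow_mul hRpos.le, hRd, Real.div_rpow hB0.le hC₁.le, Real.rpow_neg hC₁.le]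
      ring
    have e2 : B ^ ((n : ℝ) - 1 - δ - η) ≤ B ^ s :=
      Real.rpow_le_rpow_of_exponent_le hB1 (by rw [hs']; linarith)
    calc c / 2 / (N + 1) * C₁ ^ (-s) * B ^ ((n : ℝ) - 1 - δ - η)
        ≤ c / 2 / (N + 1) * C₁ ^ (-s) * B ^ s := mul_le_mul_of_nonneg_left e2 (by positivity)
      _ = c / 2 / (N + 1) * R ^ ((d : ℝ) * s) := by rw [e1]; ring
      _ ≤ _ := hS1
  · intro x hx
    obtain ⟨j1, j2, j3, j4⟩ := hS2 x hx
    have hxB : relHeight x ≤ B := by
      rw [hRd] at j3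
      refine j3.trans (le_of_eq ?_)
      field_simp
    refine ⟨j1, hxB, j2, ?_⟩
    -- the height
    have e1 := j3
    rw [UpperAux.relHeight_eq, UpperAux.finrank_eq _ n j1, ← hd,
      ← Real.le_log_iff_exp_le (by positivity), Real.log_mul hC₁.ne'
      (Real.rpow_pos_of_pos hRpos _).ne', Real.log_rpow hRpos] at e1
    push_cast at e1
    have hn0 : (0 : ℝ) < n := by linarith
    have hdn : (0 : ℝ) < d * n := mul_pos hd0 hn0
    have hlogR : L₀ ≤ Real.log R := by
      rw [← Real.exp_le_exp, Real.exp_log hRpos]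
      exact (le_max_right _ _).trans hRge
    have hdd : 0 < d * (δ₁ - δ) := mul_pos hd0 (by linarith)
    have e2 : C₂ + (2 + δ) * Real.log C₁ ≤ d * (δ₁ - δ) * Real.log R := by
      rw [hL₀, div_le_iff₀ hdd] at hlogR
      linarith
    have e3 : (2 + δ) * (d * n * height x) ≤ (2 + δ) * (Real.log C₁ + d * Real.log R) :=
      mul_le_mul_of_nonneg_left e1 (by linarith)
    have e4 : d * n * ((2 + δ) * height x) ≤ d * n * proximity p g q x := by
      nlinarith
    exact le_of_mul_le_mul_left e4 hdn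

end Pool.Agent.AAL
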