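import Pool.Agent.AAL.Defs
import Pool.Agent.AA.ProdF

/-!
# AAL B16a: the trivial bound for the proximity
-/

set_option autoImplicit false

open Polynomial NumberField IntermediateField Module Pool.Agent.AA

namespace Pool.Agent.AAL

/-- products of elements of the denominator ideal -/
private theorem pt_den {K : Type} [Field K] [NumberField K] (x : K) (q : ℕ) :
    ∀ c ∈ (RefW.denIdealOf x) ^ q, ∀ i ≤ q, ∃ t : 𝓞 K, (t : K) = (c : K) * x ^ i := by
  induction q with
  | zero =>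
    intro c _ i hi
    obtain rfl : i = 0 := by omega
    exact ⟨c, by simp⟩
  | succ q ih =>
    intro c hc i hi
    rw [pow_succ] at hc
    induction hc using Submodule.mul_induction_on' with
    | mem_mul_mem a ha b hb =>
      rcases Nat.lt_or_ge i (q + 1) with h | h
      · obtain ⟨t, ht⟩ := ih a ha i (by omega)
        refine ⟨t * b, ?_⟩
        have e1 : ((t * b : 𝓞 K) : K) = (t : K) * (b : K) := rfl
        have e2 : ((a * b : 𝓞 K) : K) = (a : K) * (b : K) := rfl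
        rw [e1, e2, ht]
        ring
      · obtain rfl : i = q + 1 := by omega
        obtain ⟨t, ht⟩ := ih a ha q le_rfl
        obtain ⟨s, hs⟩ := hb
        refine ⟨t * s, ?_⟩
        have e1 : ((t * s : 𝓞 K) : K) = (t : K) * (s : K) := rfl
        have e2 : ((a * b : 𝓞 K) : K) = (a : K) * (b : K) := rfl
        rw [e1, e2, ht, hs]
        ring
    | add a _ b _ h1 h2 =>
      obtain ⟨s, hs⟩ := h1
      obtain ⟨t, ht⟩ := h2
      refine ⟨s + t, ?_⟩
      have e1 : ((s + t : 𝓞 K) : K) = (s : K) + (t : K) := rfl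
      have e2 : ((a + b : 𝓞 K) : K) = (a : K) + (b : K) := rfl
      rw [e1, e2, hs, ht]
      ring

/-- a common denominator of the coefficients -/
private theorem pt_common (k : Type) [Field k] [NumberField k] (g : k[X]) :
    ∃ m : 𝓞 k, m ≠ 0 ∧ ∀ i, ∃ a : 𝓞 k, (a : k) = (m : k) * g.coeff i := by
  classical
  obtain ⟨m, hm⟩ := IsLocalization.exist_integer_multiples_of_finset (nonZeroDivisors (𝓞 k))
    (g.support.image g.coeff)
  refine ⟨m, nonZeroDivisors.ne_zero m.2, fun i => ?_⟩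
  by_cases hi : g.coeff i = 0
  · exact ⟨0, by rw [hi]; simp⟩
  · obtain ⟨a, ha⟩ := hm (g.coeff i)
      (Finset.mem_image_of_mem _ (Polynomial.mem_support_iff.2 hi))
    exact ⟨a, by rw [Algebra.smul_def] at ha; exact ha⟩

/-- the product formula for the value of a polynomial -/
private theorem pt_field (k : Type) [Field k] [NumberField k] {r : ℕ} (p : Fin r → ℕ)
    [∀ t, Fact (p t).Prime] (hp : Function.Injective p) (g : k[X]) (q : ℕ)
    (hq : g.natDegree ≤ q) (m : 𝓞 k) (hm : m ≠ 0)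
    (hmg : ∀ i, ∃ a : 𝓞 k, (a : k) = (m : k) * g.coeff i)
    (K : Type) [Field K] [NumberField K] [Algebra k K] (x : K) (hx : aeval x g ≠ 0) :
    SST.proxK p g q K x ≤ q * SST.ht K x +
      Real.log ‖((Algebra.norm ℚ (algebraMap k K m) : ℚ) : ℂ)‖ / finrank ℚ K := by
  classical
  set w : ℚ := Algebra.norm ℚ (aeval x g) with hw
  have hw0 : w ≠ 0 := by
    rw [hw, Algebra.norm_ne_zero_iff]
    exact hx
  obtain ⟨ha0, ha⟩ := RefW.denIdeal_norm_le x
  set a : ℕ := Ideal.absNorm (RefW.denIdealOf x) with hadef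
  have ha1 : a ≠ 0 := by rw [hadef, Ne, Ideal.absNorm_eq_zero_iff]; exact ha0
  -- the common denominator in `K`
  obtain ⟨M, hM⟩ : ∃ M : 𝓞 K, (M : K) = algebraMap k K m := by
    have h1 : IsIntegral ℤ (algebraMap k K m) := (RingOfIntegers.isIntegral_coe m).map
      (IsScalarTower.toAlgHom ℤ k K)
    exact ⟨⟨_, h1⟩, rfl⟩
  have hM0 : M ≠ 0 := by
    intro h
    rw [h] at hM
    have h1 : algebraMap k K m = 0 := by rw [← hM]; simp
    rw [map_eq_zero] at h1
    exact hm (by exact_mod_cast h1)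
  set N : ℤ := Algebra.norm ℤ M with hN
  have hN0 : N ≠ 0 := Algebra.norm_ne_zero_iff.2 hM0
  have hNQ : (N : ℚ) = Algebra.norm ℚ (algebraMap k K m) := by
    rw [hN, Algebra.coe_norm_int, hM]
  -- an integer
  obtain ⟨j, hj⟩ : ∃ j : ℤ, (j : ℚ) = N * w * (((a ^ q : ℕ) : ℤ) : ℚ) := by
    have h1 := norm_induction ((RefW.denIdealOf x) ^ q)
      (fun s => ∃ j : ℤ, (j : ℚ) = N * w * (s : ℚ)) ⟨0, by simp⟩ ?_ ?_ ?_
    · rwa [map_pow] at h1
    · rintro s t ⟨i, hi⟩ ⟨j, hj⟩
      refine ⟨i + j, ?_⟩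
      push_cast
      rw [hi, hj]
      ring
    · rintro s t ⟨i, hi⟩
      refine ⟨s * i, ?_⟩
      push_cast
      rw [hi]
      ring
    · intro c hc
      have h2 : ∃ s : 𝓞 K, (s : K) = (c : K) * ((M : K) * aeval x g) := by
        have h3 : ∀ i ∈ Finset.range (q + 1), ∃ s : 𝓞 K,
            (s : K) = (c : K) * ((M : K) * (algebraMap k K (g.coeff i) * x ^ i)) := by
          intro i hi
          obtain ⟨t, ht⟩ := pt_den x q c hc i (by rw [Finset.mem_range] at hi; omega)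
          obtain ⟨b, hb⟩ := hmg i
          have h4 : IsIntegral ℤ (algebraMap k K b) := (RingOfIntegers.isIntegral_coe b).map
            (IsScalarTower.toAlgHom ℤ k K)
          obtain ⟨β, hβ⟩ : ∃ β : 𝓞 K, (β : K) = algebraMap k K b := ⟨⟨_, h4⟩, rfl⟩
          refine ⟨β * t, ?_⟩
          have e1 : ((β * t : 𝓞 K) : K) = (β : K) * (t : K) := rfl
          rw [e1, hβ, ht, hM, hb, map_mul]
          ring
        choose! s hs using h3
        refine ⟨∑ i ∈ Finset.range (q + 1), s i, ?_⟩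
        have e2 : ((∑ i ∈ Finset.range (q + 1), s i : 𝓞 K) : K) =
            ∑ i ∈ Finset.range (q + 1), (s i : K) := map_sum (algebraMap (𝓞 K) K) _ _
        rw [e2, Finset.sum_congr rfl hs, aeval_eq_sum_range' (Nat.lt_succ_of_le hq),
          Finset.mul_sum, Finset.mul_sum]
        refine Finset.sum_congr rfl fun i _ => ?_
        rw [Algebra.smul_def]
      obtain ⟨s, hs⟩ := h2
      refine ⟨Algebra.norm ℤ s, ?_⟩
      rw [Algebra.coe_norm_int, hs, map_mul, map_mul, hN, Algebra.coe_norm_int,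
        Algebra.coe_norm_int, hw]
      ring
  have hjne : j ≠ 0 := by
    intro h
    rw [h, Int.cast_zero] at hj
    have h1 : (((a ^ q : ℕ) : ℤ) : ℚ) ≠ 0 := by
      have := pow_ne_zero q ha1
      exact_mod_cast this
    have h2 : (N : ℚ) ≠ 0 := by exact_mod_cast hN0
    exact mul_ne_zero (mul_ne_zero h2 hw0) h1 hj.symm
  have hjA : ∀ (A : Type) [NormedField A] [CharZero A],
      ‖(j : A)‖ = ‖(N : A)‖ * ‖(w : A)‖ * ‖((a : ℤ) : A)‖ ^ q := by
    intro A _ _
    have h1 : (((j : ℤ) : ℚ) : A) = ((N * w * (((a ^ q : ℕ) : ℤ) : ℚ) : ℚ) : A) := by rw [hj]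
    push_cast at h1
    rw [h1, norm_mul, norm_mul, norm_pow]
    push_cast
    ring
  have hprod := SST.sk_prod_ge p hp j hjne
  have hj0 : 0 < |(j : ℝ)| := by
    rw [abs_pos]
    exact_mod_cast hjne
  have hjt : ∀ t, 0 < ‖(j : ℚ_[p t])‖ := by
    intro t
    rw [norm_pos_iff]
    exact_mod_cast hjne
  have hlog : 0 ≤ Real.log |(j : ℝ)| + ∑ t, Real.log ‖(j : ℚ_[p t])‖ := by
    rw [← Real.log_prod fun t _ => (hjt t).ne',
      ← Real.log_mul hj0.ne' (Finset.prod_pos fun t _ => hjt t).ne']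
    exact Real.log_nonneg hprod
  have hX : ∀ (A : Type) [NormedField A] [CharZero A] [IsAlgClosed A] (z : K),
      0 < ∏ σ : K →+* A, max 1 ‖σ z‖ := fun A _ _ _ z =>
    Finset.prod_pos fun σ _ => lt_of_lt_of_le one_pos (le_max_left _ _)
  have hwA : ∀ (A : Type) [NormedField A] [CharZero A], 0 < ‖(w : A)‖ := by
    intro A _ _
    rw [norm_pos_iff]
    exact_mod_cast hw0
  have hNA : ∀ (A : Type) [NormedField A] [CharZero A], 0 < ‖(N : A)‖ := by
    intro A _ _
    rw [norm_pos_iff]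
    exact_mod_cast hN0
  have haA : ∀ (A : Type) [NormedField A] [CharZero A], 0 < ‖((a : ℤ) : A)‖ := by
    intro A _ _
    rw [norm_pos_iff]
    exact_mod_cast ha1
  have hn0 : (0 : ℝ) < finrank ℚ K := Nat.cast_pos.2 finrank_pos
  -- the infinite part
  have hinf : Real.log (∏ σ : K →+* ℂ, max 1 ‖σ x‖) ≤ finrank ℚ K * SST.ht K x -
      Real.log ‖((a : ℤ) : ℂ)‖ := by
    have h1 : (0 : ℝ) < a := Nat.cast_pos.2 (Nat.pos_of_ne_zero ha1)
    have h2 := Real.log_le_log (mul_pos h1 (hX ℂ x)) ha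
    rw [Real.log_mul h1.ne' (hX ℂ x).ne'] at h2
    rw [SST.ht, mul_div_cancel₀ _ hn0.ne', Height.logHeight₁, Int.cast_natCast,
      Complex.norm_natCast]
    linarith
  have hfin : ∀ t, Real.log (∏ σ : K →+* ℂ_[p t], max 1 ‖σ x‖) ≤
      -Real.log ‖((a : ℤ) : ℂ_[p t])‖ := by
    intro t
    have h1 := haA ℂ_[p t]
    have h2 := Real.log_le_log (mul_pos h1 (hX ℂ_[p t] x)) (denIdeal_padic (p t) x)
    rw [Real.log_mul h1.ne' (hX ℂ_[p t] x).ne', Real.log_one] at h2
    linarith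
  -- the local sums
  have hsum : ∀ (A : Type) [NormedField A] [CharZero A] [IsAlgClosed A],
      ∑ σ : K →+* A, -Real.log (‖σ (aeval x g)‖ / max 1 ‖σ x‖ ^ q) =
        -Real.log ‖(w : A)‖ + q * Real.log (∏ σ : K →+* A, max 1 ‖σ x‖) := by
    intro A _ _ _
    rw [hw, ← prod_embeddings_eq A (aeval x g), Real.log_prod, Real.log_prod, Finset.mul_sum,
      ← Finset.sum_neg_distrib, ← Finset.sum_add_distrib]
    · refine Finset.sum_congr rfl fun σ _ => ?_
      have h1 : 0 < ‖σ (aeval x g)‖ := norm_pos_iff.2 ((map_ne_zero σ).2 hx)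
      have h2 : 0 < max 1 ‖σ x‖ := lt_of_lt_of_le one_pos (le_max_left _ _)
      rw [Real.log_div h1.ne' (by positivity), Real.log_pow]
      ring
    · intro σ _
      exact (lt_of_lt_of_le one_pos (le_max_left _ _)).ne'
    · intro σ _
      exact norm_ne_zero_iff.2 ((map_ne_zero σ).2 hx)
  have hq0 : (0 : ℝ) ≤ q := Nat.cast_nonneg q
  have i3 : Real.log |(j : ℝ)| = Real.log ‖(N : ℂ)‖ + Real.log ‖(w : ℂ)‖ +
      q * Real.log ‖((a : ℤ) : ℂ)‖ := by
    rw [← Complex.norm_intCast, hjA ℂ, Real.log_mul (mul_pos (hNA ℂ) (hwA ℂ)).ne'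
      (pow_pos (haA ℂ) q).ne', Real.log_mul (hNA ℂ).ne' (hwA ℂ).ne', Real.log_pow]
  have i4 : ∀ t, ∑ σ : K →+* ℂ_[p t], -Real.log (‖σ (aeval x g)‖ / max 1 ‖σ x‖ ^ q) ≤
      -Real.log ‖(j : ℚ_[p t])‖ := by
    intro t
    have h1 : Real.log ‖(j : ℚ_[p t])‖ = Real.log ‖(N : ℂ_[p t])‖ + Real.log ‖(w : ℂ_[p t])‖ +
        q * Real.log ‖((a : ℤ) : ℂ_[p t])‖ := by
      rw [← padic_norm_int, hjA ℂ_[p t], Real.log_mul
        (mul_pos (hNA ℂ_[p t]) (hwA ℂ_[p t])).ne' (pow_pos (haA ℂ_[p t]) q).ne',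
        Real.log_mul (hNA ℂ_[p t]).ne' (hwA ℂ_[p t]).ne', Real.log_pow]
    have h2 := mul_le_mul_of_nonneg_left (hfin t) hq0
    have h3 : Real.log ‖(N : ℂ_[p t])‖ ≤ 0 := by
      refine Real.log_nonpos (norm_nonneg _) ?_
      rw [padic_norm_int]
      exact Padic.norm_int_le_one N
    rw [hsum, h1]
    linarith
  have i5 := Finset.sum_le_sum fun t (_ : t ∈ Finset.univ) => i4 t
  rw [Finset.sum_neg_distrib] at i5
  have i6 := mul_le_mul_of_nonneg_left hinf hq0
  have i7 : ‖((Algebra.norm ℚ (algebraMap k K m) : ℚ) : ℂ)‖ = ‖(N : ℂ)‖ := by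
    rw [← hNQ, Rat.cast_intCast]
  rw [SST.proxK, hsum, i7, div_le_iff₀ hn0, add_mul, div_mul_cancel₀ _ hn0.ne']
  linarith

/-- the trivial bound for the proximity -/
theorem prox_triv (k : Type) [Field k] [NumberField k] {r : ℕ} (p : Fin r → ℕ)
    [∀ t, Fact (p t).Prime] (hp : Function.Injective p) (g : k[X]) (hg : Squarefree g) (q : ℕ)
    (hq : q = g.natDegree ∨ q = g.natDegree + 1) (n : ℕ) (hn : 0 < n) :
    ∃ C : ℝ, ∀ x : AlgebraicClosure k, finrank k (IntermediateField.adjoin k {x}) = n →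
      aeval x g ≠ 0 → proximity p g q x ≤ q * height x + C := by
  obtain ⟨m, hm, hmg⟩ := pt_common k g
  refine ⟨Real.log ‖(((Algebra.norm ℚ (m : k)) ^ n : ℚ) : ℂ)‖ / ((finrank ℚ k * n : ℕ) : ℝ),
    fun x hx hgx => ?_⟩
  have h1 : aeval (AdjoinSimple.gen k x) g ≠ 0 := by
    intro h
    apply hgx
    have h2 : aeval (algebraMap (IntermediateField.adjoin k {x}) (AlgebraicClosure k)
        (AdjoinSimple.gen k x)) g = 0 := by
      rw [aeval_algebraMap_apply, h, map_zero]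
    rwa [AdjoinSimple.algebraMap_gen] at h2
  have h2 := pt_field k p hp g q (by omega) m hm hmg (IntermediateField.adjoin k {x})
    (AdjoinSimple.gen k x) h1
  have h3 : finrank ℚ (IntermediateField.adjoin k {x}) = finrank ℚ k * n := by
    rw [← hx, finrank_mul_finrank]
  have h4 : Algebra.norm ℚ (algebraMap k (IntermediateField.adjoin k {x}) m) =
      (Algebra.norm ℚ (m : k)) ^ n := by
    rw [← Algebra.norm_norm (S := k), Algebra.norm_algebraMap, map_pow, hx]
  rw [h3, h4] at h2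
  exact h2

end Pool.Agent.AAL
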