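import Pool.Agent.AAL.Defs

/-!
# Small elements of an ideal

For `M ≠ 0` in `𝓞 k` there is `C` such that for every ideal `𝔠 ≠ 0` and every `R ≥ 0` at most
`C max (1, R ^ d / N 𝔠)` integers `y` with all `w y ≤ R` satisfy `M y ∈ 𝔠`, `d = [k : ℚ]`. Different
elements `z`, `z'` of `𝔠` satisfy `N 𝔠 ≤ |N (z - z')|`, so they lie in different cells of side `t / 2`,
`t = (N 𝔠) ^ (1 / d)`.
-/

set_option autoImplicit false

open Polynomial NumberField IntermediateField Module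

namespace Pool.Agent.AAL

/-- one real coordinate for every embedding -/
private noncomputable def coordI {K : Type} [Field K] [NumberField K] (φ : K →+* ℂ) (a : K) : ℝ :=
  open Classical in if φ = (InfinitePlace.mk φ).embedding then (φ a).re else (φ a).im

private theorem coordI_sub {K : Type} [Field K] [NumberField K] (φ : K →+* ℂ) (a b : K) :
    coordI φ (a - b) = coordI φ a - coordI φ b := by
  unfold coordI
  split_ifs
  · rw [map_sub, Complex.sub_re]
  · rw [map_sub, Complex.sub_im]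

private theorem abs_coordI {K : Type} [Field K] [NumberField K] (φ : K →+* ℂ) (a : K) :
    |coordI φ a| ≤ (InfinitePlace.mk φ) a := by
  rw [InfinitePlace.apply]
  unfold coordI
  split_ifs
  · exact Complex.abs_re_le_norm _
  · exact Complex.abs_im_le_norm _

private theorem lt_of_coordI {K : Type} [Field K] [NumberField K] (a : K) (t : ℝ) (ht : 0 < t)
    (h : ∀ φ : K →+* ℂ, |coordI φ a| < t / 2) (w : InfinitePlace K) : w a < t := by
  classical
  have hre : |(w.embedding a).re| < t / 2 := by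
    have := h w.embedding
    unfold coordI at this
    rwa [InfinitePlace.mk_embedding, if_pos rfl] at this
  have him : |(w.embedding a).im| < t / 2 := by
    by_cases hw : w.IsReal
    · have h1 := InfinitePlace.isReal_iff.1 hw
      have h2 : starRingEnd ℂ (w.embedding a) = w.embedding a := by
        have := RingHom.congr_fun h1 a
        rwa [ComplexEmbedding.conjugate_coe_eq] at this
      rw [Complex.conj_eq_iff_im] at h2
      rw [h2, abs_zero]
      linarith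
    · have h1 : ¬ ComplexEmbedding.IsReal w.embedding := fun h2 => hw (InfinitePlace.isReal_iff.2 h2)
      have h3 : ComplexEmbedding.conjugate w.embedding ≠ w.embedding := h1
      have := h (ComplexEmbedding.conjugate w.embedding)
      unfold coordI at this
      rw [InfinitePlace.mk_conjugate_eq, InfinitePlace.mk_embedding, if_neg h3,
        ComplexEmbedding.conjugate_coe_eq, Complex.conj_im, abs_neg] at this
      exact this
  rw [← InfinitePlace.norm_embedding_eq w a]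
  have h1 : ‖w.embedding a‖ ^ 2 < t ^ 2 := by
    rw [Complex.sq_norm, Complex.normSq_apply]
    have h2 := abs_lt.1 hre
    have h3 := abs_lt.1 him
    nlinarith [mul_self_lt_mul_self (abs_nonneg (w.embedding a).re) hre,
      mul_self_lt_mul_self (abs_nonneg (w.embedding a).im) him,
      abs_mul_abs_self (w.embedding a).re, abs_mul_abs_self (w.embedding a).im]
  exact lt_of_pow_lt_pow_left₀ 2 ht.le h1

/-- a nonzero element of an ideal has a large norm -/
private theorem absNorm_lt {k : Type} [Field k] [NumberField k] (𝔠 : Ideal (𝓞 k)) (z : 𝓞 k)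
    (hz : z ≠ 0) (hmem : z ∈ 𝔠) (t : ℝ) (h : ∀ w : InfinitePlace k, w (z : k) < t) :
    (Ideal.absNorm 𝔠 : ℝ) < t ^ finrank ℚ k := by
  have hzk : (z : k) ≠ 0 := by
    intro h0
    exact hz (RingOfIntegers.ext h0)
  have h1 : (Ideal.absNorm 𝔠 : ℤ) ∣ Algebra.norm ℤ z := Ideal.absNorm_dvd_norm_of_mem hmem
  have h2 : Algebra.norm ℤ z ≠ 0 := Algebra.norm_ne_zero_iff.2 hz
  have h3 : (Ideal.absNorm 𝔠 : ℤ) ≤ |Algebra.norm ℤ z| :=
    Int.le_of_dvd (abs_pos.2 h2) ((dvd_abs _ _).2 h1)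
  have h4 : (Ideal.absNorm 𝔠 : ℝ) ≤ |((Algebra.norm ℤ z : ℤ) : ℝ)| := by
    exact_mod_cast h3
  have h5 : |((Algebra.norm ℤ z : ℤ) : ℝ)| = ∏ w : InfinitePlace k, w (z : k) ^ w.mult := by
    rw [InfinitePlace.prod_eq_abs_norm, ← Algebra.coe_norm_int]
    push_cast
    rfl
  have h6 : ∏ w : InfinitePlace k, w (z : k) ^ w.mult < ∏ w : InfinitePlace k, t ^ w.mult := by
    apply Finset.prod_lt_prod_of_nonempty
    · intro w _
      exact pow_pos (InfinitePlace.pos_iff.2 hzk) _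
    · intro w _
      exact pow_lt_pow_left₀ (h w) (apply_nonneg w _) (InfinitePlace.mult_pos).ne'
    · exact Finset.univ_nonempty
  have h7 : ∏ w : InfinitePlace k, t ^ w.mult = t ^ finrank ℚ k := by
    rw [Finset.prod_pow_eq_pow_sum, InfinitePlace.sum_mult_eq]
  rw [h7, ← h5] at h6
  exact lt_of_le_of_lt h4 h6

theorem card_ideal_le (k : Type) [Field k] [NumberField k] (M : 𝓞 k) (hM : M ≠ 0) :
    ∃ C : ℝ, 1 ≤ C ∧ ∀ 𝔠 : Ideal (𝓞 k), 𝔠 ≠ ⊥ → ∀ R : ℝ, 0 ≤ R →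
      {y : 𝓞 k | (∀ w : InfinitePlace k, w (y : k) ≤ R) ∧ M * y ∈ 𝔠}.Finite ∧
      ({y : 𝓞 k | (∀ w : InfinitePlace k, w (y : k) ≤ R) ∧ M * y ∈ 𝔠}.ncard : ℝ) ≤
        C * max 1 (R ^ finrank ℚ k / Ideal.absNorm 𝔠) := by
  classical
  obtain ⟨W, hW0, hW⟩ : ∃ W : ℝ, 0 ≤ W ∧ ∀ w : InfinitePlace k, w (M : k) ≤ W := by
    refine ⟨∑ w : InfinitePlace k, w (M : k), Finset.sum_nonneg fun w _ => apply_nonneg w _, ?_⟩
    intro w
    exact Finset.single_le_sum (f := fun w : InfinitePlace k => w (M : k))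
      (fun v _ => apply_nonneg v _) (Finset.mem_univ w)
  obtain ⟨d, hd⟩ : ∃ d : ℕ, d = finrank ℚ k := ⟨_, rfl⟩
  have hdpos : 0 < d := by
    rw [hd]
    exact finrank_pos
  refine ⟨(4 * W + 2) ^ d, one_le_pow₀ (by linarith), ?_⟩
  intro 𝔠 h𝔠 R hR
  obtain ⟨N, hN⟩ : ∃ N : ℝ, N = (Ideal.absNorm 𝔠 : ℝ) := ⟨_, rfl⟩
  have hN1 : 1 ≤ N := by
    have h1 : Ideal.absNorm 𝔠 ≠ 0 := by
      rw [Ne, Ideal.absNorm_eq_zero_iff]
      exact h𝔠
    rw [hN]
    exact_mod_cast Nat.one_le_iff_ne_zero.2 h1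
  obtain ⟨t, ht0, htN⟩ : ∃ t : ℝ, 0 < t ∧ t ^ d = N := by
    refine ⟨N ^ ((d : ℝ)⁻¹), Real.rpow_pos_of_pos (by linarith) _, ?_⟩
    exact Real.rpow_inv_natCast_pow (by linarith) hdpos.ne'
  obtain ⟨S, hS⟩ : ∃ S : Set (𝓞 k), S =
      {y : 𝓞 k | (∀ w : InfinitePlace k, w (y : k) ≤ R) ∧ M * y ∈ 𝔠} := ⟨_, rfl⟩
  obtain ⟨u, hu⟩ : ∃ u : ℝ, u = 2 * (W * R) / t := ⟨_, rfl⟩
  have hu0 : 0 ≤ u := by
    rw [hu]
    positivity
  obtain ⟨F, hF⟩ : ∃ F : Finset ((k →+* ℂ) → ℤ),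
      F = Fintype.piFinset fun _ => Finset.Icc ⌊-u⌋ ⌊u⌋ := ⟨_, rfl⟩
  obtain ⟨g, hg⟩ : ∃ g : 𝓞 k → (k →+* ℂ) → ℤ,
      ∀ y φ, g y φ = ⌊2 * coordI φ ((M * y : 𝓞 k) : k) / t⌋ := ⟨_, fun _ _ => rfl⟩
  have hcard : F.card = (⌊u⌋ + 1 - ⌊-u⌋).toNat ^ d := by
    rw [hF, Fintype.card_piFinset, Finset.prod_const, Finset.card_univ, Int.card_Icc,
      Embeddings.card, hd]
  have hmaps : ∀ y ∈ S, g y ∈ (F : Set ((k →+* ℂ) → ℤ)) := by
    intro y hy
    rw [hS] at hy
    rw [Finset.mem_coe, hF, Fintype.mem_piFinset]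
    intro φ
    have h1 := abs_coordI φ ((M * y : 𝓞 k) : k)
    have h2 : (InfinitePlace.mk φ) ((M * y : 𝓞 k) : k) ≤ W * R := by
      push_cast
      rw [map_mul]
      exact mul_le_mul (hW _) (hy.1 _) (apply_nonneg _ _) hW0
    have h3 := abs_le.1 (h1.trans h2)
    have h4 : 2 * coordI φ ((M * y : 𝓞 k) : k) / t ≤ u := by
      rw [hu]
      apply div_le_div_of_nonneg_right _ ht0.le
      linarith [h3.2]
    have h5 : -u ≤ 2 * coordI φ ((M * y : 𝓞 k) : k) / t := by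
      rw [hu, ← neg_div]
      apply div_le_div_of_nonneg_right _ ht0.le
      linarith [h3.1]
    rw [Finset.mem_Icc, hg]
    exact ⟨Int.floor_le_floor h5, Int.floor_le_floor h4⟩
  have hinj : Set.InjOn g S := by
    intro a ha b hb hab
    rw [hS] at ha hb
    by_contra hne
    have hsub : M * a - M * b ≠ 0 := by
      rw [← mul_sub]
      exact mul_ne_zero hM (sub_ne_zero.2 hne)
    have hmem : M * a - M * b ∈ 𝔠 := 𝔠.sub_mem ha.2 hb.2
    have h1 : ∀ w : InfinitePlace k, w ((M * a - M * b : 𝓞 k) : k) < t := by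
      refine lt_of_coordI _ t ht0 fun φ => ?_
      have h2 : ⌊2 * coordI φ ((M * a : 𝓞 k) : k) / t⌋ =
          ⌊2 * coordI φ ((M * b : 𝓞 k) : k) / t⌋ := by
        rw [← hg, ← hg, hab]
      have h3 : ((M * a - M * b : 𝓞 k) : k) = ((M * a : 𝓞 k) : k) - ((M * b : 𝓞 k) : k) := by
        push_cast
        rfl
      rw [h3, coordI_sub]
      have h4 := Int.abs_sub_lt_one_of_floor_eq_floor h2
      rw [← sub_div, ← mul_sub, abs_div, abs_of_pos ht0, div_lt_one ht0, abs_mul, abs_two] at h4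
      linarith
    have h5 := absNorm_lt 𝔠 _ hsub hmem t h1
    rw [← hd, htN, ← hN] at h5
    exact lt_irrefl _ h5
  rw [← hS]
  have hfin : S.Finite := Set.Finite.of_injOn hmaps hinj F.finite_toSet
  refine ⟨hfin, ?_⟩
  have h1 : S.ncard ≤ F.card := by
    rw [← Set.ncard_coe_finset]
    exact Set.ncard_le_ncard_of_injOn _ hmaps hinj F.finite_toSet
  have h2 : ((⌊u⌋ + 1 - ⌊-u⌋).toNat : ℝ) ≤ 2 * u + 2 := by
    have h3 : (0 : ℤ) ≤ ⌊u⌋ + 1 - ⌊-u⌋ := by
      have : ⌊-u⌋ ≤ ⌊u⌋ := Int.floor_le_floor (by linarith)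
      linarith
    have h4 : (((⌊u⌋ + 1 - ⌊-u⌋).toNat : ℕ) : ℝ) = ((⌊u⌋ + 1 - ⌊-u⌋ : ℤ) : ℝ) := by
      exact_mod_cast Int.toNat_of_nonneg h3
    rw [h4]
    push_cast
    have := Int.floor_le u
    have := Int.lt_floor_add_one (-u)
    linarith
  have h3 : 2 * u + 2 ≤ (4 * W + 2) * max 1 (R / t) := by
    have h4 : 2 * u = 4 * W * (R / t) := by
      rw [hu]
      ring
    rw [h4, add_mul]
    have h5 : 4 * W * (R / t) ≤ 4 * W * max 1 (R / t) :=
      mul_le_mul_of_nonneg_left (le_max_right _ _) (by linarith)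
    have h6 : (2 : ℝ) * 1 ≤ 2 * max 1 (R / t) :=
      mul_le_mul_of_nonneg_left (le_max_left _ _) (by norm_num)
    linarith
  have h7 : max 1 (R / t) ^ d = max 1 (R ^ finrank ℚ k / Ideal.absNorm 𝔠) := by
    rw [← hN, ← htN, ← hd, ← div_pow]
    rcases le_total 1 (R / t) with h | h
    · rw [max_eq_right h, max_eq_right (one_le_pow₀ h)]
    · rw [max_eq_left h, max_eq_left (pow_le_one₀ (by positivity) h), one_pow]
  calc (S.ncard : ℝ) ≤ (F.card : ℝ) := by exact_mod_cast h1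
    _ = ((⌊u⌋ + 1 - ⌊-u⌋).toNat : ℝ) ^ d := by rw [hcard]; push_cast; ring
    _ ≤ ((4 * W + 2) * max 1 (R / t)) ^ d :=
        pow_le_pow_left₀ (Nat.cast_nonneg _) (h2.trans h3) _
    _ = (4 * W + 2) ^ d * max 1 (R ^ finrank ℚ k / Ideal.absNorm 𝔠) := by
        rw [mul_pow, h7]

end Pool.Agent.AAL
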