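import Pool.Agent.AAL.Defs
import Pool.Agent.AA.NearCount
import Pool.Agent.AAL.ProxTriv

/-!
# The upper bound for the number of violators
-/

set_option autoImplicit false

open Polynomial NumberField IntermediateField Module Pool.Agent.AA

namespace Pool.Agent.AAL

private theorem viol_union {Ω : Type} (V V₁ V₂ : Set Ω) (h : V ⊆ V₁ ∪ V₂) (h₁ : V₁.Finite)
    (h₂ : V₂.Finite) (a b : ℝ) (ha : (V₁.ncard : ℝ) ≤ a) (hb : (V₂.ncard : ℝ) ≤ b) :
    V.Finite ∧ (V.ncard : ℝ) ≤ a + b := by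
  refine ⟨(h₁.union h₂).subset h, ?_⟩
  have h3 := (Set.ncard_le_ncard h (h₁.union h₂)).trans (Set.ncard_union_le V₁ V₂)
  have h4 : (V.ncard : ℝ) ≤ V₁.ncard + V₂.ncard := by exact_mod_cast h3
  linarith

theorem viol_count (k : Type) [Field k] [NumberField k] {r : ℕ} (p : Fin r → ℕ)
    [∀ t, Fact (p t).Prime] (hp : Function.Injective p) (g : k[X]) (hg : Squarefree g) (q : ℕ)
    (hq : q = g.natDegree ∨ q = g.natDegree + 1) (hq3 : 3 ≤ q) (n : ℕ) (hn : 2 ≤ n)
    (hqn : q ≤ n + 1) (ε η : ℝ) (hε : 0 < ε) (hη : 0 < η) : ∃ C : ℝ, ∀ B : ℝ, 1 ≤ B →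
    {x : AlgebraicClosure k | finrank k (IntermediateField.adjoin k {x}) = n ∧
      relHeight x ≤ B ∧ aeval x g ≠ 0 ∧
      logDiscr x + ε * height x < proximity p g q x - 2 * height x}.Finite ∧
    ({x : AlgebraicClosure k | finrank k (IntermediateField.adjoin k {x}) = n ∧
      relHeight x ≤ B ∧ aeval x g ≠ 0 ∧
      logDiscr x + ε * height x < proximity p g q x - 2 * height x}.ncard : ℝ) ≤
      C * B ^ (min ((q : ℝ) - 2) (4 * ((n : ℝ) - 1) / (n + 6)) * ((n : ℝ) + 2) / 4 + η) := by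
  set κ : ℝ := min ((q : ℝ) - 2) (4 * ((n : ℝ) - 1) / (n + 6)) with hκ
  have hnR : (2 : ℝ) ≤ n := by exact_mod_cast hn
  have hqR : (3 : ℝ) ≤ q := by exact_mod_cast hq3
  have hκ0 : 0 < κ := by
    rw [hκ]
    refine lt_min (by linarith) ?_
    exact div_pos (by linarith) (by linarith)
  set β : ℝ := κ + 4 * η / ((n : ℝ) + 2) with hβ
  have hs : 0 < 4 * η / ((n : ℝ) + 2) := div_pos (by linarith) (by linarith)
  have hβ0 : 0 < β := by rw [hβ]; linarith
  have hβe : β * ((n : ℝ) + 2) / 4 = κ * ((n : ℝ) + 2) / 4 + η := by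
    rw [hβ]
    have : (n : ℝ) + 2 ≠ 0 := by linarith
    field_simp
  obtain ⟨C₁, h1⟩ := upper k p hp g hg q hq n hn ε β hε hβ0
  have hexp : 0 ≤ κ * ((n : ℝ) + 2) / 4 + η := by positivity
  -- the points which are very near to the divisor
  have h2 : ∃ C₂ : ℝ, ∀ B : ℝ, 1 ≤ B →
      {x : AlgebraicClosure k | finrank k (IntermediateField.adjoin k {x}) = n ∧
        relHeight x ≤ B ∧ aeval x g ≠ 0 ∧ (2 + β) * height x < proximity p g q x}.Finite ∧
      ({x : AlgebraicClosure k | finrank k (IntermediateField.adjoin k {x}) = n ∧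
        relHeight x ≤ B ∧ aeval x g ≠ 0 ∧ (2 + β) * height x < proximity p g q x}.ncard : ℝ) ≤
        C₂ * B ^ (κ * ((n : ℝ) + 2) / 4 + η) := by
    rcases le_total (4 * ((n : ℝ) - 1) / (n + 6)) ((q : ℝ) - 2) with hc | hc
    · have hκ1 : κ = 4 * ((n : ℝ) - 1) / (n + 6) := by rw [hκ, min_eq_right hc]
      obtain ⟨C₂, h3⟩ := near_count k p hp g hg q hq n hqn (2 + κ) η
        (by rw [hκ1]; linarith) hη
      refine ⟨C₂, fun B hB => ?_⟩
      obtain ⟨h4, h5⟩ := h3 B hB
      have hsub : {x : AlgebraicClosure k | finrank k (IntermediateField.adjoin k {x}) = n ∧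
          relHeight x ≤ B ∧ aeval x g ≠ 0 ∧ (2 + β) * height x < proximity p g q x} ⊆
          {x : AlgebraicClosure k | finrank k (IntermediateField.adjoin k {x}) = n ∧
          relHeight x ≤ B ∧ aeval x g ≠ 0 ∧ (2 + κ) * height x ≤ proximity p g q x} := by
        rintro x ⟨hx1, hx2, hx3, hx4⟩
        refine ⟨hx1, hx2, hx3, ?_⟩
        have hh := UpperAux.height_nonneg x
        have h6 : (2 + κ) * height x ≤ (2 + β) * height x :=
          mul_le_mul_of_nonneg_right (by rw [hβ]; linarith) hh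
        linarith
      refine ⟨h4.subset hsub, ?_⟩
      have h6 : (n : ℝ) + 1 - (2 + κ) + η = κ * ((n : ℝ) + 2) / 4 + η := by
        rw [hκ1]
        have : (n : ℝ) + 6 ≠ 0 := by linarith
        field_simp
        ring
      rw [h6] at h5
      exact (Nat.cast_le.2 (Set.ncard_le_ncard hsub h4)).trans h5
    · have hκ1 : κ = (q : ℝ) - 2 := by rw [hκ, min_eq_left hc]
      obtain ⟨C₀, h3⟩ := prox_triv k p hp g hg q hq n (by omega)
      obtain ⟨C₂, h4⟩ := near_count k p hp g hg q hq n hqn 0 η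
        (by linarith) hη
      set H : ℝ := C₀ / (4 * η / ((n : ℝ) + 2)) with hH
      set B₀ : ℝ := max 1 (Real.exp ((finrank ℚ k * n : ℕ) * H)) with hB₀
      obtain ⟨h5, h6⟩ := h4 B₀ (le_max_left _ _)
      set W : Set (AlgebraicClosure k) :=
        {x : AlgebraicClosure k | finrank k (IntermediateField.adjoin k {x}) = n ∧
          relHeight x ≤ B₀ ∧ aeval x g ≠ 0 ∧ 0 * height x ≤ proximity p g q x} with hW
      refine ⟨W.ncard, fun B hB => ?_⟩
      have hsub : {x : AlgebraicClosure k | finrank k (IntermediateField.adjoin k {x}) = n ∧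
          relHeight x ≤ B ∧ aeval x g ≠ 0 ∧ (2 + β) * height x < proximity p g q x} ⊆ W := by
        rintro x ⟨hx1, hx2, hx3, hx4⟩
        have hh := UpperAux.height_nonneg x
        have h7 := h3 x hx1 hx3
        have h8 : 4 * η / ((n : ℝ) + 2) * height x ≤ C₀ := by
          have h9 : (2 + β) * height x = q * height x + 4 * η / ((n : ℝ) + 2) * height x := by
            rw [hβ, hκ1]
            ring
          linarith
        have h9 : height x ≤ H := by
          rw [hH, le_div_iff₀ hs, mul_comm]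
          exact h8
        refine ⟨hx1, ?_, hx3, ?_⟩
        · refine le_trans ?_ (le_max_right _ _)
          rw [UpperAux.relHeight_eq, UpperAux.finrank_eq _ n hx1]
          exact Real.exp_le_exp.2 (mul_le_mul_of_nonneg_left h9 (Nat.cast_nonneg _))
        · rw [zero_mul]
          have h10 : 0 ≤ (2 + β) * height x := mul_nonneg (by linarith) hh
          linarith
      refine ⟨h5.subset hsub, ?_⟩
      have h7 : (1 : ℝ) ≤ B ^ (κ * ((n : ℝ) + 2) / 4 + η) := Real.one_le_rpow hB hexp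
      have h8 := Nat.cast_le (α := ℝ) |>.2 (Set.ncard_le_ncard hsub h5)
      refine h8.trans ?_
      exact le_mul_of_one_le_right (Nat.cast_nonneg _) h7
  obtain ⟨C₂, h2⟩ := h2
  refine ⟨C₁ + C₂, fun B hB => ?_⟩
  obtain ⟨a1, a2⟩ := h1 B hB
  obtain ⟨b1, b2⟩ := h2 B hB
  rw [hβe] at a2
  rw [add_mul]
  refine viol_union _ _ _ ?_ a1 b1 _ _ a2 b2
  rintro x ⟨hx1, hx2, hx3, hx4⟩
  rcases le_or_gt (proximity p g q x) ((2 + β) * height x) with h | h
  · exact Or.inl ⟨hx1, hx2, hx3, h, hx4⟩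
  · exact Or.inr ⟨hx1, hx2, hx3, h⟩

end Pool.Agent.AAL
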